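import Mathlib

/-!
# Circuits with big gates for the clique problem: definitions

The circuits have AND gates and OR gates of any fan-in, NOT gates, further gates which compute
arbitrary Boolean functions of a limited number of gates, and a limited number of big gates: gates
which look at a sum over all small sets of gates which are true.
-/

open Finset

namespace CliqueUni

/-- A gate which may refer to the gates with numbers `< i`. -/
inductive Gate (ι : Type) (i : ℕ) : Type 1
  | input (v : ι)
  | not (a : Fin i)
  | and (S : Finset (Fin i))
  | or (S : Finset (Fin i))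
  | other (r : ℕ) (w : Fin r → Fin i) (g : (Fin r → Prop) → Prop)
  | thr (w : Finset (Fin i) → ℝ) (θ : ℝ)
  | grp (Γ : Type) (hΓ : AddCommGroup Γ) (hf : Finite Γ) (c : Finset (Fin i) → Γ) (B : Set Γ)

/-- A circuit: gate number `i` refers only to gates with smaller numbers. Only the gates with
numbers `≤ o` matter, where `o` is given. -/
abbrev Circuit (ι : Type) := (i : ℕ) → Gate ι i

/-- The sets of at most `D` gates all of which are true; `v a` is the value of the gate `a`. -/
noncomputable def trueSets {α : Type} [Fintype α] (D : ℕ) (v : α → Prop) : Finset (Finset α) := by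
  classical exact univ.filter fun S => S.card ≤ D ∧ ∀ a ∈ S, v a

variable {ι : Type}

/-- The value of gate number `i` on the input `x`. The big gates compare the sum of the `w S`, for
all sets `S` of at most `D` gates which are all true, with `θ`, and ask whether the sum of the
`c S` is in `B`, respectively. -/
noncomputable def Circuit.val (C : Circuit ι) (D : ℕ) (x : ι → Prop) (i : ℕ) : Prop :=
  match C i with
  | .input v => x v
  | .not a => ¬ C.val D x a
  | .and S => ∀ a : Fin i, a ∈ S → C.val D x a
  | .or S => ∃ a : Fin i, a ∈ S ∧ C.val D x a
  | .other _ w g => g fun l => C.val D x (w l)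
  | .thr w θ => θ ≤ ∑ S ∈ trueSets D fun a : Fin i => C.val D x a, w S
  | .grp _ _ _ c B => ∑ S ∈ trueSets D fun a : Fin i => C.val D x a, c S ∈ B
termination_by i
decreasing_by all_goals exact Fin.isLt _

/-- The depth of gate number `i`; inputs and big gates have depth `0`, and NOT gates are free. -/
def Circuit.depth (C : Circuit ι) (i : ℕ) : ℕ :=
  match C i with
  | .input _ => 0
  | .not a => C.depth a
  | .and S => (S.sup fun a => C.depth a) + 1
  | .or S => (S.sup fun a => C.depth a) + 1
  | .other _ w _ => (univ.sup fun l => C.depth (w l)) + 1
  | .thr _ _ => 0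
  | .grp _ _ _ _ _ => 0
termination_by i
decreasing_by all_goals exact Fin.isLt _

/-- Is the gate an AND gate, an OR gate or one of the further gates with few wires? -/
def Gate.counts {i : ℕ} : Gate ι i → Bool
  | .and _ => true
  | .or _ => true
  | .other _ _ _ => true
  | _ => false

/-- Is the gate a big gate? -/
def Gate.big {i : ℕ} : Gate ι i → Bool
  | .thr _ _ => true
  | .grp _ _ _ _ _ => true
  | _ => false

/-- Number of input wires, if the gate is one of the further gates. -/
def Gate.wires {i : ℕ} : Gate ι i → ℕ
  | .other r _ _ => r
  | _ => 0

/-- If the gate asks whether a sum is in a set, then this set or its complement has at most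
`2 ^ q` elements. -/
def Gate.Few {i : ℕ} (q : ℕ) : Gate ι i → Prop
  | .grp _ _ _ _ B => B.ncard ≤ 2 ^ q ∨ Bᶜ.ncard ≤ 2 ^ q
  | _ => True

/-- Number of AND gates, OR gates and gates with few wires among the gates with numbers `≤ o`. -/
def Circuit.size (C : Circuit ι) (o : ℕ) : ℕ :=
  ((range (o + 1)).filter fun i => (C i).counts = true).card

/-- Number of big gates among the gates with numbers `≤ o`. -/
def Circuit.nbig (C : Circuit ι) (o : ℕ) : ℕ :=
  ((range (o + 1)).filter fun i => (C i).big = true).card

/-- A test consists of one equation in a finite abelian group `Γ` and of `t` linear inequalities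
with real coefficients. The unknowns are the products of at most `D` of the gates with numbers
`≤ o`, which are indexed by the sets `S` of gates. -/
structure Test (o t : ℕ) where
  Γ : Type
  [group : AddCommGroup Γ]
  [finite : Finite Γ]
  c : Finset (Fin (o + 1)) → Γ
  b : Γ
  w : Fin t → Finset (Fin (o + 1)) → ℝ
  θ : Fin t → ℝ

attribute [instance] Test.group Test.finite

/-- The gates with the values `v` pass the test: the equation and all inequalities are true for the
sums over the sets of at most `D` gates which are all true. -/
def Test.Passes {o t : ℕ} (τ : Test o t) (D : ℕ) (v : Fin (o + 1) → Prop) : Prop :=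
  ∑ S ∈ trueSets D v, τ.c S = τ.b ∧ ∀ j, τ.θ j ≤ ∑ S ∈ trueSets D v, τ.w j S

/-- There is a circuit whose inputs say which vertices are adjacent, and which has `q` further
inputs `z` (guess bits), with at most `s` gates and at most `q` big gates, of depth at most `d`,
with at most `f` wires for each of the further gates, and `A` tests with `t` inequalities each,
such that a graph on `Fin n` has no `k`-clique if and only if for some `z` it passes at least one of
the tests. -/
def HasCert (n k D d f q s t A : ℕ) : Prop :=
  ∃ (C : Circuit ((Fin n × Fin n) ⊕ Fin q)) (o : ℕ) (τ : Fin A → Test o t),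
    C.size o ≤ s ∧ C.nbig o ≤ q ∧
    (∀ i ≤ o, C.depth i ≤ d ∧ (C i).wires ≤ f ∧ (C i).Few q) ∧
    ∀ G : SimpleGraph (Fin n), G.CliqueFree k ↔ ∃ (z : Fin q → Prop) (a : Fin A),
      (τ a).Passes D fun i => C.val D (Sum.elim (fun e => G.Adj e.1 e.2) z) i

end CliqueUni
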