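import Pool.Agent.Lib.CERT.Base
import Pool.Agent.Lib.CERT.Full
import Pool.Agent.Lib.UNI.Defs

/-!
# PROJECT UNI (MP_678664_lc): circuits with guess bits and big gates

Everything about planted instances (`Crd`, `Slot`, `plc`, `inp`, `asg`, `live`, `med`, ..) is in
`Pool/Agent/Lib/CERT/Base.lean`. Here the circuits have further inputs `E`, which have constant
values `ζ`, and some of the planted tuples are exposed: their labels are visible and their states
are `y`.
-/

open Finset

namespace UniCore

open SmallDepth CliqueDepth CliqueCert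

variable {k T N l n : ℕ} {Λ E : Type}

/-- The blocks of the tuples in `A`. -/
def bks (k : ℕ) {T : ℕ} (A : Finset (Fin T)) : Finset (Fin k × Fin T) :=
  univ.filter fun b => b.2 ∈ A

/-- The tuples of `X`. -/
def tps (X : Finset ((Fin k × Fin T) × Option (Fin l))) : Finset (Fin T) :=
  X.image fun e => e.1.2

/-- The assignment `G`, where the planted units of the tuples in `A` have the labels with number
true and the states `y`. -/
def gx (G : Crd k T N l → Bool) (u : Fin k × Fin T → Fin N)
    (y : Fin k → Fin T × Fin l → Bool) (A : Finset (Fin T)) : Crd k T N l → Bool :=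
  fun e => if e.1.1.2 ∈ A ∧ e.1.2 = u e.1.1 then e.2.elim true (fun i => y e.1.1.1 (e.1.1.2, i))
    else G e

/-- The coordinates of the planted units of the tuples which are not in `A`. -/
def Pa (l : ℕ) (u : Fin k × Fin T → Fin N) (A : Finset (Fin T)) : Finset (Crd k T N l) :=
  (Pc l u).filter fun e => e.1.1.2 ∉ A

/-- The data of a planted instance: positions and labels of the planted units, all labels. -/
abbrev Dat (k T N : ℕ) (Λ : Type) :=
  (Fin k × Fin T → Fin N) × (Fin T → Fin k → Λ) × (Slot k T N → Λ)

/-- A circuit and a restriction. -/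
structure Stp (k T N l n : ℕ) (Λ E : Type) where
  C : Circuit ((Fin n × Fin n) ⊕ E)
  φ : Vtx k T N l ↪ Fin n
  R : Fin k → Fin k → Λ → Λ → Prop
  o : ℕ
  W : ℕ
  ρ : Restr (Crd k T N l)

namespace Stp

variable (P : Stp k T N l n Λ E)

/-- The inputs of the circuit, if the units in the blocks `J` are planted. -/
def inps (ζ : E → Prop) (v : Dat k T N Λ) (J : Finset (Fin k × Fin T))
    (x : Crd k T N l → Bool) : (Fin n × Fin n) ⊕ E → Prop :=
  Sum.elim (inp P.φ P.R (plc v.2.2 v.1 v.2.1 J) x) ζ

/-- The base point, if the tuples in `A` are exposed. -/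
def base (y : Fin k → Fin T × Fin l → Bool) (v : Dat k T N Λ) (A : Finset (Fin T)) :
    Crd k T N l → Bool := gx (tr P.ρ) v.1 y A

/-- If the tuples in `A` are exposed, then gate `i` reaches the coordinates `X` of planted
units. -/
def wit (ζ : E → Prop) (y : Fin k → Fin T × Fin l → Bool) (v : Dat k T N Λ) (i : ℕ)
    (A : Finset (Fin T)) (X : Finset ((Fin k × Fin T) × Option (Fin l))) : Prop :=
  Ev P.C (P.inps ζ v (bks k A ∪ bls X)) (2 * P.W * (l + 1)) (P.base y v A) (Qc X v.1) i

/-- All gates have shallow decision trees, if the tuples in `A` are planted. -/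
def good (m d : ℕ) (ζ : E → Prop) (v : Dat k T N Λ) (A : Finset (Fin T)) : Prop :=
  Good P.C (P.inps ζ v (bks k A)) P.o m d P.ρ

/-- The gates which count. -/
def cgt : Finset ℕ := (range (P.o + 1)).filter fun i => (P.C i).counts = true

/-- Number of witnesses which touch exactly the tuples `B`, if the tuples in `A` are exposed. -/
noncomputable def wt (ζ : E → Prop) (y : Fin k → Fin T × Fin l → Bool) (v : Dat k T N Λ)
    (A B : Finset (Fin T)) : ℝ :=
  ∑ i ∈ P.cgt, ∑ X ∈ (med k T l P.W).filter (fun X => tps X = B), ind (P.wit ζ y v i A X)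

/-- Number of witnesses outside of the exposed tuples `A`. -/
noncomputable def wo (ζ : E → Prop) (y : Fin k → Fin T × Fin l → Bool) (v : Dat k T N Λ)
    (A : Finset (Fin T)) : ℝ :=
  ∑ i ∈ P.cgt, ∑ X ∈ (med k T l P.W).filter (fun X => Disjoint (tps X) A),
    ind (P.wit ζ y v i A X)

/-- Number of chains of `a` witnesses, which expose the tuples in `A`. -/
noncomputable def cw (ζ : E → Prop) (y : Fin k → Fin T × Fin l → Bool) (v : Dat k T N Λ) :
    ℕ → Finset (Fin T) → ℝ
  | 0, A => if A = ∅ then 1 else 0
  | a + 1, A => ∑ B ∈ A.powerset, cw ζ y v a (A \ B) * P.wt ζ y v (A \ B) B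

/-- The sum over all data: the planted units are live. -/
noncomputable def sm [Fintype Λ] (F : Dat k T N Λ → ℝ) : ℝ :=
  ∑ u ∈ Fintype.piFinset (live P.ρ), ∑ κ ∈ Kp T P.R, ∑ L : Slot k T N → Λ, F (u, κ, L)

end Stp

/-- The function `w` depends only on the planted units in the tuples `A`, and it does not depend on
the labels with number true of the live units, unless they are planted there. -/
def LocA (ρ : Restr (Crd k T N l)) (A : Finset (Fin T)) (w : Dat k T N Λ → ℝ) : Prop :=
  ∀ v v' : Dat k T N Λ, (∀ b ∈ bks k A, v.1 b = v'.1 b) →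
    (∀ b ∈ bks k A, v.2.1 b.2 b.1 = v'.2.1 b.2 b.1) →
    (∀ e : Slot k T N, (e.2 = true → e.1.2 ∉ live ρ e.1.1) → v.2.2 e = v'.2.2 e) → w v = w v'

/-- The states `y` for the tuples in `A`, and `y'` for the other ones. -/
def glue (y : Fin k → Fin T × Fin l → Bool) (A : Finset (Fin T))
    (y' : Fin k → Fin T × Fin l → Bool) : Fin k → Fin T × Fin l → Bool :=
  fun j c => if c.1 ∈ A then y j c else y' j c

end UniCore
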