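import Pool.Agent.Lib.CERT.Defs

/-!
# Circuits with guesses and with big gates, for the clique problem: definitions
-/

open Finset

namespace CliqueCert

open SmallDepth (Circuit)

/-- A big gate looks at the products of gates of a circuit: it is a threshold of a linear
combination with real coefficients, or it says whether a sum in a finite abelian group `Γ` is an
element of a given set `T`. -/
inductive Big : Type 1
  | thr (w : Finset ℕ → ℝ) (θ : ℝ)
  | grp (Γ : Type) [AddCommGroup Γ] [Finite Γ] (c : Finset ℕ → Γ) (T : Set Γ)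

/-- The big gate is true; `v i` is the value of the gate with number `i`, and the gate looks at the
products of at most `D` of the gates with numbers `≤ o`. -/
def Big.Val (g : Big) (o D : ℕ) (v : ℕ → Prop) : Prop :=
  match g with
  | .thr w θ => θ ≤ ∑ S ∈ trueSets o D v, w S
  | @Big.grp _ _ _ c T => ∑ S ∈ trueSets o D v, c S ∈ T

/-- The number of elements of the group of the big gate. -/
noncomputable def Big.card (g : Big) : ℕ :=
  match g with
  | .thr _ _ => 1
  | @Big.grp Γ _ _ _ _ => Nat.card Γ

/-- The values of the gates of the circuit `C` for the graph `G`, the guess `z` and the outputs `b`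
of the big gates. -/
def bigVal {n q r : ℕ} (C : Circuit ((Fin n × Fin n) ⊕ (Fin q ⊕ Fin r))) (G : SimpleGraph (Fin n))
    (z : Fin q → Bool) (b : Fin r → Bool) : ℕ → Prop :=
  C.val (Sum.elim (fun e => G.Adj e.1 e.2)
    (Sum.elim (fun i => z i = true) fun j => b j = true))

/-- Circuits with `q` guessed bits, `r` big gates and `A` tests. -/
def HasBig (n k d f s D t A q r g : ℕ) : Prop :=
  ∃ (C : Circuit ((Fin n × Fin n) ⊕ (Fin q ⊕ Fin r))) (o : ℕ) (β : Fin r → Big)
    (τ : (Fin q → Bool) → Fin A → Test t),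
    C.size o ≤ s ∧ (∀ i ≤ o, C.depth i ≤ d ∧ (C i).wires ≤ f) ∧ (∀ j, (β j).card ≤ g) ∧
    ∀ G : SimpleGraph (Fin n), G.CliqueFree k ↔ ∃ z b,
      (∀ j, b j = true ↔ (β j).Val o D (bigVal C G z b)) ∧
      ∃ a, (τ z a).Passes o D (bigVal C G z b)

/-- Circuits with at most `q` guessed bits and `A` tests. -/
def HasGuess (n k d f s D t A q : ℕ) : Prop :=
  ∃ (Z : Type) (_ : Fintype Z) (C : Circuit ((Fin n × Fin n) ⊕ Z)) (o : ℕ)
    (τ : (Z → Bool) → Fin A → Test t), Fintype.card Z ≤ q ∧
    C.size o ≤ s ∧ (∀ i ≤ o, C.depth i ≤ d ∧ (C i).wires ≤ f) ∧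
    ∀ G : SimpleGraph (Fin n), G.CliqueFree k ↔ ∃ z a, (τ z a).Passes o D
      (C.val (Sum.elim (fun e => G.Adj e.1 e.2) fun i => z i = true))

end CliqueCert
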