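import Pool.Agent.Lib.UNI.Base

/-!
# PROJECT UNI, row CWS: the number of chains of witnesses
-/

open Finset

namespace UniCore

open SmallDepth CliqueDepth CliqueCert

variable {k T N l n : ℕ} {Λ E : Type}

namespace Cws

lemma ind_nat (p : Prop) : ∃ c : ℕ, ind p = c := by
  by_cases h : p
  · exact ⟨1, by rw [ind_true h]; simp⟩
  · exact ⟨0, by rw [ind_false h]; simp⟩

lemma sum_nat {α : Type*} (s : Finset α) (f : α → ℝ) (h : ∀ a ∈ s, ∃ c : ℕ, f a = c) :
    ∃ c : ℕ, ∑ a ∈ s, f a = c := by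
  classical
  induction s using Finset.induction_on with
  | empty => exact ⟨0, by simp⟩
  | insert a s ha ih =>
    obtain ⟨c, hc⟩ := ih fun b hb => h b (mem_insert_of_mem hb)
    obtain ⟨d, hd⟩ := h a (mem_insert_self _ _)
    exact ⟨d + c, by rw [sum_insert ha, hc, hd]; push_cast; ring⟩

lemma wt_nat (P : Stp k T N l n Λ E) (ζ : E → Prop) (y : Fin k → Fin T × Fin l → Bool)
    (v : Dat k T N Λ) (A B : Finset (Fin T)) : ∃ c : ℕ, P.wt ζ y v A B = c :=
  sum_nat _ _ fun _ _ => sum_nat _ _ fun _ _ => ind_nat _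

lemma cw_nat (P : Stp k T N l n Λ E) (ζ : E → Prop) (y : Fin k → Fin T × Fin l → Bool)
    (v : Dat k T N Λ) (a : ℕ) : ∀ A : Finset (Fin T), ∃ c : ℕ, P.cw ζ y v a A = c := by
  induction a with
  | zero =>
    intro A
    by_cases h : A = ∅
    · exact ⟨1, by simp [Stp.cw, h]⟩
    · exact ⟨0, by simp [Stp.cw, h]⟩
  | succ a ih =>
    intro A
    refine sum_nat _ _ fun B _ => ?_
    obtain ⟨c, hc⟩ := ih (A \ B)
    obtain ⟨d, hd⟩ := wt_nat P ζ y v (A \ B) B
    exact ⟨c * d, by rw [hc, hd]; push_cast; ring⟩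

lemma wt_nonneg (P : Stp k T N l n Λ E) (ζ : E → Prop) (y : Fin k → Fin T × Fin l → Bool)
    (v : Dat k T N Λ) (A B : Finset (Fin T)) : 0 ≤ P.wt ζ y v A B := by
  obtain ⟨c, hc⟩ := wt_nat P ζ y v A B
  rw [hc]
  exact Nat.cast_nonneg c

lemma wo_nonneg (P : Stp k T N l n Λ E) (ζ : E → Prop) (y : Fin k → Fin T × Fin l → Bool)
    (v : Dat k T N Λ) (A : Finset (Fin T)) : 0 ≤ P.wo ζ y v A :=
  sum_nonneg fun _ _ => sum_nonneg fun _ _ => ind_nonneg _

lemma wo_le (P : Stp k T N l n Λ E) (ζ : E → Prop) (y : Fin k → Fin T × Fin l → Bool)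
    (v : Dat k T N Λ) (A : Finset (Fin T)) :
    P.wo ζ y v A ≤ (P.cgt.card : ℝ) * (med k T l P.W).card := by
  have h1 : ∀ i ∈ P.cgt, ∑ X ∈ (med k T l P.W).filter (fun X => Disjoint (tps X) A),
      ind (P.wit ζ y v i A X) ≤ ((med k T l P.W).card : ℝ) := by
    intro i _
    calc ∑ X ∈ (med k T l P.W).filter (fun X => Disjoint (tps X) A), ind (P.wit ζ y v i A X) ≤
        ∑ X ∈ (med k T l P.W).filter (fun X => Disjoint (tps X) A), (1 : ℝ) :=
          sum_le_sum fun _ _ => ind_le_one _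
      _ = (((med k T l P.W).filter (fun X => Disjoint (tps X) A)).card : ℝ) := by simp
      _ ≤ ((med k T l P.W).card : ℝ) := by exact_mod_cast card_filter_le _ _
  calc P.wo ζ y v A ≤ ∑ i ∈ P.cgt, ((med k T l P.W).card : ℝ) := sum_le_sum h1
    _ = _ := by rw [sum_const, nsmul_eq_mul]

lemma wo_eq (P : Stp k T N l n Λ E) (ζ : E → Prop) (y : Fin k → Fin T × Fin l → Bool)
    (v : Dat k T N Λ) (A : Finset (Fin T)) :
    P.wo ζ y v A = ∑ B ∈ univ.filter (fun B => Disjoint B A), P.wt ζ y v A B := by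
  unfold Stp.wo Stp.wt
  symm
  rw [sum_comm]
  refine sum_congr rfl fun i _ => ?_
  have h0 := sum_fiberwise_of_maps_to
    (s := (med k T l P.W).filter fun X => Disjoint (tps X) A)
    (t := univ.filter fun B => Disjoint B A) (g := tps)
    (fun X hX => by
      rw [mem_filter] at hX
      rw [mem_filter]
      exact ⟨mem_univ _, hX.2⟩) (fun X => ind (P.wit ζ y v i A X))
  rw [← h0]
  · refine sum_congr rfl fun B hB => sum_congr ?_ fun _ _ => rfl
    rw [mem_filter] at hB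
    ext X
    simp only [mem_filter]
    constructor
    · rintro ⟨h1, h2⟩
      exact ⟨⟨h1, by rw [h2]; exact hB.2⟩, h2⟩
    · rintro ⟨⟨h1, -⟩, h2⟩
      exact ⟨h1, h2⟩

lemma tps_card (X : Finset ((Fin k × Fin T) × Option (Fin l))) :
    (tps X).card ≤ (bls X).card := by
  have : tps X = (bls X).image Prod.snd := by
    unfold tps bls
    rw [image_image]
    rfl
  rw [this]
  exact card_image_le

lemma wt_eq_zero (P : Stp k T N l n Λ E) (ζ : E → Prop) (y : Fin k → Fin T × Fin l → Bool)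
    (v : Dat k T N Λ) (A B : Finset (Fin T)) (h : 2 * P.W < B.card) : P.wt ζ y v A B = 0 := by
  unfold Stp.wt
  refine sum_eq_zero fun i _ => ?_
  rw [filter_false_of_mem, sum_empty]
  intro X hX h1
  unfold med at hX
  rw [mem_filter] at hX
  have := tps_card X
  rw [h1] at this
  omega

end Cws

open Cws

/-- Row CWS, part 1. -/
theorem cw_nonneg (P : Stp k T N l n Λ E) (ζ : E → Prop) (y : Fin k → Fin T × Fin l → Bool)
    (v : Dat k T N Λ) (a : ℕ) (A : Finset (Fin T)) : 0 ≤ P.cw ζ y v a A := by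
  obtain ⟨c, hc⟩ := cw_nat P ζ y v a A
  rw [hc]
  exact Nat.cast_nonneg c

/-- Row CWS, part 2. -/
theorem cw_zero_or (P : Stp k T N l n Λ E) (ζ : E → Prop) (y : Fin k → Fin T × Fin l → Bool)
    (v : Dat k T N Λ) (a : ℕ) (A : Finset (Fin T)) :
    P.cw ζ y v a A = 0 ∨ 1 ≤ P.cw ζ y v a A := by
  obtain ⟨c, hc⟩ := cw_nat P ζ y v a A
  rcases Nat.eq_zero_or_pos c with h | h
  · left
    rw [hc, h]
    simp
  · right
    rw [hc]
    exact_mod_cast h

/-- Row CWS, part 3: chains of `a` witnesses expose at most `2 W a` tuples. -/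
theorem cw_eq_zero (P : Stp k T N l n Λ E) (ζ : E → Prop) (y : Fin k → Fin T × Fin l → Bool)
    (v : Dat k T N Λ) (a : ℕ) (A : Finset (Fin T)) (h : 2 * P.W * a < A.card) :
    P.cw ζ y v a A = 0 := by
  induction a generalizing A with
  | zero =>
    have : A ≠ ∅ := by
      rintro rfl
      simp at h
    simp [Stp.cw, this]
  | succ a ih =>
    show ∑ B ∈ A.powerset, P.cw ζ y v a (A \ B) * P.wt ζ y v (A \ B) B = 0
    refine sum_eq_zero fun B hB => ?_
    rw [mem_powerset] at hB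
    by_cases h1 : 2 * P.W < B.card
    · rw [wt_eq_zero P ζ y v _ _ h1, mul_zero]
    · rw [ih, zero_mul]
      rw [card_sdiff_of_subset hB]
      have : 2 * P.W * (a + 1) = 2 * P.W * a + 2 * P.W := by ring
      omega

/-- Row CWS, part 5: the last witness. -/
theorem sum_cw_succ (P : Stp k T N l n Λ E) (ζ : E → Prop) (y : Fin k → Fin T × Fin l → Bool)
    (v : Dat k T N Λ) (a : ℕ) :
    ∑ A, P.cw ζ y v (a + 1) A = ∑ A, P.cw ζ y v a A * P.wo ζ y v A := by
  have h1 : ∑ A, P.cw ζ y v a A * P.wo ζ y v A =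
      ∑ A : Finset (Fin T), ∑ B ∈ univ.filter (fun B => Disjoint B A),
        P.cw ζ y v a A * P.wt ζ y v A B := by
    refine sum_congr rfl fun A _ => ?_
    rw [wo_eq, mul_sum]
  rw [h1]
  show ∑ A : Finset (Fin T), ∑ B ∈ A.powerset,
    P.cw ζ y v a (A \ B) * P.wt ζ y v (A \ B) B = _
  rw [sum_sigma', sum_sigma']
  refine sum_bij' (fun x _ => ⟨x.1 \ x.2, x.2⟩) (fun x _ => ⟨x.1 ∪ x.2, x.2⟩) ?_ ?_ ?_ ?_ ?_
  · intro x hx
    simp only [mem_sigma, mem_univ, true_and, mem_filter]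
    exact disjoint_sdiff
  · intro x hx
    simp only [mem_sigma, mem_univ, true_and, mem_powerset]
    exact subset_union_right
  · rintro ⟨A, B⟩ hx
    simp only [mem_sigma, mem_univ, true_and, mem_powerset] at hx
    simp only [Sigma.mk.injEq, heq_eq_eq, and_true]
    exact sdiff_union_of_subset hx
  · rintro ⟨A, B⟩ hx
    simp only [mem_sigma, mem_univ, true_and, mem_filter] at hx
    simp only [Sigma.mk.injEq, heq_eq_eq, and_true]
    rw [union_sdiff_right, sdiff_eq_self_of_disjoint hx.symm]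
  · intro x hx
    rfl

/-- Row CWS, part 4: number of chains. -/
theorem sum_cw_le (P : Stp k T N l n Λ E) (ζ : E → Prop) (y : Fin k → Fin T × Fin l → Bool)
    (v : Dat k T N Λ) (a : ℕ) :
    ∑ A, P.cw ζ y v a A ≤ ((P.cgt.card : ℝ) * (med k T l P.W).card) ^ a := by
  induction a with
  | zero => simp [Stp.cw]
  | succ a ih =>
    rw [sum_cw_succ]
    calc ∑ A, P.cw ζ y v a A * P.wo ζ y v A ≤
        ∑ A, P.cw ζ y v a A * ((P.cgt.card : ℝ) * (med k T l P.W).card) :=
          sum_le_sum fun A _ => mul_le_mul_of_nonneg_left (wo_le P ζ y v A)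
            (cw_nonneg P ζ y v a A)
      _ = (∑ A, P.cw ζ y v a A) * ((P.cgt.card : ℝ) * (med k T l P.W).card) := by
          rw [sum_mul]
      _ ≤ ((P.cgt.card : ℝ) * (med k T l P.W).card) ^ a *
          ((P.cgt.card : ℝ) * (med k T l P.W).card) :=
          mul_le_mul_of_nonneg_right ih (by positivity)
      _ = _ := by rw [pow_succ]

end UniCore
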