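import Pool.Agent.Lib.CERT.Sumu
import Pool.Agent.Lib.UNI.Base

/-! # PROJECT UNI, row GENX: planting whole tuples -/

set_option autoImplicit false

open Finset

namespace UniCore

open SmallDepth CliqueDepth CliqueCert

variable {k T N l n : ℕ} {Λ : Type}

namespace Genx

/-- The exchange of labels of one tuple. -/
private def exch (u : Fin k × Fin T → Fin N) (r : Fin T) (J : Finset (Fin k × Fin T))
    (q : (Slot k T N → Λ) × (Fin k → Λ)) : (Slot k T N → Λ) × (Fin k → Λ) :=
  (plc q.1 u (fun _ => q.2) J, fun j => if (j, r) ∈ J then q.1 (((j, r), u (j, r)), true) else q.2 j)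

private theorem exch_invol (u : Fin k × Fin T → Fin N) (r : Fin T) (J : Finset (Fin k × Fin T))
    (hJ : ∀ b ∈ J, b.2 = r) : Function.Involutive (exch (Λ := Λ) u r J) := by
  rintro ⟨L, κ⟩
  unfold exch
  refine Prod.ext ?_ ?_
  · funext e
    simp only [plc]
    by_cases h : e.2 = true ∧ e.1.1 ∈ J ∧ e.1.2 = u e.1.1
    · have he : e.1.1 = (e.1.1.1, r) := Prod.ext rfl (hJ _ h.2.1)
      rw [if_pos h, if_pos (he ▸ h.2.1)]
      congr 1
      refine Prod.ext (Prod.ext he.symm ?_) h.1.symm
      show u (e.1.1.1, r) = e.1.2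
      rw [← he, h.2.2]
    · rw [if_neg h, if_neg h]
  · funext j
    simp only [plc]
    by_cases h : (j, r) ∈ J
    · simp [h]
    · simp [h]

private theorem one_tuple [Fintype Λ] {R : Fin k → Fin k → Λ → Λ → Prop}
    {r : Fin T} {J : Finset (Fin k × Fin T)} (hJ : ∀ b ∈ J, b.2 = r)
    (u : Fin k × Fin T → Fin N) {F : (Slot k T N → Λ) → ℝ} (hF : ∀ L, 0 ≤ F L) :
    ∑ c ∈ Kc R, ∑ L : Slot k T N → Λ, F (plc L u (fun _ => c) J) ≤
      (Fintype.card Λ : ℝ) ^ k * ∑ L, F L := by
  classical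
  calc ∑ c ∈ Kc R, ∑ L : Slot k T N → Λ, F (plc L u (fun _ => c) J)
      ≤ ∑ c : Fin k → Λ, ∑ L : Slot k T N → Λ, F (plc L u (fun _ => c) J) :=
        sum_le_sum_of_subset_of_nonneg (subset_univ _)
          fun c _ _ => sum_nonneg fun L _ => hF _
    _ = ∑ q : (Slot k T N → Λ) × (Fin k → Λ), F (exch u r J q).1 := by
        rw [Fintype.sum_prod_type, sum_comm]
        rfl
    _ = ∑ q : (Slot k T N → Λ) × (Fin k → Λ), F q.1 :=
        Equiv.sum_comp (exch_invol u r J hJ).toPerm fun q => F q.1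
    _ = (Fintype.card Λ : ℝ) ^ k * ∑ L, F L := by
        rw [Fintype.sum_prod_type, mul_sum]
        refine sum_congr rfl fun L _ => ?_
        simp only
        rw [sum_const, card_univ, Fintype.card_fun, Fintype.card_fin, nsmul_eq_mul]
        push_cast
        rfl

end Genx

/-- Row GENX: planting whole tuples costs a factor `M ^ k / K ≤ β * M` for each. -/
theorem planted_le [Fintype Λ] {R : Fin k → Fin k → Λ → Λ → Prop} (hk : 1 ≤ k)
    (A : Finset (Fin T)) (u : Fin k × Fin T → Fin N) {β : ℝ}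
    (hβ0 : 0 ≤ β) (hβ : (Fintype.card Λ : ℝ) ^ (k - 1) ≤ β * (Kc R).card)
    {F : (Slot k T N → Λ) → ℝ} (hF : ∀ L, 0 ≤ F L) :
    ∑ κ ∈ Kp T R, ∑ L : Slot k T N → Λ, F (plc L u κ (bks k A)) ≤
      (β * Fintype.card Λ) ^ A.card * ((Kp T R).card * ∑ L, F L) := by
  classical
  have hM0 : (0 : ℝ) ≤ Fintype.card Λ := Nat.cast_nonneg _
  have hβM : 0 ≤ β * Fintype.card Λ := mul_nonneg hβ0 hM0
  induction A using Finset.induction_on with
  | empty =>
    have h2 : ∀ (κ : Fin T → Fin k → Λ) (L : Slot k T N → Λ),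
        plc L u κ (bks k (∅ : Finset (Fin T))) = L := by
      intro κ L
      funext e
      unfold plc
      rw [if_neg]
      rintro ⟨-, h, -⟩
      have := (mem_filter.1 h).2
      exact absurd this (notMem_empty _)
    simp only [h2]
    rw [sum_const, nsmul_eq_mul, card_empty, pow_zero, one_mul]
  | insert r S hr ih =>
    set JS := bks k S with hJS
    set Jr : Finset (Fin k × Fin T) := univ.filter fun b => b.2 = r with hJr
    have hun : bks k (insert r S) = Jr ∪ JS := by
      ext b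
      simp only [hJS, hJr, bks, mem_filter, mem_univ, true_and, mem_union, mem_insert]
    have hdis : Disjoint Jr JS := by
      rw [disjoint_left]
      intro b hb hb'
      rw [hJr, mem_filter] at hb
      rw [hJS, bks, mem_filter] at hb'
      exact hr (hb.2 ▸ hb'.2)
    set F' : (Fin T → Fin k → Λ) → (Slot k T N → Λ) → ℝ := fun κ L => F (plc L u κ JS) with hF'
    -- the other tuples
    have hsplit : ∀ (κ : Fin T → Fin k → Λ) (c : Fin k → Λ) (L : Slot k T N → Λ),
        F (plc L u (Function.update κ r c) (bks k (insert r S))) =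
          F' κ (plc L u (fun _ => c) Jr) := by
      intro κ c L
      simp only [hF']
      congr 1
      rw [hun]
      funext e
      unfold plc
      by_cases h1 : e.2 = true ∧ e.1.2 = u e.1.1
      · by_cases h2 : e.1.1 ∈ Jr
        · have h3 : e.1.1 ∉ JS := disjoint_left.1 hdis h2
          have h4 : e.1.1.2 = r := (mem_filter.1 h2).2
          rw [if_pos ⟨h1.1, mem_union_left _ h2, h1.2⟩, if_neg (fun h => h3 h.2.1),
            if_pos ⟨h1.1, h2, h1.2⟩, h4, Function.update_self]
        · by_cases h3 : e.1.1 ∈ JS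
          · have h4 : e.1.1.2 ≠ r := fun h => hr (h ▸ (mem_filter.1 h3).2)
            rw [if_pos ⟨h1.1, mem_union_right _ h3, h1.2⟩, if_pos ⟨h1.1, h3, h1.2⟩,
              Function.update_of_ne h4]
          · rw [if_neg, if_neg (fun h => h3 h.2.1), if_neg (fun h => h2 h.2.1)]
            rintro ⟨-, h, -⟩
            exact (mem_union.1 h).elim h2 h3
      · rw [if_neg (fun h => h1 ⟨h.1, h.2.2⟩), if_neg (fun h => h1 ⟨h.1, h.2.2⟩),
          if_neg (fun h => h1 ⟨h.1, h.2.2⟩)]
    have hcM : (Fintype.card Λ : ℝ) ^ k ≤ ((Kc R).card : ℝ) * (β * Fintype.card Λ) := by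
      have h3 : (Fintype.card Λ : ℝ) ^ k = (Fintype.card Λ : ℝ) ^ (k - 1) * Fintype.card Λ := by
        rw [← pow_succ, Nat.sub_add_cancel hk]
      rw [h3]
      calc (Fintype.card Λ : ℝ) ^ (k - 1) * Fintype.card Λ ≤
            β * (Kc R).card * Fintype.card Λ := mul_le_mul_of_nonneg_right hβ hM0
        _ = _ := by ring
    have hone : ∀ κ : Fin T → Fin k → Λ,
        ∑ c ∈ Kc R, ∑ L : Slot k T N → Λ, F' κ (plc L u (fun _ => c) Jr) ≤
          ((Kc R).card : ℝ) * (β * Fintype.card Λ) * ∑ L, F' κ L := by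
      intro κ
      have hF0 : ∀ L, 0 ≤ F' κ L := fun L => hF _
      have hS0 : 0 ≤ ∑ L, F' κ L := sum_nonneg fun L _ => hF0 L
      exact (Genx.one_tuple (fun b hb => (mem_filter.1 hb).2) u hF0).trans
        (mul_le_mul_of_nonneg_right hcM hS0)
    have hmain : ∑ κ ∈ Kp T R, ∑ L : Slot k T N → Λ,
        F (plc L u κ (bks k (insert r S))) ≤
        (β * Fintype.card Λ) * ∑ κ ∈ Kp T R, ∑ L : Slot k T N → Λ, F (plc L u κ JS) := by
      rcases Nat.eq_zero_or_pos (Kc R).card with h0 | h0
      · have h1 : Kp T R = ∅ := by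
          rw [← card_eq_zero, card_Kp, h0, zero_pow (Nat.pos_iff_ne_zero.1 r.pos)]
        rw [h1, sum_empty, sum_empty, mul_zero]
      · have h1 : (0 : ℝ) < (Kc R).card := by exact_mod_cast h0
        refine le_of_mul_le_mul_left ?_ h1
        rw [sum_update_Kp R r]
        calc ∑ κ ∈ Kp T R, ∑ c ∈ Kc R, ∑ L : Slot k T N → Λ,
              F (plc L u (Function.update κ r c) (bks k (insert r S)))
            = ∑ κ ∈ Kp T R, ∑ c ∈ Kc R, ∑ L : Slot k T N → Λ,
                F' κ (plc L u (fun _ => c) Jr) :=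
              sum_congr rfl fun κ _ => sum_congr rfl fun c _ => sum_congr rfl fun L _ =>
                hsplit κ c L
          _ ≤ ∑ κ ∈ Kp T R, ((Kc R).card : ℝ) * (β * Fintype.card Λ) * ∑ L, F' κ L :=
              sum_le_sum fun κ _ => hone κ
          _ = _ := by rw [← mul_sum, mul_assoc]
    refine hmain.trans ?_
    rw [card_insert_of_notMem hr]
    calc _ ≤ (β * Fintype.card Λ) * ((β * Fintype.card Λ) ^ S.card *
          ((Kp T R).card * ∑ L, F L)) := mul_le_mul_of_nonneg_left ih hβM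
      _ = _ := by ring

end UniCore
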