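import Pool.Agent.Lib.UNI.Base
import Pool.Agent.Lib.CERT.Lab

/-! # PROJECT UNI, row INV: what the witnesses see -/

set_option linter.unusedVariables false

open Finset

namespace UniCore

open SmallDepth CliqueDepth CliqueCert

variable {k T N l n : ℕ} {Λ E : Type}

private theorem mem_bks {A : Finset (Fin T)} {b : Fin k × Fin T} : b ∈ bks k A ↔ b.2 ∈ A := by
  simp [bks]

private theorem mem_bls_of_Qc {X : Finset ((Fin k × Fin T) × Option (Fin l))} {u : Fin k × Fin T → Fin N}
    {e : Crd k T N l} (h : e ∈ Qc X u) : e.1.1 ∈ bls X ∧ e.1.2 = u e.1.1 := by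
  unfold Qc at h
  obtain ⟨e', he', rfl⟩ := mem_image.1 h
  refine ⟨?_, rfl⟩
  unfold bls
  exact mem_image_of_mem _ he'

/-- The base point depends only on the planted units in the exposed tuples. -/
private theorem base_inv (P : Stp k T N l n Λ E) {y y' : Fin k → Fin T × Fin l → Bool}
    {A : Finset (Fin T)} {v v' : Dat k T N Λ} (h1 : ∀ b ∈ bks k A, v.1 b = v'.1 b)
    (hy : ∀ j, ∀ r ∈ A, ∀ c, y j (r, c) = y' j (r, c)) : P.base y v A = P.base y' v' A := by
  unfold Stp.base gx
  funext e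
  by_cases hA : e.1.1.2 ∈ A
  · have h2 := h1 e.1.1 (mem_bks.2 hA)
    rw [h2]
    by_cases hu : e.1.2 = v'.1 e.1.1
    · rw [if_pos ⟨hA, hu⟩, if_pos ⟨hA, hu⟩]
      have h3 : (fun i => y e.1.1.1 (e.1.1.2, i)) = fun i => y' e.1.1.1 (e.1.1.2, i) :=
        funext fun i => hy _ _ hA i
      rw [h3]
    · rw [if_neg (fun h => hu h.2), if_neg (fun h => hu h.2)]
  · rw [if_neg (fun h => hA h.1), if_neg (fun h => hA h.1)]

/-- Row INV, part 1. -/
theorem wit_inv (P : Stp k T N l n Λ E) {ζ : E → Prop} {y : Fin k → Fin T × Fin l → Bool}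
    {i : ℕ} {A : Finset (Fin T)} {X : Finset ((Fin k × Fin T) × Option (Fin l))}
    {v v' : Dat k T N Λ} (h1 : ∀ b ∈ bks k A ∪ bls X, v.1 b = v'.1 b)
    (h2 : ∀ b ∈ bks k A ∪ bls X, v.2.1 b.2 b.1 = v'.2.1 b.2 b.1)
    (h3 : ∀ e : Slot k T N, (e.2 = true → e.1.2 ∉ live P.ρ e.1.1) → v.2.2 e = v'.2.2 e) :
    P.wit ζ y v i A X ↔ P.wit ζ y v' i A X := by
  have hb : P.base y v A = P.base y v' A :=
    base_inv P (fun b hb => h1 b (mem_union_left _ hb)) fun _ _ _ _ => rfl
  have hq : (Qc X v.1 : Finset (Crd k T N l)) = Qc X v'.1 := by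
    unfold Qc
    refine image_congr fun e he => ?_
    have h4 : e.1 ∈ bls X := by
      unfold bls
      exact mem_image_of_mem _ he
    simp only [h1 e.1 (mem_union_right _ h4)]
  unfold Stp.wit
  rw [← hb, ← hq]
  refine ev_congr_a (fun Z _ => ?_) i
  have hlab : labu (plc v.2.2 v.1 v.2.1 (bks k A ∪ bls X)) (fl (P.base y v A) (Qc X v.1) Z) =
      labu (plc v'.2.2 v'.1 v'.2.1 (bks k A ∪ bls X)) (fl (P.base y v A) (Qc X v.1) Z) := by
    funext e
    unfold labu plc
    simp only
    rcases hx : fl (P.base y v A) (Qc X v.1) Z (e, none) with _ | _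
    · rw [if_neg (fun h => absurd h.1 (by simp)), if_neg (fun h => absurd h.1 (by simp))]
      exact h3 _ fun h => absurd h (by simp)
    · by_cases hJ : e.1 ∈ bks k A ∪ bls X
      · by_cases hu : e.2 = v.1 e.1
        · have hu' : e.2 = v'.1 e.1 := by rw [hu, h1 _ hJ]
          rw [if_pos ⟨rfl, hJ, hu⟩, if_pos ⟨rfl, hJ, hu'⟩]
          exact h2 _ hJ
        · have hu' : e.2 ≠ v'.1 e.1 := by rw [← h1 _ hJ]; exact hu
          rw [if_neg (fun h => hu h.2.2), if_neg (fun h => hu' h.2.2)]
          refine h3 _ fun _ hl => ?_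
          have hQ : ((e, none) : Crd k T N l) ∉ Qc X v.1 := fun h => hu (mem_bls_of_Qc h).2
          unfold fl at hx
          rw [if_neg hQ] at hx
          unfold Stp.base gx at hx
          rw [if_neg (fun h => hu h.2)] at hx
          have h5 : P.ρ (e, none) = none := (mem_filter.1 hl).2 none
          unfold tr at hx
          rw [h5] at hx
          simp at hx
      · rw [if_neg (fun h => hJ h.2.1), if_neg (fun h => hJ h.2.1)]
        refine h3 _ fun _ hl => ?_
        have hQ : ((e, none) : Crd k T N l) ∉ Qc X v.1 :=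
          fun h => hJ (mem_union_right _ (mem_bls_of_Qc h).1)
        unfold fl at hx
        rw [if_neg hQ] at hx
        unfold Stp.base gx at hx
        rw [if_neg (fun h => hJ (mem_union_left _ (mem_bks.2 h.1)))] at hx
        have h5 : P.ρ (e, none) = none := (mem_filter.1 hl).2 none
        unfold tr at hx
        rw [h5] at hx
        simp at hx
  have hinp : inp P.φ P.R (plc v.2.2 v.1 v.2.1 (bks k A ∪ bls X))
      (fl (P.base y v A) (Qc X v.1) Z) =
      inp P.φ P.R (plc v'.2.2 v'.1 v'.2.1 (bks k A ∪ bls X))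
        (fl (P.base y v A) (Qc X v.1) Z) := by
    funext e
    unfold inp
    rw [grc_congr_lab P.φ P.R hlab]
  unfold Stp.inps
  rw [hinp]

/-- Row INV, part 2: only the states of the exposed tuples matter. -/
theorem wit_inv_y (P : Stp k T N l n Λ E) {ζ : E → Prop} {y y' : Fin k → Fin T × Fin l → Bool}
    {i : ℕ} {A : Finset (Fin T)} {X : Finset ((Fin k × Fin T) × Option (Fin l))}
    {v : Dat k T N Λ} (h : ∀ j, ∀ r ∈ A, ∀ c, y j (r, c) = y' j (r, c)) :
    P.wit ζ y v i A X ↔ P.wit ζ y' v i A X := by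
  unfold Stp.wit
  rw [base_inv P (v := v) (v' := v) (fun _ _ => rfl) h]

/-- Row INV, part 3 (from part 1, by induction on `a`). -/
theorem cw_loc (P : Stp k T N l n Λ E) (ζ : E → Prop) (y : Fin k → Fin T × Fin l → Bool)
    (a : ℕ) (A : Finset (Fin T)) : LocA P.ρ A fun v => P.cw ζ y v a A := by
  induction a generalizing A with
  | zero =>
    intro v v' _ _ _
    rfl
  | succ a ih =>
    intro v v' h1 h2 h3
    show P.cw ζ y v (a + 1) A = P.cw ζ y v' (a + 1) A
    unfold Stp.cw
    refine sum_congr rfl fun B hB => ?_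
    have hBA : B ⊆ A := mem_powerset.1 hB
    have hsub : ∀ b ∈ bks k (A \ B), b ∈ bks k A := fun b hb =>
      mem_bks.2 (mem_sdiff.1 (mem_bks.1 hb)).1
    have e1 : P.cw ζ y v a (A \ B) = P.cw ζ y v' a (A \ B) :=
      ih (A \ B) v v' (fun b hb => h1 b (hsub b hb)) (fun b hb => h2 b (hsub b hb)) h3
    have e2 : P.wt ζ y v (A \ B) B = P.wt ζ y v' (A \ B) B := by
      unfold Stp.wt
      refine sum_congr rfl fun i _ => sum_congr rfl fun X hX => ?_
      have hXB : tps X = B := (mem_filter.1 hX).2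
      have hJ : ∀ b ∈ bks k (A \ B) ∪ bls X, b ∈ bks k A := by
        intro b hb
        rcases mem_union.1 hb with hb | hb
        · exact hsub b hb
        · rw [mem_bks]
          apply hBA
          rw [← hXB]
          unfold bls at hb
          unfold tps
          obtain ⟨e, he, rfl⟩ := mem_image.1 hb
          exact mem_image_of_mem _ he
      have h4 : P.wit ζ y v i (A \ B) X = P.wit ζ y v' i (A \ B) X :=
        propext (wit_inv P (fun b hb => h1 b (hJ b hb)) (fun b hb => h2 b (hJ b hb)) h3)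
      rw [h4]
    rw [e1, e2]

end UniCore
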