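import Pool.Agent.Lib.UNI.Step
import Pool.Agent.Lib.UNI.Cws
import Pool.Agent.Lib.UNI.Inv
import Pool.Agent.Lib.UNI.Genx
import Pool.Agent.Lib.CERT.Cardx

/-!
# PROJECT UNI, row CHAIN: chains of witnesses are rare
-/

open Finset

namespace UniCore

open SmallDepth CliqueDepth CliqueCert

variable {k T N l n : ℕ} {Λ E : Type}

private theorem sm_mono [Fintype Λ] (P : Stp k T N l n Λ E) {F G : Dat k T N Λ → ℝ}
    (h : ∀ v, F v ≤ G v) : P.sm F ≤ P.sm G := by
  unfold Stp.sm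
  exact sum_le_sum fun u _ => sum_le_sum fun κ _ => sum_le_sum fun L _ => h (u, κ, L)

private theorem sm_mul [Fintype Λ] (P : Stp k T N l n Λ E) (a : ℝ) (F : Dat k T N Λ → ℝ) :
    P.sm (fun v => a * F v) = a * P.sm F := by
  unfold Stp.sm
  simp only [mul_sum]

private theorem sm_sum [Fintype Λ] (P : Stp k T N l n Λ E) {ι : Type} (t : Finset ι)
    (F : ι → Dat k T N Λ → ℝ) : P.sm (fun v => ∑ i ∈ t, F i v) = ∑ i ∈ t, P.sm (F i) := by
  unfold Stp.sm
  symm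
  rw [sum_comm]
  refine sum_congr rfl fun u _ => ?_
  rw [sum_comm]
  refine sum_congr rfl fun κ _ => ?_
  rw [sum_comm]

private theorem sm_one [Fintype Λ] (P : Stp k T N l n Λ E) :
    P.sm (fun _ => 1) = ((Fintype.piFinset (live P.ρ)).card : ℝ) *
      ((Kp T P.R).card * Fintype.card (Slot k T N → Λ)) := by
  unfold Stp.sm
  simp [sum_const, nsmul_eq_mul]

/-- The bad event, if the tuples in `A` are exposed. -/
private theorem sm_bad [Fintype Λ] (P : Stp k T N l n Λ E) {m d : ℕ} (hk : 1 ≤ k) {β : ℝ}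
    (hβ0 : 0 ≤ β) (hβ : (Fintype.card Λ : ℝ) ^ (k - 1) ≤ β * (Kc P.R).card) (ζ : E → Prop)
    {ε : ℝ}
    (hg : ∑ L : Slot k T N → Λ, ind (¬ Good P.C (fun x => Sum.elim (inp P.φ P.R L x) ζ) P.o m d
      P.ρ) ≤ ε * Fintype.card (Slot k T N → Λ)) (A : Finset (Fin T)) :
    P.sm (fun v => ind (¬ P.good m d ζ v A)) ≤
      (β * Fintype.card Λ) ^ A.card * ε * P.sm (fun _ => 1) := by
  have h1 : ∀ u ∈ Fintype.piFinset (live P.ρ),
      ∑ κ ∈ Kp T P.R, ∑ L : Slot k T N → Λ, ind (¬ P.good m d ζ (u, κ, L) A) ≤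
        (β * Fintype.card Λ) ^ A.card * ((Kp T P.R).card *
          (ε * Fintype.card (Slot k T N → Λ))) := by
    intro u _
    have h2 := planted_le (R := P.R) hk A u hβ0 hβ (F := fun L => ind (¬ Good P.C
      (fun x => Sum.elim (inp P.φ P.R L x) ζ) P.o m d P.ρ)) (fun L => ind_nonneg _)
    refine le_trans ?_ (h2.trans ?_)
    · exact le_of_eq rfl
    · gcongr
  calc P.sm (fun v => ind (¬ P.good m d ζ v A))
      ≤ ∑ u ∈ Fintype.piFinset (live P.ρ), (β * Fintype.card Λ) ^ A.card * ((Kp T P.R).card *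
          (ε * Fintype.card (Slot k T N → Λ))) := sum_le_sum h1
    _ = (β * Fintype.card Λ) ^ A.card * ε * P.sm (fun _ => 1) := by
        rw [sum_const, nsmul_eq_mul, sm_one]
        ring

/-- Row CHAIN (from STEP, CWS, INV, GENX; induction on `S`). -/
theorem chain [Fintype Λ] (P : Stp k T N l n Λ E) {m d f N₁ : ℕ}
    (hC : ∀ i ≤ P.o, P.C.depth i ≤ d ∧ (P.C i).wires ≤ f) (hW : 1 ≤ P.W) (hWk : 2 * P.W < k)
    (hR : Uniq P.R) (hN₁ : 0 < N₁) (hN : ∀ b, N₁ ≤ (live P.ρ b).card) {β : ℝ} (hβ1 : 1 ≤ β)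
    (hM : 1 ≤ Fintype.card Λ)
    (hβ : (Fintype.card Λ : ℝ) ^ (k - 1) ≤ β * (Kc P.R).card) (ζ : E → Prop)
    (y : Fin k → Fin T × Fin l → Bool) {s : ℝ} (hs1 : 1 ≤ s) (hs : (P.cgt.card : ℝ) ≤ s)
    {ε : ℝ} (hε : 0 ≤ ε)
    (hg : ∑ L : Slot k T N → Λ, ind (¬ Good P.C (fun x => Sum.elim (inp P.φ P.R L x) ζ) P.o m d
      P.ρ) ≤ ε * Fintype.card (Slot k T N → Λ))
    (hp : s * β ^ (2 * P.W) *
      ((evB (2 * P.W * (l + 1)) m f : ℝ) / (N₁ : ℝ) ^ (P.W + 1)) ≤ 1) (S : ℕ) :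
    ∑ A, P.sm (fun v => P.cw ζ y v S A) ≤
      ((s * β ^ (2 * P.W) * ((evB (2 * P.W * (l + 1)) m f : ℝ) / (N₁ : ℝ) ^ (P.W + 1))) ^ S +
        S * (s * β ^ (2 * P.W) * ((med k T l P.W).card + 1) *
          ((s * ((med k T l P.W).card + 1)) ^ S * (T + 1) ^ (2 * P.W * S) *
            (β * Fintype.card Λ) ^ (2 * P.W * S) * ε))) * P.sm (fun _ => 1) := by
  obtain ⟨e, he⟩ : ∃ e : ℝ, e = (evB (2 * P.W * (l + 1)) m f : ℝ) / (N₁ : ℝ) ^ (P.W + 1) :=
    ⟨_, rfl⟩
  obtain ⟨g, hgd⟩ : ∃ g : ℝ, g = ((med k T l P.W).card : ℝ) := ⟨_, rfl⟩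
  obtain ⟨b, hb⟩ : ∃ b : ℝ, b = β * Fintype.card Λ := ⟨_, rfl⟩
  obtain ⟨U, hU⟩ : ∃ U : ℝ, U = P.sm (fun _ => 1) := ⟨_, rfl⟩
  have he0 : 0 ≤ e := by rw [he]; positivity
  have hg0 : 0 ≤ g := by rw [hgd]; positivity
  have hM' : (1 : ℝ) ≤ Fintype.card Λ := by exact_mod_cast hM
  have hb1 : 1 ≤ b := by rw [hb]; nlinarith
  have hU0 : 0 ≤ U := by rw [hU, sm_one]; positivity
  have hβ0 : 0 ≤ β := by linarith
  have hcg : 0 ≤ (P.cgt.card : ℝ) := Nat.cast_nonneg _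
  have hT1 : (1 : ℝ) ≤ T + 1 := by
    have : (0 : ℝ) ≤ T := Nat.cast_nonneg _
    linarith
  rw [← he] at hp ⊢
  rw [← hgd, ← hb, ← hU]
  -- the error for chains of length `S`
  have hD : ∀ S : ℕ, ∑ A, P.sm (fun v => P.cw ζ y v S A * ind (¬ P.good m d ζ v A)) ≤
      (s * (g + 1)) ^ S * (T + 1) ^ (2 * P.W * S) * b ^ (2 * P.W * S) * ε * U := by
    intro S
    have h1 : ∀ A : Finset (Fin T), P.sm (fun v => P.cw ζ y v S A * ind (¬ P.good m d ζ v A)) ≤
        if A.card ≤ 2 * P.W * S then (s * (g + 1)) ^ S * (b ^ (2 * P.W * S) * ε * U) else 0 := by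
      intro A
      by_cases hA : A.card ≤ 2 * P.W * S
      · rw [if_pos hA]
        have h2 : ∀ v, P.cw ζ y v S A * ind (¬ P.good m d ζ v A) ≤
            (s * (g + 1)) ^ S * ind (¬ P.good m d ζ v A) := by
          intro v
          refine mul_le_mul_of_nonneg_right ?_ (ind_nonneg _)
          have h3 : P.cw ζ y v S A ≤ ∑ A, P.cw ζ y v S A :=
            single_le_sum (fun A _ => cw_nonneg P ζ y v S A) (mem_univ A)
          refine h3.trans ((sum_cw_le P ζ y v S).trans ?_)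
          rw [← hgd]
          refine pow_le_pow_left₀ (by positivity) ?_ S
          refine mul_le_mul hs (by linarith) hg0 (by linarith)
        refine (sm_mono P h2).trans ?_
        rw [sm_mul]
        refine mul_le_mul_of_nonneg_left ?_ (by positivity)
        refine (sm_bad P (by omega) hβ0 hβ ζ hg A).trans ?_
        rw [← hb, ← hU]
        refine mul_le_mul_of_nonneg_right ?_ hU0
        exact mul_le_mul_of_nonneg_right (pow_le_pow_right₀ hb1 hA) hε
      · rw [if_neg hA]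
        have h2 : ∀ v, P.cw ζ y v S A * ind (¬ P.good m d ζ v A) ≤ 0 * 1 := by
          intro v
          rw [cw_eq_zero P ζ y v S A (by omega), zero_mul, zero_mul]
        refine (sm_mono P h2).trans ?_
        rw [sm_mul, zero_mul]
    refine (sum_le_sum fun A _ => h1 A).trans ?_
    rw [← sum_filter, sum_const, nsmul_eq_mul]
    have h4 := card_small (Fin T) (2 * P.W * S)
    rw [Fintype.card_fin] at h4
    have h5 : ((univ.filter fun J : Finset (Fin T) => J.card ≤ 2 * P.W * S).card : ℝ) ≤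
        ((T : ℝ) + 1) ^ (2 * P.W * S) := by exact_mod_cast h4
    calc _ ≤ ((T : ℝ) + 1) ^ (2 * P.W * S) *
          ((s * (g + 1)) ^ S * (b ^ (2 * P.W * S) * ε * U)) :=
          mul_le_mul_of_nonneg_right h5 (by positivity)
      _ = _ := by ring
  induction S with
  | zero =>
    have h1 : ∀ v : Dat k T N Λ, ∑ A, P.cw ζ y v 0 A = 1 := by
      intro v
      simp [Stp.cw]
    rw [← sm_sum]
    simp only [h1]
    rw [← hU]
    simp
  | succ S ih =>
    obtain ⟨Q, hQ⟩ : ∃ Q : ℝ, Q = (s * (g + 1)) ^ S * (T + 1) ^ (2 * P.W * S) *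
      b ^ (2 * P.W * S) * ε := ⟨_, rfl⟩
    obtain ⟨Q', hQ'⟩ : ∃ Q' : ℝ, Q' = (s * (g + 1)) ^ (S + 1) * (T + 1) ^ (2 * P.W * (S + 1)) *
      b ^ (2 * P.W * (S + 1)) * ε := ⟨_, rfl⟩
    have hQ0 : 0 ≤ Q := by rw [hQ]; positivity
    have hQQ : Q ≤ Q' := by
      have h1 : (s * (g + 1)) ^ S ≤ (s * (g + 1)) ^ (S + 1) :=
        pow_le_pow_right₀ (by nlinarith) (Nat.le_succ S)
      have h2 : ((T : ℝ) + 1) ^ (2 * P.W * S) ≤ (T + 1) ^ (2 * P.W * (S + 1)) :=
        pow_le_pow_right₀ hT1 (Nat.mul_le_mul_left _ (Nat.le_succ S))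
      have h3 : b ^ (2 * P.W * S) ≤ b ^ (2 * P.W * (S + 1)) :=
        pow_le_pow_right₀ hb1 (Nat.mul_le_mul_left _ (Nat.le_succ S))
      rw [hQ, hQ']
      gcongr
    rw [← hQ] at ih
    rw [← hQ']
    have h1 : ∑ A, P.sm (fun v => P.cw ζ y v (S + 1) A) =
        ∑ A, P.sm (fun v => P.cw ζ y v S A * P.wo ζ y v A) := by
      rw [← sm_sum, ← sm_sum]
      congr 1
      funext v
      exact sum_cw_succ P ζ y v S
    have h2 : ∀ A, P.sm (fun v => P.cw ζ y v S A * P.wo ζ y v A) ≤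
        s * β ^ (2 * P.W) * e * P.sm (fun v => P.cw ζ y v S A) +
          s * β ^ (2 * P.W) * g *
            P.sm (fun v => P.cw ζ y v S A * ind (¬ P.good m d ζ v A)) := by
      intro A
      have h3 := step P (m := m) hC hW hWk hR hN₁ hN hβ1 hβ ζ y A (w := fun v => P.cw ζ y v S A)
        (fun v => cw_nonneg P ζ y v S A) (cw_loc P ζ y S A)
      rw [← he, ← hgd] at h3
      refine h3.trans ?_
      have h4 : 0 ≤ P.sm (fun v => P.cw ζ y v S A) := by
        have h5 := sm_mono P (F := fun _ => 0 * 1) (G := fun v => P.cw ζ y v S A)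
          (fun v => by rw [zero_mul]; exact cw_nonneg P ζ y v S A)
        rwa [sm_mul, zero_mul] at h5
      have h6 : 0 ≤ P.sm (fun v => P.cw ζ y v S A * ind (¬ P.good m d ζ v A)) := by
        have h5 := sm_mono P (F := fun _ => 0 * 1)
          (G := fun v => P.cw ζ y v S A * ind (¬ P.good m d ζ v A))
          (fun v => by
            rw [zero_mul]
            exact mul_nonneg (cw_nonneg P ζ y v S A) (ind_nonneg _))
        rwa [sm_mul, zero_mul] at h5
      gcongr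
    rw [h1]
    have h7 : ∑ A, P.sm (fun v => P.cw ζ y v S A * P.wo ζ y v A) ≤
        s * β ^ (2 * P.W) * e * ∑ A, P.sm (fun v => P.cw ζ y v S A) +
          s * β ^ (2 * P.W) * g *
            ∑ A, P.sm (fun v => P.cw ζ y v S A * ind (¬ P.good m d ζ v A)) := by
      rw [mul_sum, mul_sum, ← sum_add_distrib]
      exact sum_le_sum fun A _ => h2 A
    refine h7.trans ?_
    have h8 := hD S
    rw [← hQ] at h8
    obtain ⟨p, hpd⟩ : ∃ p : ℝ, p = s * β ^ (2 * P.W) * e := ⟨_, rfl⟩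
    obtain ⟨r, hrd⟩ : ∃ r : ℝ, r = s * β ^ (2 * P.W) := ⟨_, rfl⟩
    have hr0 : 0 ≤ r := by rw [hrd]; positivity
    have hp0 : 0 ≤ p := by rw [hpd]; positivity
    rw [← hpd] at hp ih ⊢
    rw [← hrd] at ih ⊢
    have h9 : r * g * Q ≤ r * (g + 1) * Q' := by
      refine mul_le_mul (mul_le_mul_of_nonneg_left (by linarith) hr0) hQQ hQ0 (by positivity)
    have h10 : r * (g + 1) * Q ≤ r * (g + 1) * Q' :=
      mul_le_mul_of_nonneg_left hQQ (by positivity)
    have h11 : 0 ≤ r * (g + 1) * Q := by positivity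
    calc p * ∑ A, P.sm (fun v => P.cw ζ y v S A) +
          r * g * ∑ A, P.sm (fun v => P.cw ζ y v S A * ind (¬ P.good m d ζ v A))
        ≤ p * ((p ^ S + S * (r * (g + 1) * Q)) * U) + r * g * (Q * U) := by gcongr
      _ = (p ^ (S + 1) + p * (S * (r * (g + 1) * Q)) + r * g * Q) * U := by ring
      _ ≤ (p ^ (S + 1) + 1 * (S * (r * (g + 1) * Q')) + r * (g + 1) * Q') * U := by gcongr
      _ = (p ^ (S + 1) + ((S + 1 : ℕ) : ℝ) * (r * (g + 1) * Q')) * U := by
          push_cast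
          ring

end UniCore
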