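import Pool.Agent.Lib.UNI.Base

/-! # PROJECT UNI, row RED -/

open Finset

namespace CliqueUni

open CliqueCert (DepOn gip)
open SmallDepth (ind)

variable {ι κ : Type}

/-- The test of a big gate. -/
def Gate.test {i : ℕ} (g : Gate ι i) (D : ℕ) (v : ℕ → Prop) : Prop :=
  match g with
  | .thr w θ => θ ≤ ∑ S ∈ trueSets D fun a : Fin i => v a, w S
  | .grp _ _ _ c B => ∑ S ∈ trueSets D fun a : Fin i => v a, c S ∈ B
  | _ => True

/-- The circuit without big gates: big gate number `i` is replaced by the input `inr (inr i)`. -/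
def low (C : Circuit (ι ⊕ κ)) : SmallDepth.Circuit (ι ⊕ (κ ⊕ ℕ)) := fun i =>
  match C i with
  | .input v => .input (v.elim Sum.inl fun b => Sum.inr (Sum.inl b))
  | .not a => .not a
  | .and S => .and S
  | .or S => .or S
  | .other r w g => .other r w g
  | .thr _ _ => .input (Sum.inr (Sum.inr i))
  | .grp _ _ _ _ _ => .input (Sum.inr (Sum.inr i))

theorem low_val_eq (C : SmallDepth.Circuit ι) (x : ι → Prop) (i : ℕ) : C.val x i = match C i with
    | .input v => x v
    | .not a => ¬ C.val x a
    | .and S => ∀ a : Fin i, a ∈ S → C.val x a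
    | .or S => ∃ a : Fin i, a ∈ S ∧ C.val x a
    | .other _ w g => g fun l => C.val x (w l) := by
  rw [SmallDepth.Circuit.val]
  cases C i <;> rfl

theorem low_depth_eq (C : SmallDepth.Circuit ι) (i : ℕ) : C.depth i = match C i with
    | .input _ => 0
    | .not a => C.depth a
    | .and S => (S.sup fun a => C.depth a) + 1
    | .or S => (S.sup fun a => C.depth a) + 1
    | .other _ w _ => (univ.sup fun l => C.depth (w l)) + 1 := by
  rw [SmallDepth.Circuit.depth]
  cases C i <;> rfl

theorem uni_val_eq (C : Circuit ι) (D : ℕ) (x : ι → Prop) (i : ℕ) : C.val D x i = match C i with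
    | .input v => x v
    | .not a => ¬ C.val D x a
    | .and S => ∀ a : Fin i, a ∈ S → C.val D x a
    | .or S => ∃ a : Fin i, a ∈ S ∧ C.val D x a
    | .other _ w g => g fun l => C.val D x (w l)
    | .thr w θ => θ ≤ ∑ S ∈ trueSets D fun a : Fin i => C.val D x a, w S
    | .grp _ _ _ c B => ∑ S ∈ trueSets D fun a : Fin i => C.val D x a, c S ∈ B := by
  rw [Circuit.val]
  cases C i <;> rfl

theorem uni_depth_eq (C : Circuit ι) (i : ℕ) : C.depth i = match C i with
    | .input _ => 0
    | .not a => C.depth a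
    | .and S => (S.sup fun a => C.depth a) + 1
    | .or S => (S.sup fun a => C.depth a) + 1
    | .other _ w _ => (univ.sup fun l => C.depth (w l)) + 1
    | .thr _ _ => 0
    | .grp _ _ _ _ _ => 0 := by
  rw [Circuit.depth]
  cases C i <;> rfl

/-- Row RED, part 1: if the guesses `V` are right. -/
theorem val_low (C : Circuit (ι ⊕ κ)) (D o : ℕ) (x : ι → Prop) (z : κ → Prop) (V : ℕ → Prop)
    (hV : ∀ i ≤ o, (C i).big = true → (V i ↔ C.val D (Sum.elim x z) i)) :
    ∀ i ≤ o, (low C).val (Sum.elim x (Sum.elim z V)) i ↔ C.val D (Sum.elim x z) i := by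
  intro i
  induction i using Nat.strong_induction_on with
  | _ i ih =>
  intro hi
  have hV' := hV i hi
  rw [low_val_eq]
  rcases hg : C i with v | b | S | S | ⟨r, w, g⟩ | ⟨w, θ⟩ | ⟨Γ, hΓ, hf, c, B⟩
  · have h1 : low C i = .input (v.elim Sum.inl fun b => Sum.inr (Sum.inl b)) := by
      unfold low; rw [hg]
    rw [h1, uni_val_eq, hg]
    rcases v with v | v <;> rfl
  · have h1 : low C i = .not b := by
      unfold low; rw [hg]
    rw [h1, uni_val_eq, hg]
    exact not_congr (ih b b.isLt (by have := b.isLt; omega))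
  · have h1 : low C i = .and S := by
      unfold low; rw [hg]
    rw [h1, uni_val_eq, hg]
    exact forall_congr' fun a => imp_congr_right fun _ => ih a a.isLt (by have := a.isLt; omega)
  · have h1 : low C i = .or S := by
      unfold low; rw [hg]
    rw [h1, uni_val_eq, hg]
    exact exists_congr fun a => and_congr_right fun _ => ih a a.isLt (by have := a.isLt; omega)
  · have h1 : low C i = .other r w g := by
      unfold low; rw [hg]
    rw [h1, uni_val_eq, hg]
    have h2 : (fun l => (low C).val (Sum.elim x (Sum.elim z V)) (w l)) =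
        fun l => C.val D (Sum.elim x z) (w l) := by
      funext l
      exact propext (ih (w l) (w l).isLt (by have := (w l).isLt; omega))
    simp only [h2]
  · have h1 : low C i = .input (Sum.inr (Sum.inr i)) := by
      unfold low; rw [hg]
    rw [h1]
    exact hV' (by rw [hg]; rfl)
  · have h1 : low C i = .input (Sum.inr (Sum.inr i)) := by
      unfold low; rw [hg]
    rw [h1]
    exact hV' (by rw [hg]; rfl)

theorem test_congr {i : ℕ} (g : Gate ι i) (D : ℕ) {v v' : ℕ → Prop} (h : ∀ j < i, v j ↔ v' j) :
    g.test D v ↔ g.test D v' := by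
  have h1 : (fun a : Fin i => v a) = fun a : Fin i => v' a := by
    funext a
    exact propext (h a a.isLt)
  rcases g with v | b | S | S | ⟨r, w, g⟩ | ⟨w, θ⟩ | ⟨Γ, hΓ, hf, c, B⟩ <;>
    simp only [Gate.test, h1]

theorem test_val (C : Circuit ι) (D : ℕ) (x : ι → Prop) (i : ℕ) (hi : (C i).big = true) :
    C.val D x i ↔ (C i).test D fun j => C.val D x j := by
  rw [uni_val_eq]
  rcases hg : C i with v | b | S | S | ⟨r, w, g⟩ | ⟨w, θ⟩ | ⟨Γ, hΓ, hf, c, B⟩
  all_goals
    rw [hg] at hi
    first
    | exact absurd hi Bool.false_ne_true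
    | exact Iff.rfl

/-- Row RED, part 2: the guesses are right if they pass the tests of the big gates. -/
theorem guess_right (C : Circuit (ι ⊕ κ)) (D o : ℕ) (x : ι → Prop) (z : κ → Prop) (V : ℕ → Prop) :
    (∀ i ≤ o, (C i).big = true → (V i ↔ C.val D (Sum.elim x z) i)) ↔
      ∀ i ≤ o, (C i).big = true →
        (V i ↔ (C i).test D fun j => (low C).val (Sum.elim x (Sum.elim z V)) j) := by
  constructor
  · intro hV i hi hb
    rw [hV i hi hb, test_val C D _ i hb]
    exact test_congr _ _ fun j hj => (val_low C D o x z V hV j (by omega)).symm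
  · intro h i
    induction i using Nat.strong_induction_on with
    | _ i ih =>
    intro hi hb
    have h1 : ∀ j ≤ i - 1, j < i → ((low C).val (Sum.elim x (Sum.elim z V)) j ↔
        C.val D (Sum.elim x z) j) := by
      intro j hj hj'
      exact val_low C D (i - 1) x z V (fun j' hj' hb' => ih j' (by omega) (by omega) hb') j hj
    rw [h i hi hb, test_val C D _ i hb]
    exact test_congr _ _ fun j hj => h1 j (by omega) hj

/-- Row RED, part 3. -/
theorem size_low (C : Circuit (ι ⊕ κ)) (o : ℕ) : (low C).size o = C.size o := by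
  unfold SmallDepth.Circuit.size Circuit.size
  congr 1
  refine filter_congr fun i _ => ?_
  unfold low
  rcases hg : C i with v | b | S | S | ⟨r, w, g⟩ | ⟨w, θ⟩ | ⟨Γ, hΓ, hf, c, B⟩ <;>
    simp [SmallDepth.Gate.counts, Gate.counts]

/-- Row RED, part 4. -/
theorem depth_low (C : Circuit (ι ⊕ κ)) (i : ℕ) : (low C).depth i = C.depth i := by
  induction i using Nat.strong_induction_on with
  | _ i ih =>
  rw [low_depth_eq, uni_depth_eq]
  rcases hg : C i with v | b | S | S | ⟨r, w, g⟩ | ⟨w, θ⟩ | ⟨Γ, hΓ, hf, c, B⟩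
  · have h1 : low C i = .input (v.elim Sum.inl fun b => Sum.inr (Sum.inl b)) := by
      unfold low; rw [hg]
    rw [h1]
  · have h1 : low C i = .not b := by
      unfold low; rw [hg]
    rw [h1]
    exact ih b b.isLt
  · have h1 : low C i = .and S := by
      unfold low; rw [hg]
    rw [h1]
    exact congrArg (· + 1) (sup_congr rfl fun a _ => ih a a.isLt)
  · have h1 : low C i = .or S := by
      unfold low; rw [hg]
    rw [h1]
    exact congrArg (· + 1) (sup_congr rfl fun a _ => ih a a.isLt)
  · have h1 : low C i = .other r w g := by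
      unfold low; rw [hg]
    rw [h1]
    exact congrArg (· + 1) (sup_congr rfl fun l _ => ih (w l) (w l).isLt)
  · have h1 : low C i = .input (Sum.inr (Sum.inr i)) := by
      unfold low; rw [hg]
    rw [h1]
  · have h1 : low C i = .input (Sum.inr (Sum.inr i)) := by
      unfold low; rw [hg]
    rw [h1]

/-- Row RED, part 5. -/
theorem wires_low (C : Circuit (ι ⊕ κ)) (i : ℕ) : (low C i).wires = (C i).wires := by
  unfold low
  rcases hg : C i with v | b | S | S | ⟨r, w, g⟩ | ⟨w, θ⟩ | ⟨Γ, hΓ, hf, c, B⟩ <;> rfl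

end CliqueUni
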