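import Pool.Agent.Lib.UNI.Cylb
import Pool.Agent.Lib.UNI.Red
import Pool.Agent.Lib.CERT.Basis

/-! # PROJECT UNI, row CYLA -/

open Finset

namespace CliqueUni

open CliqueCert (DepOn Cyl gsum indC Misses)
open SmallDepth (ind)

variable {ι κ : Type}

theorem sum_trueSets {α : Type} [Fintype α] {M : Type} [AddCommMonoid M] (D : ℕ)
    (v : α → Prop) (w : Finset α → M) : ∑ S ∈ trueSets D v, w S =
      gsum ((univ : Finset (Finset α)).filter fun S => S.card ≤ D) (fun S => ∀ a ∈ S, v a) w := by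
  classical
  unfold trueSets gsum
  rw [filter_filter]
  congr!

theorem depOn_union {k T l : ℕ} {α : Type} (S : Finset α)
    (P : α → (Fin k → Fin T × Fin l → Bool) → Prop) {W : ℕ} (h : ∀ a ∈ S, ∃ B : Finset (Fin k × Fin T), B.card ≤ W ∧ DepOn B (P a)) :
    ∃ B : Finset (Fin k × Fin T), B.card ≤ S.card * W ∧ DepOn B fun y => ∀ a ∈ S, P a y := by
  classical
  choose! B hB hP using h
  refine ⟨S.biUnion B, card_biUnion_le_card_mul _ _ _ hB, fun y z hyz => ?_⟩
  exact forall₂_congr fun a ha => hP a ha y z fun b hb => hyz b (mem_biUnion.2 ⟨a, ha, hb⟩)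

theorem exists_dep {k T l D W : ℕ} (hD : D * W < k) {α : Type} [Fintype α]
    (P : α → (Fin k → Fin T × Fin l → Bool) → Prop)
    (h : ∀ a, ∃ B : Finset (Fin k × Fin T), B.card ≤ W ∧ DepOn B (P a)) :
    ∀ S ∈ (univ : Finset (Finset α)).filter fun S => S.card ≤ D,
      ∃ B : Finset (Fin k × Fin T), B.card < k ∧ DepOn B fun y => ∀ a ∈ S, P a y := by
  intro S hS
  obtain ⟨B, hB, hB'⟩ := depOn_union S P fun a _ => h a
  refine ⟨B, ?_, hB'⟩
  calc B.card ≤ S.card * W := hB
    _ ≤ D * W := Nat.mul_le_mul_right _ (mem_filter.1 hS).2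
    _ < k := hD

/-- A product of conditions, each of which costs a factor `Fac`. -/
theorem cyl_list {k : ℕ} {I : Type} [Fintype I] [DecidableEq I] {Fac : ℝ} (hF : 1 ≤ Fac)
    {σ : Type} (s : Finset σ) (Q : σ → (Fin k → I → Bool) → Prop)
    (h : ∀ i ∈ s, ∀ (F : (Fin k → I → Bool) → ℂ) (B : ℝ), 0 ≤ B → Cyl F B →
      Cyl (fun y => F y * indC (Q i y)) (Fac * B))
    {F : (Fin k → I → Bool) → ℂ} {B : ℝ} (hB : 0 ≤ B) (hF' : Cyl F B) :
    Cyl (fun y => F y * indC (∀ i ∈ s, Q i y)) (Fac ^ s.card * B) := by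
  classical
  induction s using Finset.induction_on with
  | empty =>
    simpa [CliqueCert.tl_indC_eq] using hF'
  | insert a s ha ih =>
    have h1 := ih fun i hi => h i (mem_insert_of_mem hi)
    have h2 := h a (mem_insert_self _ _) _ _ (by positivity) h1
    rw [card_insert_of_notMem ha, pow_succ', mul_assoc]
    have h3 : (fun y => F y * indC (∀ i ∈ insert a s, Q i y)) =
        fun y => F y * indC (∀ i ∈ s, Q i y) * indC (Q a y) := by
      funext y
      rw [mul_assoc, ← CliqueCert.tl_indC_and]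
      congr 1
      refine CliqueCert.tl_indC_congr ?_
      rw [forall_mem_insert]
      exact and_comm
    rw [h3]
    exact h2

/-- Row CYLA (assembly, from CYLB, `Cyl.eqn`, `Cyl.ineq_real`, `DepOn.misses`; see CERT/Pass.lean):
the big gates and a test, for one guess `V`. -/
theorem cyl_acc {k T l o D t W q : ℕ} (hD : D * W < k) (C : Circuit ι)
    (hq : C.nbig o ≤ q) (hfew : ∀ i ≤ o, (C i).Few q) (V : ℕ → Prop) (τ : Test o t)
    {B₀ : ℝ} (hB₀ : 0 ≤ B₀) (h1 : Cyl (fun _ : Fin k → Fin T × Fin l → Bool => 1) B₀)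
    (vals : (Fin k → Fin T × Fin l → Bool) → ℕ → Prop)
    (hv : ∀ i ≤ o, ∃ B : Finset (Fin k × Fin T), B.card ≤ W ∧ DepOn B fun y => vals y i) :
    Cyl (fun y => indC ((∀ i ≤ o, (C i).big = true → (V i ↔ (C i).test D (vals y))) ∧
      τ.Passes D fun i => vals y i))
      ((16 * ((((k * T + 1) ^ k * 2 ^ (l * k) : ℕ) : ℝ) + 4) ^ 2 * 2 ^ q) ^ (t + q) * B₀) := by
  classical
  obtain ⟨M, hM⟩ : ∃ M : ℝ, M = (((k * T + 1) ^ k * 2 ^ (l * k) : ℕ) : ℝ) := ⟨_, rfl⟩
  rw [← hM]
  have hM0 : 0 ≤ M := by rw [hM]; positivity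
  have h2q : (1 : ℝ) ≤ 2 ^ q := one_le_pow₀ (by norm_num)
  obtain ⟨Fac, hFac⟩ : ∃ Fac : ℝ, Fac = 16 * (M + 4) ^ 2 * 2 ^ q := ⟨_, rfl⟩
  rw [← hFac]
  have hM1 : 1 ≤ (M + 4) ^ 2 := by nlinarith
  have hM2 : (M + 4) ^ 2 ≤ (M + 4) ^ 2 * 2 ^ q := le_mul_of_one_le_right (by positivity) h2q
  have hFac1 : 1 ≤ Fac := by rw [hFac, mul_assoc]; linarith
  have hFac8 : 8 * (M + 4) ^ 2 ≤ Fac := by rw [hFac, mul_assoc]; linarith
  have hFac16 : 16 * (M + 4) ^ 2 ≤ Fac := by rw [hFac, mul_assoc]; linarith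
  have hFac2 : 2 * 2 ^ q ≤ Fac := by rw [hFac]; nlinarith
  -- the big gates
  have hbig : ∀ i ∈ (range (o + 1)).filter (fun i => (C i).big = true),
      ∀ (F : (Fin k → Fin T × Fin l → Bool) → ℂ) (B : ℝ), 0 ≤ B → Cyl F B →
      Cyl (fun y => F y * indC (V i ↔ (C i).test D (vals y))) (Fac * B) := by
    intro i hi F B hB hF
    obtain ⟨hio, hib⟩ := mem_filter.1 hi
    rw [mem_range] at hio
    have hdep := exists_dep hD (fun (a : Fin i) y => vals y a) fun a =>
      hv a (by have := a.isLt; omega)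
    have hmis : ∀ S ∈ (univ : Finset (Finset (Fin i))).filter fun S => S.card ≤ D,
        ∃ j, Misses (fun y : Fin k → Fin T × Fin l → Bool => ∀ a ∈ S, vals y a) j := by
      intro S hS
      obtain ⟨B', hB', hd⟩ := hdep S hS
      exact hd.misses hB'
    have hfi := hfew i (by omega)
    rcases hg : C i with v | b | S | S | ⟨r, w, g⟩ | ⟨w, θ⟩ | ⟨Γ, hΓ, hf, c, H⟩
    iterate 5
      rw [hg] at hib
      exact absurd hib Bool.false_ne_true
    · simp only [Gate.test, sum_trueSets]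
      refine CliqueCert.Cyl.mono (UniCore.cyl_thr_iff hB hF _ _ hdep w θ (V i)) ?_
      rw [← hM]
      exact mul_le_mul_of_nonneg_right hFac16 hB
    · rw [hg] at hfi
      simp only [Gate.test, sum_trueSets]
      refine CliqueCert.Cyl.mono (UniCore.cyl_grp_iff hB hF _ _ hmis c H hfi (V i)) ?_
      exact mul_le_mul_of_nonneg_right hFac2 hB
  have h2 := cyl_list hFac1 ((range (o + 1)).filter fun i => (C i).big = true)
    (fun i y => V i ↔ (C i).test D (vals y)) hbig hB₀ h1
  -- the test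
  have hdep := exists_dep hD (fun (i : Fin (o + 1)) y => vals y i) fun i =>
    hv i (by have := i.isLt; omega)
  have hmis : ∀ S ∈ (univ : Finset (Finset (Fin (o + 1)))).filter fun S => S.card ≤ D,
      ∃ j, Misses (fun y : Fin k → Fin T × Fin l → Bool => ∀ i ∈ S, vals y i) j := by
    intro S hS
    obtain ⟨B', hB', hd⟩ := hdep S hS
    exact hd.misses hB'
  have h3 := CliqueCert.Cyl.eqn h2 _ _ hmis τ.c τ.b
  have h4 := cyl_list hFac1 (univ : Finset (Fin t))
    (fun j y => τ.θ j ≤ gsum ((univ : Finset (Finset (Fin (o + 1)))).filter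
      fun S => S.card ≤ D) (fun S => ∀ i ∈ S, vals y i) (τ.w j))
    (fun j _ F B hB hF => by
      refine CliqueCert.Cyl.mono (CliqueCert.Cyl.ineq_real hB hF _ _ hdep (τ.w j) (τ.θ j)) ?_
      rw [← hM]
      exact mul_le_mul_of_nonneg_right hFac8 hB) (by positivity) h3
  have h5 : (fun y => indC ((∀ i ≤ o, (C i).big = true →
      (V i ↔ (C i).test D (vals y))) ∧ τ.Passes D fun i => vals y i)) =
      fun y => 1 * indC (∀ i ∈ (range (o + 1)).filter (fun i => (C i).big = true),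
        (V i ↔ (C i).test D (vals y))) *
        indC (gsum ((univ : Finset (Finset (Fin (o + 1)))).filter fun S => S.card ≤ D)
          (fun S => ∀ i ∈ S, vals y i) τ.c = τ.b) *
        indC (∀ j ∈ (univ : Finset (Fin t)), τ.θ j ≤
          gsum ((univ : Finset (Finset (Fin (o + 1)))).filter
            fun S => S.card ≤ D) (fun S => ∀ i ∈ S, vals y i) (τ.w j)) := by
    funext y
    rw [one_mul, ← CliqueCert.tl_indC_and, ← CliqueCert.tl_indC_and]
    refine CliqueCert.tl_indC_congr ?_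
    unfold Test.Passes
    simp only [sum_trueSets, mem_filter, mem_range, mem_univ, true_implies, and_assoc]
    refine and_congr_left fun _ => ?_
    constructor
    · intro h i hi
      exact h i (by omega) hi.2
    · intro h i hi hb
      exact h i ⟨by omega, hb⟩
  rw [h5]
  refine CliqueCert.Cyl.mono h4 ?_
  rw [card_univ, Fintype.card_fin, pow_add, mul_assoc]
  refine mul_le_mul_of_nonneg_left ?_ (by positivity)
  refine mul_le_mul_of_nonneg_right ?_ hB₀
  exact pow_le_pow_right₀ hFac1 hq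

end CliqueUni
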