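import Pool.Agent.Lib.UNI.Base
import Pool.Agent.Lib.CERT.Ineqr
import Pool.Agent.Lib.CERT.Eqn
import Pool.Agent.Lib.CERT.Cylm

/-! # PROJECT UNI, row CYLB -/

open Finset

namespace UniCore

open SmallDepth CliqueDepth CliqueCert

section parties

variable {k : ℕ} {I : Type}

/-- Differences. -/
theorem cylb_sub [Fintype I] [DecidableEq I] {F F' : (Fin k → I → Bool) → ℂ} {B B' : ℝ}
    (h : Cyl F B) (h' : Cyl F' B') : Cyl (fun y => F y - F' y) (B + B') := by
  intro χ h1 h2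
  have h3 : ∑ y, sgi y * (F y - F' y) * ∏ j, χ j y =
      ∑ y, sgi y * F y * ∏ j, χ j y - ∑ y, sgi y * F' y * ∏ j, χ j y := by
    rw [← sum_sub_distrib]
    refine sum_congr rfl fun y _ => ?_
    ring
  rw [h3]
  exact (norm_sub_le _ _).trans (add_le_add (h χ h1 h2) (h' χ h1 h2))

theorem cylb_not [Fintype I] [DecidableEq I] {F : (Fin k → I → Bool) → ℂ} {B B' : ℝ}
    {Q : (Fin k → I → Bool) → Prop} (h : Cyl F B) (h' : Cyl (fun y => F y * indC (Q y)) B') :
    Cyl (fun y => F y * indC (¬ Q y)) (B + B') := by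
  classical
  have h1 : (fun y => F y * indC (¬ Q y)) = fun y => F y - F y * indC (Q y) := by
    funext y
    rw [tl_indC_eq, tl_indC_eq]
    by_cases hy : Q y <;> simp [hy]
  rw [h1]
  exact cylb_sub h h'

/-- Row CYLB, part 1 (from `Cyl.ineq_real`; the complement by `Cyl.sum`). -/
theorem cyl_thr_iff {T l : ℕ} {F : (Fin k → Fin T × Fin l → Bool) → ℂ} {B : ℝ}
    (hB : 0 ≤ B) (h : Cyl F B) {σ : Type} (s : Finset σ)
    (P : σ → (Fin k → Fin T × Fin l → Bool) → Prop)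
    (hP : ∀ S ∈ s, ∃ B : Finset (Fin k × Fin T), B.card < k ∧ DepOn B (P S)) (w : σ → ℝ)
    (θ : ℝ) (V : Prop) : Cyl (fun y => F y * indC (V ↔ θ ≤ gsum s (fun S => P S y) w))
      (16 * ((((k * T + 1) ^ k * 2 ^ (l * k) : ℕ) : ℝ) + 4) ^ 2 * B) := by
  have h1 := Cyl.ineq_real hB h s P hP w θ
  obtain ⟨M, hM⟩ : ∃ M : ℝ, M = (((k * T + 1) ^ k * 2 ^ (l * k) : ℕ) : ℝ) := ⟨_, rfl⟩
  rw [← hM] at h1 ⊢
  have hM0 : 0 ≤ M := by rw [hM]; positivity
  have hMB : 0 ≤ (M + 4) ^ 2 * B := by positivity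
  by_cases hV : V
  · have h2 : (fun y => F y * indC (V ↔ θ ≤ gsum s (fun S => P S y) w)) =
        fun y => F y * indC (θ ≤ gsum s (fun S => P S y) w) := by
      funext y
      rw [tl_indC_congr (iff_true_left hV)]
    rw [h2]
    exact Cyl.mono h1 (by nlinarith)
  · have h2 : (fun y => F y * indC (V ↔ θ ≤ gsum s (fun S => P S y) w)) =
        fun y => F y * indC (¬ θ ≤ gsum s (fun S => P S y) w) := by
      funext y
      rw [tl_indC_congr (iff_false_left hV)]
    rw [h2]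
    refine Cyl.mono (cylb_not h h1) ?_
    have h3 : B ≤ (M + 4) ^ 2 * B := by
      have : 1 ≤ (M + 4) ^ 2 := by nlinarith
      nlinarith
    nlinarith

/-- A small set of values. -/
theorem cylb_mem [Fintype I] [DecidableEq I] {F : (Fin k → I → Bool) → ℂ} {B : ℝ}
    (hB : 0 ≤ B) (h : Cyl F B) {Γ : Type} [AddCommGroup Γ] [Finite Γ] {σ : Type} (s : Finset σ)
    (P : σ → (Fin k → I → Bool) → Prop) (hm : ∀ S ∈ s, ∃ j, Misses (P S) j) (c : σ → Γ)
    (H : Set Γ) {q : ℕ} (hH : H.ncard ≤ 2 ^ q) :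
    Cyl (fun y => F y * indC (gsum s (fun S => P S y) c ∈ H)) (2 ^ q * B) := by
  classical
  have hfin : H.Finite := Set.toFinite H
  have h1 : (fun y => F y * indC (gsum s (fun S => P S y) c ∈ H)) =
      fun y => ∑ b ∈ hfin.toFinset, (1 : ℂ) *
        (F y * indC (gsum s (fun S => P S y) c = b)) := by
    funext y
    rw [tl_indC_eq]
    simp_rw [tl_indC_eq, one_mul]
    rw [← mul_sum]
    congr 1
    rw [sum_ite_eq]
    simp
  rw [h1]
  refine Cyl.mono (Cyl.sum hfin.toFinset (fun b y => F y * indC (gsum s (fun S => P S y) c = b))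
    (fun _ => 1) fun b _ => Cyl.eqn h s P hm c b) ?_
  refine mul_le_mul_of_nonneg_right ?_ hB
  rw [sum_const, norm_one, nsmul_eq_mul, mul_one, ← Set.ncard_eq_toFinset_card H hfin]
  exact_mod_cast hH

/-- Row CYLB, part 2 (from `Cyl.eqn`, one equation for each element of `H` or of its
complement). -/
theorem cyl_grp_iff [Fintype I] [DecidableEq I] {F : (Fin k → I → Bool) → ℂ} {B : ℝ}
    (hB : 0 ≤ B) (h : Cyl F B) {Γ : Type} [AddCommGroup Γ] [Finite Γ] {σ : Type} (s : Finset σ)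
    (P : σ → (Fin k → I → Bool) → Prop) (hm : ∀ S ∈ s, ∃ j, Misses (P S) j) (c : σ → Γ)
    (H : Set Γ) {q : ℕ} (hH : H.ncard ≤ 2 ^ q ∨ Hᶜ.ncard ≤ 2 ^ q) (V : Prop) :
    Cyl (fun y => F y * indC (V ↔ gsum s (fun S => P S y) c ∈ H)) (2 * 2 ^ q * B) := by
  have h2q : (1 : ℝ) ≤ 2 ^ q := one_le_pow₀ (by norm_num)
  have hqB : B ≤ 2 ^ q * B := by nlinarith
  have key : ∀ H' : Set Γ, H'.ncard ≤ 2 ^ q →
      Cyl (fun y => F y * indC (gsum s (fun S => P S y) c ∈ H')) (2 * 2 ^ q * B) ∧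
      Cyl (fun y => F y * indC (gsum s (fun S => P S y) c ∉ H')) (2 * 2 ^ q * B) := by
    intro H' hH'
    have h3 := cylb_mem hB h s P hm c H' hH'
    refine ⟨Cyl.mono h3 ?_, Cyl.mono (cylb_not h h3) ?_⟩
    · linarith [mul_nonneg (show (0 : ℝ) ≤ 2 ^ q by positivity) hB]
    · linarith
  have hc : ∀ y, (gsum s (fun S => P S y) c ∈ H ↔ gsum s (fun S => P S y) c ∉ Hᶜ) := by
    intro y
    rw [Set.mem_compl_iff, not_not]
  by_cases hV : V
  · have h2 : (fun y => F y * indC (V ↔ gsum s (fun S => P S y) c ∈ H)) =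
        fun y => F y * indC (gsum s (fun S => P S y) c ∈ H) := by
      funext y
      rw [tl_indC_congr (iff_true_left hV)]
    rw [h2]
    rcases hH with hH | hH
    · exact (key H hH).1
    · simp_rw [hc]
      exact (key Hᶜ hH).2
  · have h2 : (fun y => F y * indC (V ↔ gsum s (fun S => P S y) c ∈ H)) =
        fun y => F y * indC (gsum s (fun S => P S y) c ∉ H) := by
      funext y
      rw [tl_indC_congr (iff_false_left hV)]
    rw [h2]
    rcases hH with hH | hH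
    · exact (key H hH).2
    · exact (key Hᶜ hH).1

end parties

end UniCore
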