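import Pool.Agent.Lib.UNI.Switch
import Pool.Agent.Lib.MP_678664_lc_AC.Eng

/-!
# Circuits of small depth under random restrictions, with the switching lemma
-/

open Finset

namespace SmallDepth

open CliqueDepth

variable {ι Ω : Type} [DecidableEq Ω] [Fintype Ω]

/-- Parameters of one level: functions of depth `c` become functions of small depth. -/
structure LParS (q p : Ω → ℝ) (Λ : ℝ) (c f : ℕ) : Prop extends Par q p Λ where
  (sw : ∃ τ : ℝ, SPar q p Λ τ c)
  (fan : ∃ B : ℝ, 0 ≤ B ∧ (∀ S, q S * Λ ≤ B) ∧ (1 + 2 * B) ^ (f * c) ≤ 2)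

omit [DecidableEq Ω] [Fintype Ω] in
/-- The choice of the parameters of one level. -/
theorem lparS {θ Λ : ℝ} {m f : ℕ} (hθ0 : 0 < θ) (hθ : θ ≤ 1 / 4) (hΛ : 1 ≤ Λ)
    (h1 : θ * Λ * m ≤ 1 / 16) (h2 : θ * Λ * (f * m) ≤ 1 / 4) :
    LParS (fun _ : Ω => θ) (fun _ => (1 - θ) / 2) Λ m f := by
  have hB : 0 ≤ θ * Λ := by positivity
  have P : Par (fun _ : Ω => θ) (fun _ => (1 - θ) / 2) Λ :=
    ⟨fun _ => hθ0.le, fun _ => by linarith, fun _ => by linarith, hΛ⟩
  refine ⟨P, ⟨8 / 3 * (θ * Λ), ⟨P, by positivity, ?_, ?_⟩⟩, ?_⟩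
  · intro S b
    have h3 : wt (fun _ : Ω => θ) (fun _ => (1 - θ) / 2) S b = (1 - θ) / 2 := by
      unfold wt
      split_ifs <;> ring
    rw [h3]
    nlinarith
  · have h3 : (1 + 2 * (8 / 3 * (θ * Λ))) ^ m ≤ Real.exp (2 * (8 / 3 * (θ * Λ))) ^ m := by
      refine pow_le_pow_left₀ (by positivity) ?_ _
      have := Real.add_one_le_exp (2 * (8 / 3 * (θ * Λ)))
      linarith
    refine h3.trans ?_
    rw [← Real.exp_nat_mul]
    have h4 : (m : ℝ) * (2 * (8 / 3 * (θ * Λ))) ≤ 1 / 3 := by nlinarith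
    refine (Real.exp_le_exp.2 h4).trans ?_
    have h5 : Real.exp (1 / 3) ^ 3 = Real.exp 1 := by
      rw [← Real.exp_nat_mul]
      norm_num
    have h6 : Real.exp 1 < 2.7182818286 := Real.exp_one_lt_d9
    have h7 := Real.exp_pos (1 / 3)
    by_contra hcon
    push Not at hcon
    have h8 : (3 / 2 : ℝ) ^ 3 < Real.exp (1 / 3) ^ 3 :=
      pow_lt_pow_left₀ hcon (by norm_num) (by norm_num)
    rw [h5] at h8
    norm_num at h8
    linarith
  · refine ⟨θ * Λ, hB, fun _ => le_rfl, ?_⟩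
    have h3 : (1 + 2 * (θ * Λ)) ^ (f * m) ≤ Real.exp (2 * (θ * Λ)) ^ (f * m) := by
      refine pow_le_pow_left₀ (by positivity) ?_ _
      have := Real.add_one_le_exp (2 * (θ * Λ))
      linarith
    refine h3.trans ?_
    rw [← Real.exp_nat_mul]
    have h4 : ((f * m : ℕ) : ℝ) * (2 * (θ * Λ)) ≤ 1 / 2 := by
      push_cast
      nlinarith
    refine (Real.exp_le_exp.2 h4).trans ?_
    have h5 : Real.exp (1 / 2) ^ 2 = Real.exp 1 := by
      rw [← Real.exp_nat_mul]
      norm_num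
    have h6 : Real.exp 1 < 4 := by
      have := Real.exp_one_lt_d9
      linarith
    have h7 := Real.exp_pos (1 / 2)
    nlinarith

theorem psi_gateS {q p : Ω → ℝ} {Λ : ℝ} {C : Circuit ι} {a : (Ω → Bool) → ι → Prop}
    {o l c f : ℕ} (P : LParS q p Λ c f) {ρ : Restr Ω}
    (hρ : ∀ i ≤ o, C.depth i ≤ l → DT c (res ρ (gv C a i))) {i : ℕ}
    (hi : i ∈ layer C o l) (hf : (C i).wires ≤ f) : Psi q p Λ (res ρ (gv C a i)) ≤ 2 := by
  obtain ⟨u, hu⟩ := P.sw
  obtain ⟨B, hB0, hB, hB2⟩ := P.fan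
  rcases res_gate_cases hρ hi hf with ⟨A, hA, hor⟩ | hD
  · exact Psi_or' hu hA hor
  · exact (Psi_DT P.toPar hB0 hB hD).trans hB2

/-- The probability that some gate of depth at most `l` does not have a decision tree of depth
`m`. -/
theorem prob_goodS {C : Circuit ι} {a : (Ω → Bool) → ι → Prop} {o m f l₀ : ℕ} (ha : IsLoc m a)
    (hf : ∀ i ≤ o, C.depth i ≤ l₀ → (C i).wires ≤ f) {θ Λ : ℝ} (hθ1 : θ ≤ 1)
    (P₁ : LParS (fun _ : Ω => θ) (fun _ => (1 - θ) / 2) Λ m f) (hθ0 : 0 ≤ θ) (l : ℕ)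
    (hl : l ≤ l₀) :
    Ex (fun _ : Ω => θ ^ l) (fun _ => (1 - θ ^ l) / 2) (fun ρ => ind (¬ Good C a o m l ρ)) ≤
      sizeL C o l * (2 / Λ ^ m) := by
  have hL : 0 < Λ := zero_lt_one.trans_le P₁.L1
  have he : 0 ≤ 2 / Λ ^ m := by positivity
  induction l with
  | zero =>
    have h1 : ∀ ρ : Restr Ω, ind (¬ Good C a o m 0 ρ) = 0 := fun ρ =>
      ind_false (not_not.2 (good_zero' ha le_rfl ρ))
    simp only [h1]
    rw [Ex_const]
    positivity
  | succ l ih =>
    have ih := ih (by omega)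
    have hpl0 : 0 ≤ θ ^ l := pow_nonneg hθ0 l
    have hpl1 : θ ^ l ≤ 1 := pow_le_one₀ hθ0 hθ1
    have hps : (fun _ : Ω => (1 - θ ^ (l + 1)) / 2) =
        fun _ => (1 - θ ^ l) / 2 + θ ^ l * ((1 - θ) / 2) := by
      funext S
      ring
    have hqs : (fun _ : Ω => θ ^ (l + 1)) = fun _ => θ ^ l * θ := by
      funext S
      ring
    rw [hps, hqs]
    rw [← Ex_comp (q₁ := fun _ : Ω => θ ^ l) (p₁ := fun _ => (1 - θ ^ l) / 2) (q₂ := fun _ => θ)
      (p₂ := fun _ => (1 - θ) / 2)]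
    have h1 : ∀ ρ₁, Ex (fun _ => θ) (fun _ => (1 - θ) / 2)
        (fun ρ₂ => ind (¬ Good C a o m (l + 1) (comp ρ₁ ρ₂))) ≤
        ind (¬ Good C a o m l ρ₁) + (layer C o l).card * (2 / Λ ^ m) := by
      intro ρ₁
      by_cases hG : Good C a o m l ρ₁
      · rw [ind_false (not_not.2 hG), zero_add]
        have h2 : ∀ ρ₂, ind (¬ Good C a o m (l + 1) (comp ρ₁ ρ₂)) ≤
            ∑ i ∈ layer C o l, ind (¬ DT m (res ρ₂ (res ρ₁ (gv C a i)))) := by
          intro ρ₂
          refine le_trans (ind_mono ?_) (ind_exists_le _ _)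
          intro h
          by_contra hcon
          push Not at hcon
          refine h (good_succ (good_mono hG ρ₂) fun i hi => ?_)
          rw [res_comp]
          exact hcon i hi
        calc _ ≤ Ex (fun _ => θ) (fun _ => (1 - θ) / 2) (fun ρ₂ => ∑ i ∈ layer C o l,
                ind (¬ DT m (res ρ₂ (res ρ₁ (gv C a i))))) := Ex_mono P₁.q0 P₁.p0 P₁.qp h2
          _ = ∑ i ∈ layer C o l, Ex (fun _ => θ) (fun _ => (1 - θ) / 2) (fun ρ₂ =>
                ind (¬ DT m (res ρ₂ (res ρ₁ (gv C a i))))) := Ex_sum _ _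
          _ ≤ ∑ _i ∈ layer C o l, 2 / Λ ^ m := by
              refine sum_le_sum fun i hi => ?_
              have hio : i ≤ o ∧ C.depth i ≤ l₀ := by
                unfold layer at hi
                rw [mem_filter, mem_range] at hi
                omega
              exact prob_deep P₁.toPar (psi_gateS P₁ hG hi (hf i hio.1 hio.2)) m
          _ = _ := by rw [sum_const, nsmul_eq_mul]
      · rw [ind_true hG]
        have h2 : Ex (fun _ => θ) (fun _ => (1 - θ) / 2)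
            (fun ρ₂ => ind (¬ Good C a o m (l + 1) (comp ρ₁ ρ₂))) ≤ 1 :=
          Ex_le_one P₁.q0 P₁.p0 P₁.qp fun _ => ind_le_one _
        have : 0 ≤ ((layer C o l).card : ℝ) * (2 / Λ ^ m) := by positivity
        linarith
    calc _ ≤ Ex (fun _ : Ω => θ ^ l) (fun _ => (1 - θ ^ l) / 2)
            (fun ρ₁ => ind (¬ Good C a o m l ρ₁) + (layer C o l).card * (2 / Λ ^ m)) :=
          Ex_mono (fun _ => hpl0) (fun _ => by linarith) (fun _ => by linarith) h1
      _ = Ex (fun _ : Ω => θ ^ l) (fun _ => (1 - θ ^ l) / 2)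
            (fun ρ₁ => ind (¬ Good C a o m l ρ₁)) +
            (layer C o l).card * (2 / Λ ^ m) := by rw [Ex_add, Ex_const]
      _ ≤ sizeL C o l * (2 / Λ ^ m) + (layer C o l).card * (2 / Λ ^ m) := by
          linarith
      _ = _ := by
          have := sizeL_succ C o l
          rw [← this]
          push_cast
          ring

end SmallDepth
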