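import Pool.Agent.Lib.UNI.Zeta
import Pool.Agent.Lib.UNI.Cyla
import Pool.Agent.Lib.UNI.Red
import Pool.Agent.Lib.UNI.Levels
import Pool.Agent.Lib.CERT.Live
import Pool.Agent.Lib.CERT.Extra
import Pool.Agent.Lib.CERT.Hyb
import Pool.Agent.Lib.CERT.Half
import Pool.Agent.Lib.CERT.Bns
import Pool.Agent.Lib.CERT.Loc

/-!
# PROJECT UNI, row FINAL: the main inequality

All guesses `z` and all guesses `V` of the values of the big gates together, for one restriction.
-/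

open Finset

namespace UniCore

open SmallDepth CliqueDepth CliqueCert

/-- The constants: guess bits `Z` and values of the big gates `S`. -/
def zet {q : ℕ} (x : Finset (Fin q) × Finset ℕ) : Fin q ⊕ ℕ → Prop :=
  Sum.elim (fun i => i ∈ x.1) fun i => i ∈ x.2

/-- The condition that the test is passed and that the guesses are right. -/
def accC {ι : Type} {o t : ℕ} (C : CliqueUni.Circuit ι) (D : ℕ) (τ : CliqueUni.Test o t)
    (S : Finset ℕ) (vals : ℕ → Prop) : Prop :=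
  (∀ i ≤ o, (C i).big = true → (i ∈ S ↔ (C i).test D vals)) ∧ τ.Passes D fun i => vals i

/-- The big gates. -/
def bigs {ι : Type} (C : CliqueUni.Circuit ι) (o : ℕ) : Finset ℕ :=
  (range (o + 1)).filter fun i => (C i).big = true

/-- The guesses. -/
def gss {ι : Type} (C : CliqueUni.Circuit ι) (o q : ℕ) : Finset (Finset (Fin q) × Finset ℕ) :=
  univ ×ˢ (bigs C o).powerset

theorem card_gss {ι : Type} {C : CliqueUni.Circuit ι} {o q : ℕ} (h : C.nbig o ≤ q) :
    ((gss C o q).card : ℝ) ≤ 2 ^ q * 2 ^ q := by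
  unfold gss
  rw [card_product, card_univ, Fintype.card_finset, Fintype.card_fin, card_powerset]
  push_cast
  refine mul_le_mul_of_nonneg_left ?_ (by positivity)
  exact pow_le_pow_right₀ (by norm_num) h

theorem exists_acc {ι : Type} {o t q A : ℕ} (C : CliqueUni.Circuit (ι ⊕ Fin q)) (D : ℕ)
    (τ : Fin A → CliqueUni.Test o t) (x : ι → Prop) :
    (∃ (z : Fin q → Prop) (a : Fin A), (τ a).Passes D fun i => C.val D (Sum.elim x z) i) ↔
      ∃ g ∈ gss C o q, ∃ a : Fin A, accC C D (τ a) g.2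
        fun i => (CliqueUni.low C).val (Sum.elim x (zet g)) i := by
  classical
  constructor
  · rintro ⟨z, a, h⟩
    set g : Finset (Fin q) × Finset ℕ := (univ.filter fun i => z i,
      (bigs C o).filter fun i => C.val D (Sum.elim x z) i) with hg
    have hz : zet g = Sum.elim z fun i => i ∈ g.2 := by
      unfold zet
      congr 1
      funext i
      rw [hg]
      simp
    have hV : ∀ i ≤ o, (C i).big = true → (i ∈ g.2 ↔ C.val D (Sum.elim x z) i) := by
      intro i hi hb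
      rw [hg]
      simp only [mem_filter, bigs, mem_range]
      exact ⟨fun h => h.2, fun h => ⟨⟨by omega, hb⟩, h⟩⟩
    refine ⟨g, ?_, a, ?_, ?_⟩
    · unfold gss
      rw [mem_product, mem_powerset]
      exact ⟨mem_univ _, filter_subset _ _⟩
    · rw [hz]
      exact (CliqueUni.guess_right C D o x z fun i => i ∈ g.2).1 hV
    · have h1 := CliqueUni.val_low C D o x z (fun i => i ∈ g.2) hV
      rw [hz]
      have h2 : (fun i : Fin (o + 1) => (CliqueUni.low C).val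
          (Sum.elim x (Sum.elim z fun i => i ∈ g.2)) i) =
          fun i : Fin (o + 1) => C.val D (Sum.elim x z) i := by
        funext i
        exact propext (h1 i (by have := i.isLt; omega))
      rw [h2]
      exact h
  · rintro ⟨g, -, a, h1, h2⟩
    have hV := (CliqueUni.guess_right C D o x (fun i => i ∈ g.1) fun i => i ∈ g.2).2 h1
    have h3 := CliqueUni.val_low C D o x (fun i => i ∈ g.1) (fun i => i ∈ g.2) hV
    refine ⟨fun i => i ∈ g.1, a, ?_⟩
    have h4 : (fun i : Fin (o + 1) => (CliqueUni.low C).val (Sum.elim x (zet g)) i) =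
        fun i : Fin (o + 1) => C.val D (Sum.elim x fun i => i ∈ g.1) i := by
      funext i
      exact propext (h3 i (by have := i.isLt; omega))
    rw [h4] at h2
    exact h2

variable {k T N l n : ℕ} {Λ : Type}

/-- The planted cliques. -/
theorem planted_clique (hk : 2 ≤ k) (φ : Vtx k T N l ↪ Fin n) {R : Fin k → Fin k → Λ → Λ → Prop}
    (L : Slot k T N → Λ) {κ : Fin T → Fin k → Λ} (hκ : ∀ r, IsCl R (κ r))
    (G : Crd k T N l → Bool) (u : Fin k × Fin T → Fin N) (y : Fin k → Fin T × Fin l → Bool)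
    (h : (grc φ R (plc L u κ univ) (asg G u y)).CliqueFree k) :
    ∀ r, ¬ gip fun j i => y j (r, i) := by
  intro r hr
  refine absurd h ((grc_clique hk φ R (plc L u κ univ) (asg G u y)).2
    ⟨fun j => (r, u (j, r)), ?_, ?_⟩)
  · have h1 : (fun j => labu (plc L u κ univ) (asg G u y) ((j, r), u (j, r))) = κ r := by
      funext j
      unfold labu plc asg
      simp
    rw [h1]
    exact hκ r
  · have h1 : (fun j => stu (asg G u y) ((j, r), u (j, r))) = fun j i => y j (r, i) := by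
      funext j
      unfold stu asg
      simp
    rw [h1]
    exact hr

theorem isLoc_inp (φ : Vtx k T N l ↪ Fin n) (R : Fin k → Fin k → Λ → Λ → Prop)
    (L : Slot k T N → Λ) {E : Type} (ζ : E → Prop) {m : ℕ} (hm : 2 * (l + 1) ≤ m) :
    IsLoc m fun x => Sum.elim (inp φ R L x) ζ := by
  intro e
  rcases e with e | e
  · exact (inp_loc φ R L e).mono hm
  · exact DT.const _ _ fun x y => Iff.rfl

theorem core_ineq {n k D d f q s t A : ℕ} (h : CliqueUni.HasCert n k D d f q s t A) {W : ℕ}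
    (hW : 2 ≤ W) (hWk : 2 * W < k) (hD : D * W < k) {T N l N₁ m₀ m S : ℕ} {Λ : Type} [Fintype Λ]
    (hM : 1 ≤ Fintype.card Λ) (hn : k * T * N * 2 ^ (k * l) ≤ n)
    {R : Fin k → Fin k → Λ → Λ → Prop} (hR : Uniq R) {β : ℝ} (hβ1 : 1 ≤ β)
    (hβ : (Fintype.card Λ : ℝ) ^ (k - 1) ≤ β * (Kc R).card) (hN₁ : 0 < N₁) (hN : N₁ * m₀ ≤ N)
    {θ : ℝ} (h0 : 0 < θ) (h1 : θ ≤ 1 / 4) (hm : 2 * (l + 1) ≤ m)
    (hc : θ * 2 * m ≤ 1 / 16) (hfm : θ * 2 * (f * m) ≤ 1 / 4)
    (h14 : ((k * T * N₁ : ℕ) : ℝ) * (1 - (θ ^ d) ^ (l + 1)) ^ m₀ ≤ 1 / 4)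
    (hp : ((s : ℝ) + 1) * β ^ (2 * W) *
      ((evB (2 * W * (l + 1)) m f : ℝ) / (N₁ : ℝ) ^ (W + 1)) ≤ 1)
    {x : ℝ} (hx0 : 0 ≤ x) (hρ : (1 - (1 / 2 : ℝ) ^ (k - 1)) ^ l ≤ x ^ (2 ^ (k - 1))) :
    1 ≤ ((T : ℝ) * N) ^ k * β / Fintype.card Λ + 2 ^ q * 2 ^ q *
      (((((s : ℝ) + 1) * β ^ (2 * W) *
        ((evB (2 * W * (l + 1)) m f : ℝ) / (N₁ : ℝ) ^ (W + 1))) ^ S +
        S * (((s : ℝ) + 1) * β ^ (2 * W) * ((med k T l W).card + 1) *
          ((((s : ℝ) + 1) * ((med k T l W).card + 1)) ^ S * (T + 1) ^ (2 * W * S) *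
            (β * Fintype.card Λ) ^ (2 * W * S) *
              (2 * (2 ^ q * 2 ^ q * (((s : ℝ) + 1) * (2 / 2 ^ m))))))) +
        (T + 1) ^ (2 * W * S) * 2 ^ (k * (2 * W * S * l)) *
          (A * (16 * ((((k * T + 1) ^ k * 2 ^ (l * k) : ℕ) : ℝ) + 4) ^ 2 * 2 ^ q) ^ (t + q)) *
          (2 ^ T * x ^ T)) := by
  classical
  obtain ⟨C, o, τ, hs, hq, hC, hcl⟩ := h
  -- vertices
  have hcard : Fintype.card (Vtx k T N l) ≤ Fintype.card (Fin n) := by
    simp only [Fintype.card_prod, Fintype.card_fin, Fintype.card_fun, Fintype.card_bool]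
    calc k * T * N * (2 ^ l) ^ k = k * T * N * 2 ^ (k * l) := by
          rw [← pow_mul, mul_comm l k]
      _ ≤ n := hn
  obtain ⟨φ⟩ := Function.Embedding.nonempty_of_card_le hcard
  -- abbreviations
  obtain ⟨M, hMd⟩ : ∃ M : ℝ, M = (Fintype.card Λ : ℝ) := ⟨_, rfl⟩
  have hM0 : 0 < M := by rw [hMd]; exact_mod_cast hM
  obtain ⟨U, hUd⟩ : ∃ U : ℝ, U = (Fintype.card (Slot k T N → Λ) : ℝ) := ⟨_, rfl⟩
  have hU0 : 0 < U := by
    have : 0 < Fintype.card Λ := hM
    rw [hUd, Fintype.card_fun]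
    positivity
  have hKc0 : 0 < ((Kc R).card : ℝ) := by
    rcases Nat.eq_zero_or_pos (Kc R).card with h | h
    · exfalso
      rw [h, ← hMd] at hβ
      have : 0 < M ^ (k - 1) := by positivity
      push_cast at hβ
      linarith
    · exact_mod_cast h
  obtain ⟨Q, hQd⟩ : ∃ Q : ℝ, Q = ((Kc R).card : ℝ) ^ T := ⟨_, rfl⟩
  have hQ0 : 0 < Q := by rw [hQd]; positivity
  have hKpc : ((Kp T R).card : ℝ) = Q := by
    rw [card_Kp, hQd]
    push_cast
    rfl
  obtain ⟨e, hed⟩ : ∃ e : ℝ, e = 2 ^ q * 2 ^ q * (((s : ℝ) + 1) * (2 / 2 ^ m)) := ⟨_, rfl⟩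
  have he0 : 0 < e := by rw [hed]; positivity
  set C' := CliqueUni.low C with hC'
  have hsC : (C'.size o : ℝ) ≤ s := by
    rw [hC', CliqueUni.size_low]
    exact_mod_cast hs
  set GS := gss C o q with hGS
  have hGc : (GS.card : ℝ) ≤ 2 ^ q * 2 ^ q := card_gss hq
  have hθd0 : 0 ≤ θ ^ d := pow_nonneg h0.le d
  have hθd1 : θ ^ d ≤ 1 := pow_le_one₀ h0.le (by linarith)
  -- the restriction
  obtain ⟨ρ, hρ1, hρ2⟩ := exists_live (k := k) (T := T) (N := N) (l := l) (q := θ ^ d)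
    (p := (1 - θ ^ d) / 2) hθd0 (by linarith) (by linarith) hN h14
    (F := fun ρ => (∑ g ∈ GS, ∑ L : Slot k T N → Λ,
      ind (¬ Good C' (fun x => Sum.elim (inp φ R L x) (zet g)) o m d ρ)) / U)
    (e := e) (fun ρ => div_nonneg (sum_nonneg fun g _ => sum_nonneg fun L _ => ind_nonneg _)
      hU0.le) he0 (by
      have e1 : Ex (fun _ : Crd k T N l => θ ^ d) (fun _ => (1 - θ ^ d) / 2)
          (fun ρ => (∑ g ∈ GS, ∑ L : Slot k T N → Λ,
            ind (¬ Good C' (fun x => Sum.elim (inp φ R L x) (zet g)) o m d ρ)) / U) =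
          U⁻¹ * ∑ g ∈ GS, ∑ L : Slot k T N → Λ,
            Ex (fun _ : Crd k T N l => θ ^ d) (fun _ => (1 - θ ^ d) / 2) (fun ρ =>
              ind (¬ Good C' (fun x => Sum.elim (inp φ R L x) (zet g)) o m d ρ)) := by
        simp only [← Ex_sum]
        rw [← Ex_mul]
        refine Ex_congr fun ρ => ?_
        rw [div_eq_inv_mul]
      rw [e1]
      have e2 : ∀ g ∈ GS, ∑ L : Slot k T N → Λ,
            Ex (fun _ : Crd k T N l => θ ^ d) (fun _ => (1 - θ ^ d) / 2) (fun ρ =>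
              ind (¬ Good C' (fun x => Sum.elim (inp φ R L x) (zet g)) o m d ρ)) ≤
            U * (((s : ℝ) + 1) * (2 / 2 ^ m)) := by
        intro g _
        have e3 : ∀ L : Slot k T N → Λ,
            Ex (fun _ : Crd k T N l => θ ^ d) (fun _ => (1 - θ ^ d) / 2) (fun ρ =>
              ind (¬ Good C' (fun x => Sum.elim (inp φ R L x) (zet g)) o m d ρ)) ≤
            ((s : ℝ) + 1) * (2 / 2 ^ m) := by
          intro L
          refine (prob_goodS (l₀ := d) (isLoc_inp φ R L (zet g) hm) (f := f) ?_ (by linarith)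
            (lparS h0 h1 (by norm_num) hc hfm) h0.le d le_rfl).trans ?_
          · intro i hi _
            rw [hC', CliqueUni.wires_low]
            exact (hC i hi).2.1
          · refine mul_le_mul_of_nonneg_right ?_ (by positivity)
            have : ((sizeL C' o d : ℕ) : ℝ) ≤ C'.size o := by exact_mod_cast sizeL_le C' o d
            linarith
        refine (sum_le_sum fun L _ => e3 L).trans (le_of_eq ?_)
        rw [sum_const, card_univ, nsmul_eq_mul, hUd]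
      calc _ ≤ U⁻¹ * ∑ _g ∈ GS, U * (((s : ℝ) + 1) * (2 / 2 ^ m)) :=
            mul_le_mul_of_nonneg_left (sum_le_sum e2) (by positivity)
        _ = GS.card * (((s : ℝ) + 1) * (2 / 2 ^ m)) := by
            rw [sum_const, nsmul_eq_mul]
            field_simp
        _ ≤ e := by
            rw [hed]
            exact mul_le_mul_of_nonneg_right hGc (by positivity))
  have hρ3 : ∀ g ∈ GS, ∑ L : Slot k T N → Λ,
      ind (¬ Good C' (fun x => Sum.elim (inp φ R L x) (zet g)) o m d ρ) ≤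
      2 * e * Fintype.card (Slot k T N → Λ) := by
    intro g hg
    rw [← hUd]
    rw [div_le_iff₀ hU0] at hρ2
    exact (single_le_sum (f := fun g => ∑ L : Slot k T N → Λ,
      ind (¬ Good C' (fun x => Sum.elim (inp φ R L x) (zet g)) o m d ρ))
      (fun g _ => sum_nonneg fun L _ => ind_nonneg _) hg).trans hρ2
  -- the circuit and the restriction
  set P : Stp k T N l n Λ (Fin q ⊕ ℕ) := ⟨C', φ, R, o, W, ρ⟩ with hP
  obtain ⟨X, hXd⟩ : ∃ X : ℝ, X = ((((s : ℝ) + 1) * β ^ (2 * W) *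
        ((evB (2 * W * (l + 1)) m f : ℝ) / (N₁ : ℝ) ^ (W + 1))) ^ S +
        S * (((s : ℝ) + 1) * β ^ (2 * W) * ((med k T l W).card + 1) *
          ((((s : ℝ) + 1) * ((med k T l W).card + 1)) ^ S * (T + 1) ^ (2 * W * S) *
            (β * Fintype.card Λ) ^ (2 * W * S) *
              (2 * (2 ^ q * 2 ^ q * (((s : ℝ) + 1) * (2 / 2 ^ m))))))) := ⟨_, rfl⟩
  obtain ⟨bb, hbb⟩ : ∃ bb : ℝ, bb =
    (16 * ((((k * T + 1) ^ k * 2 ^ (l * k) : ℕ) : ℝ) + 4) ^ 2 * 2 ^ q) ^ (t + q) := ⟨_, rfl⟩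
  have hbb0 : 0 ≤ bb := by rw [hbb]; positivity
  obtain ⟨Z₁, hZ₁⟩ : ∃ Z₁ : ℝ, Z₁ = ((T : ℝ) + 1) ^ (2 * W * S) * 2 ^ (k * (2 * W * S * l)) :=
    ⟨_, rfl⟩
  have hZ₁0 : 0 ≤ Z₁ := by rw [hZ₁]; positivity
  have hX0 : 0 ≤ X := by rw [hXd]; positivity
  obtain ⟨HH, hHH⟩ : ∃ HH : ℝ, HH = (2 : ℝ) ^ (k * (T * l)) := ⟨_, rfl⟩
  have hHH0 : 0 < HH := by rw [hHH]; positivity
  obtain ⟨Y₀, hY₀⟩ : ∃ Y₀ : ℝ, Y₀ = ∑ y : Fin k → Fin T × Fin l → Bool,
    ind (∀ r, ¬ gip fun j i => y j (r, i)) := ⟨_, rfl⟩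
  have hYH : HH ≤ 2 ^ T * Y₀ := by
    rw [hHH, hY₀]
    exact half_count (by omega)
  have hY₀0 : 0 < Y₀ := by
    have h2 : (0 : ℝ) < 2 ^ T := by positivity
    by_contra h3
    push Not at h3
    have := mul_nonpos_of_nonneg_of_nonpos h2.le h3
    linarith
  rw [← hMd, ← hbb, ← hZ₁]
  rw [← hMd] at hXd
  rw [← hXd]
  -- the upper bound for one guess
  have hB₀ : Cyl (fun _ : Fin k → Fin T × Fin l → Bool => 1) (HH * x ^ T) := by
    have h2 := cyl_one (k := k) (I := Fin T × Fin l) (by omega) (x := x ^ T) (by positivity) (by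
      rw [Fintype.card_prod, Fintype.card_fin, Fintype.card_fin, mul_comm T l, pow_mul,
        pow_right_comm x]
      refine pow_le_pow_left₀ ?_ hρ _
      have : (1 / 2 : ℝ) ^ (k - 1) ≤ 1 := pow_le_one₀ (by norm_num) (by norm_num)
      exact pow_nonneg (by linarith) _)
    rw [Fintype.card_prod, Fintype.card_fin, Fintype.card_fin, ← hHH] at h2
    exact h2
  have hup : ∀ g ∈ GS, ∑ y : Fin k → Fin T × Fin l → Bool,
      P.sm (fun v => ind (∃ a, accC C D (τ a) g.2 fun i =>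
        P.C.val (P.inps (zet g) v univ (asg (tr P.ρ) v.1 y)) i)) ≤
      (X * Y₀ + Z₁ * (A * (bb * (HH * x ^ T)))) * P.sm (fun _ => 1) := by
    intro g hg
    have h2 := per_zeta P (m := m) (d := d) (f := f) (N₁ := N₁) (A := A) (β := β)
      (fun i hi => ⟨by
        show (CliqueUni.low C).depth i ≤ d
        rw [CliqueUni.depth_low]; exact (hC i hi).1, by
        show (CliqueUni.low C i).wires ≤ f
        rw [CliqueUni.wires_low]; exact (hC i hi).2.1⟩)
      hW hWk hR hN₁ hρ1 hβ1 hM hβ (zet g) (s := (s : ℝ) + 1) (by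
        have : (0 : ℝ) ≤ s := Nat.cast_nonneg s
        linarith) (by
        have : ((P.cgt.card : ℕ) : ℝ) = (C'.size o : ℝ) := rfl
        rw [this]
        linarith) (ε := 2 * e) (by positivity) (hρ3 g hg) hp S
      (fun a => accC C D (τ a) g.2) (B := bb * (HH * x ^ T)) (by positivity) ?_ ?_
    · rw [← hY₀, ← hMd] at h2
      rw [hXd, hZ₁]
      rw [hed] at h2
      exact h2
    · intro v hv hκ y hacc
      have h3 : ∃ g ∈ gss C o q, ∃ a : Fin A, accC C D (τ a) g.2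
          fun i => (CliqueUni.low C).val
            (Sum.elim (inp φ R (plc v.2.2 v.1 v.2.1 univ) (asg (tr ρ) v.1 y)) (zet g)) i :=
        ⟨g, hg, hacc⟩
      rw [← exists_acc] at h3
      have h4 := (hcl (grc φ R (plc v.2.2 v.1 v.2.1 univ) (asg (tr ρ) v.1 y))).2 h3
      exact planted_clique (by omega) φ v.2.2 (mem_Kp.1 hκ) (tr ρ) v.1 y h4
    · intro a vals hvals
      have h3 := CliqueUni.cyl_acc (t := t) hD C hq (fun i hi => (hC i hi).2.2) (fun i => i ∈ g.2)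
        (τ a) (B₀ := HH * x ^ T) (by positivity) hB₀ vals hvals
      rw [← hbb] at h3
      exact h3
  -- the lower bound
  have hsm : ∀ (u : Fin k × Fin T → Fin N), u ∈ Fintype.piFinset (live ρ) → ∀ κ ∈ Kp T R,
      ∀ (L : Slot k T N → Λ) (y : Fin k → Fin T × Fin l → Bool),
      ind (∀ r, ¬ gip fun j i => y j (r, i)) ≤
        ind (∀ r, ¬ gip fun j i => y j (r, i)) * ind (Extc R (plc L u κ univ) (tr ρ) u) +
        ∑ g ∈ GS, ind (∃ a, accC C D (τ a) g.2 fun i =>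
          P.C.val (P.inps (zet g) (u, κ, L) univ (asg (tr P.ρ) u y)) i) := by
    intro u hu κ hκ L y
    have h2 : 0 ≤ ∑ g ∈ GS, ind (∃ a, accC C D (τ a) g.2 fun i =>
          P.C.val (P.inps (zet g) (u, κ, L) univ (asg (tr P.ρ) u y)) i) :=
      sum_nonneg fun g _ => ind_nonneg _
    by_cases hy : ∀ r, ¬ gip fun j i => y j (r, i)
    · rw [ind_true hy, one_mul]
      by_cases hex : Extc R (plc L u κ univ) (tr ρ) u
      · rw [ind_true hex]
        linarith
      · rw [ind_false hex, zero_add]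
        have h3 := (grc_asg (by omega) φ L (mem_Kp.1 hκ) (tr ρ) u hex y).2 hy
        have h4 := (hcl _).1 h3
        have h5 := (exists_acc C D τ (fun e => (grc φ R (plc L u κ univ) (asg (tr ρ) u y)).Adj
          e.1 e.2)).1 h4
        obtain ⟨g, hg, hacc⟩ := h5
        refine le_trans ?_ (single_le_sum (f := fun g => ind (∃ a, accC C D (τ a) g.2 fun i =>
          P.C.val (P.inps (zet g) (u, κ, L) univ (asg (tr P.ρ) u y)) i))
          (fun g _ => ind_nonneg _) hg)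
        exact (ind_true hacc).symm.le
    · rw [ind_false hy, zero_mul, zero_add]
      exact h2
  have hsm1 : P.sm (fun _ => (1 : ℝ)) = (Fintype.piFinset (live ρ)).card * (Q * U) := by
    show ∑ u ∈ Fintype.piFinset (live ρ), ∑ κ ∈ Kp T R, ∑ L : Slot k T N → Λ, (1 : ℝ) = _
    rw [sum_const, sum_const, sum_const, card_univ, nsmul_eq_mul, nsmul_eq_mul, nsmul_eq_mul,
        mul_one, hKpc, hUd]
  have hsm0 : 0 < P.sm (fun _ => (1 : ℝ)) := by
    rw [hsm1]
    have : 0 < ((Fintype.piFinset (live ρ)).card : ℝ) := by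
      rw [Fintype.card_piFinset]
      push_cast
      refine prod_pos fun b _ => ?_
      exact_mod_cast hN₁.trans_le (hρ1 b)
    positivity
  have hext : P.sm (fun v => ind (Extc R (plc v.2.2 v.1 v.2.1 univ) (tr ρ) v.1)) ≤
      ((T : ℝ) * N) ^ k * β / M * P.sm (fun _ => 1) := by
    rw [hsm1]
    show ∑ u ∈ Fintype.piFinset (live ρ), ∑ κ ∈ Kp T R, ∑ L : Slot k T N → Λ,
      ind (Extc R (plc L u κ univ) (tr ρ) u) ≤ _
    have h2 : ∀ u ∈ Fintype.piFinset (live ρ), ∑ κ ∈ Kp T R, ∑ L : Slot k T N → Λ,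
        ind (Extc R (plc L u κ univ) (tr ρ) u) ≤ ((T : ℝ) * N) ^ k * β / M * (Q * U) := by
      intro u _
      have h3 := sum_extc (by omega) hR u (tr ρ) hβ1 hβ
      rw [← hMd, ← hUd, ← hQd] at h3
      rw [div_mul_eq_mul_div, le_div_iff₀ hM0]
      linarith
    refine (sum_le_sum h2).trans (le_of_eq ?_)
    rw [sum_const, nsmul_eq_mul]
    ring
  have htot : Y₀ * P.sm (fun _ => 1) ≤
      Y₀ * P.sm (fun v => ind (Extc R (plc v.2.2 v.1 v.2.1 univ) (tr ρ) v.1)) +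
      ∑ g ∈ GS, ∑ y : Fin k → Fin T × Fin l → Bool,
        P.sm (fun v => ind (∃ a, accC C D (τ a) g.2 fun i =>
          P.C.val (P.inps (zet g) v univ (asg (tr P.ρ) v.1 y)) i)) := by
    have e1 : Y₀ * P.sm (fun _ => 1) = ∑ y : Fin k → Fin T × Fin l → Bool,
        ∑ u ∈ Fintype.piFinset (live ρ), ∑ κ ∈ Kp T R, ∑ L : Slot k T N → Λ,
          ind (∀ r, ¬ gip fun j i => y j (r, i)) := by
      rw [hY₀, sum_mul]
      refine sum_congr rfl fun y _ => ?_
      show _ * (∑ u ∈ Fintype.piFinset (live ρ), ∑ κ ∈ Kp T R, ∑ L : Slot k T N → Λ, (1 : ℝ)) = _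
      simp only [mul_sum, mul_one]
    have e2 : Y₀ * P.sm (fun v => ind (Extc R (plc v.2.2 v.1 v.2.1 univ) (tr ρ) v.1)) =
        ∑ y : Fin k → Fin T × Fin l → Bool,
        ∑ u ∈ Fintype.piFinset (live ρ), ∑ κ ∈ Kp T R, ∑ L : Slot k T N → Λ,
          ind (∀ r, ¬ gip fun j i => y j (r, i)) *
            ind (Extc R (plc L u κ univ) (tr ρ) u) := by
      rw [hY₀, sum_mul]
      refine sum_congr rfl fun y _ => ?_
      show _ * (∑ u ∈ Fintype.piFinset (live ρ), ∑ κ ∈ Kp T R, ∑ L : Slot k T N → Λ,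
        ind (Extc R (plc L u κ univ) (tr ρ) u)) = _
      simp only [mul_sum]
    have e3 : ∑ g ∈ GS, ∑ y : Fin k → Fin T × Fin l → Bool,
        P.sm (fun v => ind (∃ a, accC C D (τ a) g.2 fun i =>
          P.C.val (P.inps (zet g) v univ (asg (tr P.ρ) v.1 y)) i)) =
        ∑ y : Fin k → Fin T × Fin l → Bool,
        ∑ u ∈ Fintype.piFinset (live ρ), ∑ κ ∈ Kp T R, ∑ L : Slot k T N → Λ,
          ∑ g ∈ GS, ind (∃ a, accC C D (τ a) g.2 fun i =>
            P.C.val (P.inps (zet g) (u, κ, L) univ (asg (tr P.ρ) u y)) i) := by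
      rw [sum_comm]
      refine sum_congr rfl fun y _ => ?_
      show ∑ g ∈ GS, (∑ u ∈ Fintype.piFinset (live ρ), ∑ κ ∈ Kp T R, ∑ L : Slot k T N → Λ,
        ind (∃ a, accC C D (τ a) g.2 fun i =>
            P.C.val (P.inps (zet g) (u, κ, L) univ (asg (tr P.ρ) u y)) i)) = _
      rw [sum_comm]
      refine sum_congr rfl fun u _ => ?_
      rw [sum_comm]
      refine sum_congr rfl fun κ _ => ?_
      rw [sum_comm]
    rw [e1, e2, e3, ← sum_add_distrib]
    refine sum_le_sum fun y _ => ?_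
    rw [← sum_add_distrib]
    refine sum_le_sum fun u hu => ?_
    rw [← sum_add_distrib]
    refine sum_le_sum fun κ hκ => ?_
    rw [← sum_add_distrib]
    exact sum_le_sum fun L _ => hsm u hu κ hκ L y
  -- conclusion
  have hA0 : (0 : ℝ) ≤ A := Nat.cast_nonneg A
  have hxT : 0 ≤ x ^ T := pow_nonneg hx0 T
  obtain ⟨E₀, hE₀⟩ : ∃ E₀ : ℝ, E₀ = ((T : ℝ) * N) ^ k * β / M := ⟨_, rfl⟩
  rw [← hE₀] at hext ⊢
  obtain ⟨s₁, hs₁⟩ : ∃ s₁ : ℝ, s₁ = P.sm (fun _ => (1 : ℝ)) := ⟨_, rfl⟩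
  rw [← hs₁] at hext htot hup hsm0
  obtain ⟨qq, hqq⟩ : ∃ qq : ℝ, qq = (2 : ℝ) ^ q * 2 ^ q := ⟨_, rfl⟩
  rw [← hqq] at hGc ⊢
  have hqq0 : 0 ≤ qq := by rw [hqq]; positivity
  have hone : 0 ≤ X * Y₀ + Z₁ * (A * (bb * (HH * x ^ T))) := by positivity
  have h2 : ∑ g ∈ GS, ∑ y : Fin k → Fin T × Fin l → Bool,
        P.sm (fun v => ind (∃ a, accC C D (τ a) g.2 fun i =>
          P.C.val (P.inps (zet g) v univ (asg (tr P.ρ) v.1 y)) i)) ≤
      qq * ((X * Y₀ + Z₁ * (A * (bb * (HH * x ^ T)))) * s₁) := by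
    refine (sum_le_sum hup).trans ?_
    rw [sum_const, nsmul_eq_mul]
    exact mul_le_mul_of_nonneg_right hGc (by positivity)
  have h3 : Z₁ * (A * (bb * (HH * x ^ T))) ≤ Z₁ * (A * (bb * ((2 ^ T * Y₀) * x ^ T))) := by
    gcongr
  have h4 : Y₀ * s₁ ≤ Y₀ * (E₀ * s₁) +
      qq * ((X * Y₀ + Z₁ * (A * (bb * ((2 ^ T * Y₀) * x ^ T)))) * s₁) := by
    refine (htot.trans (add_le_add (mul_le_mul_of_nonneg_left hext hY₀0.le) h2)).trans ?_
    gcongr
  have hpos : 0 < Y₀ * s₁ := mul_pos hY₀0 hsm0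
  refine le_of_mul_le_mul_left ?_ hpos
  calc Y₀ * s₁ * 1 ≤ Y₀ * (E₀ * s₁) +
      qq * ((X * Y₀ + Z₁ * (A * (bb * ((2 ^ T * Y₀) * x ^ T)))) * s₁) := by rw [mul_one]; exact h4
    _ = _ := by ring

end UniCore
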