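import Pool.Agent.Lib.UNI.Base
import Pool.Agent.Lib.CERT.Half
import Pool.Agent.Lib.CERT.Cylm
import Pool.Agent.Lib.CERT76.Tools

/-! # PROJECT UNI, row FINX: the final count after the exposure of few tuples -/

open Finset

namespace UniCore

open SmallDepth CliqueDepth CliqueCert

section parties

variable {k : ℕ}

/-- All states of the tuples of `RR` are zero. -/
def FalseOn {T l : ℕ} (RR : Finset (Fin T)) (y : Fin k → Fin T × Fin l → Bool) : Prop :=
  ∀ j p, p.1 ∈ RR → y j p = false

theorem count_glue {T l : ℕ} (hk : 2 ≤ k) (Q : (Fin k → Fin T × Fin l → Bool) → Prop) {B : ℝ}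
    (RR : Finset (Fin T)) (y₀ : Fin k → Fin T × Fin l → Bool)
    (hs : ∀ y, Q y → ∀ r, ¬ gip fun j i => glue y₀ RR y j (r, i))
    (h2 : Cyl (fun y => indC (Q y)) B) :
    ∑ y, ind (Q y ∧ FalseOn RR y) ≤ B := by
  classical
  have h3 := h2.mul_prod (univ : Finset (Fin k))
    (fun j y => indC (∀ p : Fin T × Fin l, p.1 ∈ RR → y j p = false))
    (fun j _ y => tl_norm_indC_le _)
    (by
      intro j _
      obtain ⟨j', hj'⟩ : ∃ j' : Fin k, j ≠ j' := by
        have : Nontrivial (Fin k) := Fin.nontrivial_iff_two_le.2 hk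
        obtain ⟨j', h⟩ := exists_ne j
        exact ⟨j', h.symm⟩
      refine ⟨j', fun y z hyz => ?_⟩
      beta_reduce
      rw [hyz j hj'])
  have h4 := h3 (fun _ _ => 1) (by simp) (fun _ _ _ _ => rfl)
  simp only [prod_const_one, mul_one] at h4
  have h5 : ((∑ y, ind (Q y ∧ FalseOn RR y) : ℝ) : ℂ) =
      ∑ y, sgi y * (indC (Q y) *
        ∏ j, indC (∀ p : Fin T × Fin l, p.1 ∈ RR → y j p = false)) := by
    rw [Complex.ofReal_sum]
    refine sum_congr rfl fun y _ => ?_
    have h6 : ∏ j, indC (∀ p : Fin T × Fin l, p.1 ∈ RR → y j p = false) =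
        indC (FalseOn RR y) := by
      by_cases h7 : FalseOn RR y
      · rw [tl_indC_eq (FalseOn RR y), if_pos h7]
        refine prod_eq_one fun j _ => ?_
        rw [tl_indC_eq, if_pos fun p hp => h7 j p hp]
      · rw [tl_indC_eq (FalseOn RR y), if_neg h7]
        have h8 : ∃ j, ¬ ∀ p : Fin T × Fin l, p.1 ∈ RR → y j p = false := by
          by_contra hcon
          push Not at hcon
          exact h7 fun j p hp => hcon j p hp
        obtain ⟨j, hj⟩ := h8
        refine prod_eq_zero (mem_univ j) ?_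
        rw [tl_indC_eq, if_neg hj]
    rw [h6, ← tl_indC_and]
    by_cases hy : Q y ∧ FalseOn RR y
    · rw [sgi_eq_one, one_mul]
      · rfl
      · intro r
        have h7 := hs _ hy.1 r
        by_cases hr : r ∈ RR
        · unfold gip
          have : (univ.filter fun i : Fin l => ∀ j, y j (r, i) = true) = ∅ := by
            refine filter_eq_empty_iff.2 fun i _ h8 => ?_
            have h9 := h8 ⟨0, by omega⟩
            rw [hy.2 _ (r, i) hr] at h9
            exact Bool.false_ne_true h9
          rw [this]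
          simp
        · have h8 : (fun j i => glue y₀ RR y j (r, i)) = fun j i => y j (r, i) := by
            funext j i
            unfold glue
            rw [if_neg hr]
          rwa [h8] at h7
    · unfold indC
      rw [ind_false hy]
      simp
  rw [← h5, Complex.norm_real] at h4
  exact (le_abs_self _).trans h4

/-- States outside of the tuples of `RR` are put to zero. -/
def msk {T l : ℕ} (RR : Finset (Fin T)) (y : Fin k → Fin T × Fin l → Bool) :
    Fin k → Fin T × Fin l → Bool := fun j p => if p.1 ∈ RR then y j p else false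

/-- States of the tuples of `RR` are put to zero. -/
def mskc {T l : ℕ} (RR : Finset (Fin T)) (y : Fin k → Fin T × Fin l → Bool) :
    Fin k → Fin T × Fin l → Bool := fun j p => if p.1 ∈ RR then false else y j p

theorem glue_self {T l : ℕ} (RR : Finset (Fin T)) (y : Fin k → Fin T × Fin l → Bool) :
    glue y RR y = y := by
  funext j p
  unfold glue
  split_ifs <;> rfl

theorem glue_msk {T l : ℕ} (RR : Finset (Fin T)) (y y' : Fin k → Fin T × Fin l → Bool) :
    glue (msk RR y) RR y' = glue y RR y' := by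
  funext j p
  unfold glue msk
  split_ifs <;> rfl

theorem glue_mskc {T l : ℕ} (RR : Finset (Fin T)) (y y' : Fin k → Fin T × Fin l → Bool) :
    glue y RR (mskc RR y') = glue y RR y' := by
  funext j p
  unfold glue mskc
  split_ifs <;> rfl

theorem msk_injective {T l : ℕ} (RR : Finset (Fin T)) :
    Function.Injective fun y : Fin k → Fin T × Fin l → Bool => (msk RR y, mskc RR y) := by
  intro y z h
  have ha : msk RR y = msk RR z := (Prod.ext_iff.1 h).1
  have hb : mskc RR y = mskc RR z := (Prod.ext_iff.1 h).2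
  have h1 : glue (msk RR y) RR (mskc RR y) = glue (msk RR z) RR (mskc RR z) := by
    rw [ha, hb]
  rwa [glue_msk, glue_mskc, glue_self, glue_msk, glue_mskc, glue_self] at h1

theorem falseOn_mskc {T l : ℕ} (RR : Finset (Fin T)) (y : Fin k → Fin T × Fin l → Bool) :
    FalseOn RR (mskc RR y) := by
  intro j p hp
  unfold mskc
  rw [if_pos hp]

theorem card_msk {T l : ℕ} (RR : Finset (Fin T)) :
    ((univ : Finset (Fin k → Fin T × Fin l → Bool)).image (msk RR)).card ≤
      2 ^ (k * (RR.card * l)) := by
  classical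
  have h1 : (univ : Finset (Fin k → Fin T × Fin l → Bool)).image (msk RR) ⊆
      (univ : Finset (Fin k → RR × Fin l → Bool)).image fun z =>
        (fun j p => if h : p.1 ∈ RR then z j (⟨p.1, h⟩, p.2) else false :
          Fin k → Fin T × Fin l → Bool) := by
    intro y hy
    obtain ⟨y', _, rfl⟩ := mem_image.1 hy
    refine mem_image.2 ⟨fun j p => y' j (p.1.1, p.2), mem_univ _, ?_⟩
    funext j p
    unfold msk
    split_ifs <;> rfl
  refine (card_le_card h1).trans (card_image_le.trans (le_of_eq ?_))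
  rw [card_univ, Fintype.card_fun, Fintype.card_fun, Fintype.card_prod, Fintype.card_coe,
    Fintype.card_fin, Fintype.card_fin, Fintype.card_bool, ← pow_mul, mul_comm]

/-- Row FINX: the number of states which satisfy an acceptance condition and for which there are
few tuples such that, if their states are fixed, every gate depends on few blocks. -/
theorem final_acc {T l o W h A : ℕ} (hk : 2 ≤ k) (acc : Fin A → (ℕ → Prop) → Prop) {B : ℝ}
    (hcyl : ∀ a, ∀ vals : (Fin k → Fin T × Fin l → Bool) → ℕ → Prop,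
      (∀ i ≤ o, ∃ Bs : Finset (Fin k × Fin T), Bs.card ≤ W ∧ DepOn Bs fun y => vals y i) →
      Cyl (fun y => indC (acc a (vals y))) B)
    (v : (Fin k → Fin T × Fin l → Bool) → ℕ → Prop)
    (hs : ∀ y, (∃ a, acc a (v y)) → ∀ r, ¬ gip fun j i => y j (r, i)) :
    ∑ y, ind ((∃ a, acc a (v y)) ∧ ∃ RR : Finset (Fin T), RR.card ≤ h ∧
      ∀ i ≤ o, ∃ Bs : Finset (Fin k × Fin T), Bs.card ≤ W ∧
        DepOn Bs fun y' => v (glue y RR y') i) ≤
      (T + 1) ^ h * 2 ^ (k * (h * l)) * (A * B) := by
  classical
  have hAB : 0 ≤ (A : ℝ) * B := by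
    rcases Nat.eq_zero_or_pos A with rfl | hA
    · simp
    · have h1 := hcyl ⟨0, hA⟩ (fun _ _ => False)
        (fun i _ => ⟨∅, by simp, fun _ _ _ => Iff.rfl⟩) (fun _ _ => 1) (by simp)
        (fun _ _ _ _ => rfl)
      exact mul_nonneg (Nat.cast_nonneg _) ((norm_nonneg _).trans h1)
  obtain ⟨NW, hNW⟩ : ∃ NW : Finset (Fin T) → (Fin k → Fin T × Fin l → Bool) → Prop,
      ∀ RR y, NW RR y ↔ ∀ i ≤ o, ∃ Bs : Finset (Fin k × Fin T), Bs.card ≤ W ∧
        DepOn Bs (fun y' => v (glue y RR y') i) := ⟨_, fun _ _ => Iff.rfl⟩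
  simp_rw [← hNW]
  have hmsk : ∀ RR y, NW RR (msk RR y) ↔ NW RR y := by
    intro RR y
    rw [hNW, hNW]
    simp_rw [glue_msk]
  -- one set `RR`
  have one : ∀ RR : Finset (Fin T), RR.card ≤ h →
      ∑ y, ind ((∃ a, acc a (v y)) ∧ NW RR y) ≤ 2 ^ (k * (h * l)) * (A * B) := by
    intro RR hRR
    set S : Finset (Fin k → Fin T × Fin l → Bool) := univ.image (msk RR) with hS
    set Q : Finset (Fin k → Fin T × Fin l → Bool) := univ.filter (FalseOn RR) with hQ
    let f : (Fin k → Fin T × Fin l → Bool) × (Fin k → Fin T × Fin l → Bool) → ℝ := fun p =>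
      ind ((∃ a, acc a (v (glue p.1 RR p.2))) ∧ NW RR p.1)
    have e1 : ∀ y, ind ((∃ a, acc a (v y)) ∧ NW RR y) =
        f (msk RR y, mskc RR y) := by
      intro y
      simp only [f]
      rw [glue_msk, glue_mskc, glue_self]
      congr 1
      rw [hmsk]
    have e2 : ∑ y, ind ((∃ a, acc a (v y)) ∧ NW RR y) ≤ ∑ p ∈ S ×ˢ Q, f p := by
      simp_rw [e1]
      rw [← sum_image (g := fun y => (msk RR y, mskc RR y)) (f := f)
        (fun y _ z _ hyz => msk_injective RR hyz)]
      refine sum_le_sum_of_subset_of_nonneg ?_ fun p _ _ => ind_nonneg _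
      intro p hp
      obtain ⟨y, _, rfl⟩ := mem_image.1 hp
      exact mem_product.2 ⟨mem_image_of_mem _ (mem_univ y),
        mem_filter.2 ⟨mem_univ _, falseOn_mskc RR y⟩⟩
    have e3 : ∀ y₀, ∑ y ∈ Q, f (y₀, y) ≤ A * B := by
      intro y₀
      by_cases hy : NW RR y₀
      · have e4 : ∀ y, (if FalseOn RR y then f (y₀, y) else 0) ≤
            ∑ a, ind (acc a (v (glue y₀ RR y)) ∧ FalseOn RR y) := by
          intro y
          split_ifs with h1
          · by_cases h2 : ∃ a, acc a (v (glue y₀ RR y))
            · obtain ⟨a, ha⟩ := h2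
              refine (ind_le_one _).trans ?_
              rw [← ind_true (show acc a (v (glue y₀ RR y)) ∧ FalseOn RR y from ⟨ha, h1⟩)]
              exact single_le_sum (f := fun a => ind (acc a (v (glue y₀ RR y)) ∧ FalseOn RR y))
                (fun a _ => ind_nonneg _) (mem_univ a)
            · simp only [f]
              rw [ind_false fun h3 => h2 h3.1]
              exact sum_nonneg fun a _ => ind_nonneg _
          · exact sum_nonneg fun a _ => ind_nonneg _
        rw [hQ, sum_filter]
        refine (sum_le_sum fun y _ => e4 y).trans ?_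
        rw [sum_comm]
        refine (sum_le_sum fun a _ => count_glue hk (fun y => acc a (v (glue y₀ RR y))) RR y₀
          (fun y hy' => hs _ ⟨a, hy'⟩)
          (hcyl a (fun y => v (glue y₀ RR y)) ((hNW _ _).1 hy))).trans (le_of_eq ?_)
        rw [sum_const, card_univ, Fintype.card_fin, nsmul_eq_mul]
      · have e4 : ∀ y ∈ Q, f (y₀, y) = 0 := by
          intro y _
          simp only [f]
          exact ind_false fun h3 => hy h3.2
        rw [sum_congr rfl e4, sum_const_zero]
        exact hAB
    refine e2.trans ?_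
    rw [sum_product]
    refine (sum_le_sum fun y₀ _ => e3 y₀).trans ?_
    rw [sum_const, nsmul_eq_mul]
    refine mul_le_mul_of_nonneg_right ?_ hAB
    have e5 : S.card ≤ 2 ^ (k * (h * l)) := (card_msk RR).trans
      (Nat.pow_le_pow_right two_pos (Nat.mul_le_mul_left _ (Nat.mul_le_mul_right _ hRR)))
    exact_mod_cast e5
  -- all sets `RR`
  set P : Finset (Finset (Fin T)) := univ.powerset.filter fun Z => Z.card ≤ h with hP
  have hPc : P.card ≤ (T + 1) ^ h := by
    have := card_small (univ : Finset (Fin T)) h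
    rwa [card_univ, Fintype.card_fin] at this
  have h1 : ∀ y, ind ((∃ a, acc a (v y)) ∧ ∃ RR : Finset (Fin T), RR.card ≤ h ∧
      NW RR y) ≤ ∑ RR ∈ P, ind ((∃ a, acc a (v y)) ∧ NW RR y) := by
    intro y
    by_cases h2 : (∃ a, acc a (v y)) ∧ ∃ RR : Finset (Fin T), RR.card ≤ h ∧ NW RR y
    · obtain ⟨h3, RR, hRR, h4⟩ := h2
      refine (ind_le_one _).trans ?_
      rw [← ind_true (show (∃ a, acc a (v y)) ∧ NW RR y from ⟨h3, h4⟩)]
      exact single_le_sum (f := fun RR => ind ((∃ a, acc a (v y)) ∧ NW RR y))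
        (fun RR _ => ind_nonneg _) (mem_filter.2 ⟨mem_powerset.2 (subset_univ _), hRR⟩)
    · rw [ind_false h2]
      exact sum_nonneg fun a _ => ind_nonneg _
  refine (sum_le_sum fun y _ => h1 y).trans ?_
  rw [sum_comm]
  refine (sum_le_sum fun RR hRR => one RR (mem_filter.1 hRR).2).trans ?_
  rw [sum_const, nsmul_eq_mul, mul_assoc]
  refine mul_le_mul_of_nonneg_right ?_ (by positivity)
  exact_mod_cast hPc

end parties

end UniCore
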