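import Pool.Agent.Lib.UNI.Base

/-! # PROJECT UNI, row GLUE: dependence on the states of the tuples which are not exposed -/

open Finset

namespace UniCore

open SmallDepth CliqueDepth CliqueCert

variable {k T N l n : ℕ} {Λ E : Type}

/-- The coordinates of planted units outside of `A` which are true in `asg G u y'`. -/
private def Xa (u : Fin k × Fin T → Fin N) (A : Finset (Fin T))
    (y' : Fin k → Fin T × Fin l → Bool) : Finset (Crd k T N l) :=
  (Pa l u A).filter fun e => e.2.elim true (fun i => y' e.1.1.1 (e.1.1.2, i)) = true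

private theorem mem_Pc' {u : Fin k × Fin T → Fin N} {e : Crd k T N l} :
    e ∈ Pc l u ↔ e.1.2 = u e.1.1 := by
  unfold Pc
  rw [mem_image]
  constructor
  · rintro ⟨e', -, rfl⟩
    rfl
  · intro h
    refine ⟨(e.1.1, e.2), mem_univ _, ?_⟩
    refine Prod.ext (Prod.ext rfl ?_) rfl
    exact h.symm

private theorem mem_Pa' {u : Fin k × Fin T → Fin N} {A : Finset (Fin T)} {e : Crd k T N l} :
    e ∈ Pa l u A ↔ e.1.2 = u e.1.1 ∧ e.1.1.2 ∉ A := by
  unfold Pa
  rw [mem_filter, mem_Pc']

private theorem asg_glue (G : Crd k T N l → Bool) (u : Fin k × Fin T → Fin N)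
    (A : Finset (Fin T)) (y y' : Fin k → Fin T × Fin l → Bool) :
    asg G u (glue y A y') = fl (gx G u y A) (Pa l u A) (Xa u A y') := by
  funext e
  unfold asg fl
  by_cases h : e.1.2 = u e.1.1
  · rw [if_pos h]
    by_cases hA : e.1.1.2 ∈ A
    · rw [if_neg fun h' => (mem_Pa'.1 h').2 hA]
      unfold gx
      rw [if_pos ⟨hA, h⟩]
      cases h2 : e.2 with
      | none => rfl
      | some i =>
        show glue y A y' e.1.1.1 (e.1.1.2, i) = y e.1.1.1 (e.1.1.2, i)
        unfold glue
        rw [if_pos hA]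
    · rw [if_pos (mem_Pa'.2 ⟨h, hA⟩)]
      unfold Xa
      simp only [mem_filter, mem_Pa'.2 ⟨h, hA⟩, true_and, Bool.decide_eq_true]
      cases h2 : e.2 with
      | none => rfl
      | some i =>
        show glue y A y' e.1.1.1 (e.1.1.2, i) = y' e.1.1.1 (e.1.1.2, i)
        unfold glue
        rw [if_neg hA]
  · rw [if_neg h, if_neg fun h' => h (mem_Pa'.1 h').1]
    unfold gx
    rw [if_neg fun h' => h h'.2]

/-- Row GLUE, part 1 (see CERT/Depy.lean; use `dep_inter`). -/
theorem dep_glue (g : (Crd k T N l → Bool) → Prop) (G : Crd k T N l → Bool)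
    (u : Fin k × Fin T → Fin N) (A : Finset (Fin T)) (y : Fin k → Fin T × Fin l → Bool) :
    ∃ B : Finset (Fin k × Fin T), B.card ≤ tch (dep g (gx G u y A) (Pa l u A)) ∧
      DepOn B fun y' => g (asg G u (glue y A y')) := by
  refine ⟨(dep g (gx G u y A) (Pa l u A)).image fun e => e.1.1, ?_, ?_⟩
  · unfold tch
    have h : ((dep g (gx G u y A) (Pa l u A)).image fun e => e.1.1) =
        ((dep g (gx G u y A) (Pa l u A)).image fun e => e.1).image fun e => e.1 := by
      rw [image_image]
      rfl
    rw [h]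
    exact card_image_le
  · intro y₁ y₂ hyz
    show g (asg G u (glue y A y₁)) ↔ g (asg G u (glue y A y₂))
    rw [asg_glue, asg_glue, dep_inter g (gx G u y A) (Pa l u A) (Xa u A y₁) _ Subset.rfl,
      dep_inter g (gx G u y A) (Pa l u A) (Xa u A y₂) _ Subset.rfl]
    have h1 : Xa u A y₁ ∩ dep g (gx G u y A) (Pa l u A) =
        Xa u A y₂ ∩ dep g (gx G u y A) (Pa l u A) := by
      ext e
      simp only [mem_inter]
      refine and_congr_left fun he => ?_
      unfold Xa
      rw [mem_filter, mem_filter]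
      refine and_congr_right fun _ => ?_
      have hb := hyz e.1.1 (mem_image.2 ⟨e, he, rfl⟩)
      cases h : e.2 with
      | none => simp
      | some i => simp [hb i]
    rw [h1]

/-- Row GLUE, part 2. -/
theorem gx_glue (G : Crd k T N l → Bool) (u : Fin k × Fin T → Fin N) (A : Finset (Fin T))
    (y y' : Fin k → Fin T × Fin l → Bool) : gx G u (glue y A y') A = gx G u y A := by
  funext e
  unfold gx
  by_cases h : e.1.1.2 ∈ A ∧ e.1.2 = u e.1.1
  · rw [if_pos h, if_pos h]
    cases h2 : e.2 with
    | none => rfl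
    | some i =>
      show glue y A y' e.1.1.1 (e.1.1.2, i) = y e.1.1.1 (e.1.1.2, i)
      unfold glue
      rw [if_pos h.1]
  · rw [if_neg h, if_neg h]

end UniCore
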