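import Pool.Agent.Lib.UNI.Cws

/-!
# PROJECT UNI, row GREEDY: a maximal chain of witnesses
-/

open Finset

namespace UniCore

open SmallDepth CliqueDepth CliqueCert

variable {k T N l n : ℕ} {Λ E : Type}

/-- Row GREEDY: if there is no chain of `S` witnesses, then a maximal chain exposes a set without
witness outside. -/
theorem greedy (P : Stp k T N l n Λ E) (ζ : E → Prop) (y : Fin k → Fin T × Fin l → Bool)
    (v : Dat k T N Λ) (S : ℕ) (h : ∀ A, P.cw ζ y v S A = 0) :
    ∃ A : Finset (Fin T), A.card ≤ 2 * P.W * S ∧ P.wo ζ y v A = 0 := by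
  by_contra hcon
  push Not at hcon
  have key : ∀ a ≤ S, ∃ A, P.cw ζ y v a A ≠ 0 := by
    intro a
    induction a with
    | zero => exact fun _ => ⟨∅, by simp [Stp.cw]⟩
    | succ a ih =>
      intro ha
      obtain ⟨A, hA⟩ := ih (by omega)
      have hcard : A.card ≤ 2 * P.W * S := by
        by_contra h1
        push Not at h1
        apply hA
        apply cw_eq_zero
        exact lt_of_le_of_lt (Nat.mul_le_mul_left _ (by omega)) h1
      have h1 : 0 < P.cw ζ y v a A * P.wo ζ y v A :=
        mul_pos (lt_of_le_of_ne (cw_nonneg P ζ y v a A) hA.symm)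
          (lt_of_le_of_ne (Cws.wo_nonneg P ζ y v A) (hcon A hcard).symm)
      have h2 : 0 < ∑ A, P.cw ζ y v (a + 1) A := by
        rw [sum_cw_succ]
        exact lt_of_lt_of_le h1 (single_le_sum
          (f := fun A => P.cw ζ y v a A * P.wo ζ y v A)
          (fun B _ => mul_nonneg (cw_nonneg P ζ y v a B) (Cws.wo_nonneg P ζ y v B))
          (mem_univ A))
      by_contra h3
      push Not at h3
      rw [sum_eq_zero fun B _ => h3 B] at h2
      exact lt_irrefl _ h2
  obtain ⟨A, hA⟩ := key S le_rfl
  exact hA (h A)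

end UniCore
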