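import Pool.Agent.Lib.UNI.BigDefs

/-! # PROJECT UNI, row GUESS: the outputs of the big gates are guessed -/

open Finset

namespace CliqueCert

open SmallDepth (Circuit)

theorem exists_gap {α : Type*} (H : Finset α) (f : α → ℝ) (θ : ℝ) :
    ∃ η : ℝ, 0 < η ∧ ∀ X ∈ H, ¬ θ ≤ f X → f X + η ≤ θ := by
  classical
  induction H using Finset.induction_on with
  | empty => exact ⟨1, one_pos, by simp⟩
  | insert g H _ ih =>
    obtain ⟨η, h0, h1⟩ := ih
    by_cases hg : θ ≤ f g
    · refine ⟨η, h0, fun g' hg' hn => ?_⟩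
      rcases mem_insert.1 hg' with rfl | h
      · exact absurd hg hn
      · exact h1 g' h hn
    · push Not at hg
      refine ⟨min η (θ - f g), lt_min h0 (by linarith), fun g' hg' hn => ?_⟩
      rcases mem_insert.1 hg' with rfl | h
      · linarith [min_le_right η (θ - f g')]
      · linarith [h1 g' h hn, min_le_left η (θ - f g)]

theorem trueSets_mem (o D : ℕ) (v : ℕ → Prop) :
    trueSets o D v ∈ ((range (o + 1)).powerset).powerset := by
  classical
  rw [mem_powerset]
  unfold trueSets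
  exact filter_subset _ _

/-- A threshold is false if and only if another inequality is true. -/
theorem exists_neg (o D : ℕ) (w : Finset ℕ → ℝ) (θ : ℝ) : ∃ θ' : ℝ, ∀ v : ℕ → Prop,
    (¬ θ ≤ ∑ S ∈ trueSets o D v, w S) ↔ θ' ≤ ∑ S ∈ trueSets o D v, - w S := by
  obtain ⟨η, h0, h1⟩ := exists_gap ((range (o + 1)).powerset).powerset
    (fun X => ∑ S ∈ X, w S) θ
  refine ⟨-θ + η, fun v => ?_⟩
  rw [sum_neg_distrib]
  constructor
  · intro h
    have := h1 _ (trueSets_mem o D v) h
    linarith
  · intro h h2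
    linarith

/-- The group of a big gate. -/
def Big.G : Big → Type
  | .thr _ _ => Unit
  | @Big.grp Γ _ _ _ _ => Γ

instance (g : Big) : AddCommGroup g.G :=
  match g with
  | .thr _ _ => inferInstanceAs (AddCommGroup Unit)
  | @Big.grp _ h _ _ _ => h

instance (g : Big) : Finite g.G :=
  match g with
  | .thr _ _ => inferInstanceAs (Finite Unit)
  | @Big.grp _ _ h _ _ => h

theorem Big.card_G (g : Big) : Nat.card g.G = g.card := by
  cases g with
  | thr w θ => exact Nat.card_unique (α := Unit)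
  | grp Γ c T => rfl

/-- The coefficients of the equation of a big gate. -/
def Big.eqc : (g : Big) → Finset ℕ → g.G
  | .thr _ _ => fun _ => ()
  | @Big.grp _ _ _ c _ => c

/-- The guess `b` for the big gate is right if the sum is `x`. -/
def Big.Ok : (g : Big) → Bool → g.G → Prop
  | .thr _ _ => fun _ _ => True
  | @Big.grp _ _ _ _ T => fun b x => (b = true ↔ x ∈ T)

/-- The inequality of a big gate. -/
theorem Big.exists_ineq (g : Big) (o D : ℕ) (b : Bool) : ∃ (w : Finset ℕ → ℝ) (θ : ℝ),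
    ∀ v : ℕ → Prop, ((b = true ↔ g.Val o D v) ↔
      (g.Ok b (∑ S ∈ trueSets o D v, g.eqc S) ∧ θ ≤ ∑ S ∈ trueSets o D v, w S)) := by
  cases g with
  | thr w θ =>
    cases b with
    | true =>
      refine ⟨w, θ, fun v => ?_⟩
      simp [Big.Val, Big.Ok]
    | false =>
      obtain ⟨θ', h⟩ := exists_neg o D w θ
      refine ⟨fun S => - w S, θ', fun v => ?_⟩
      rw [← h v]
      simp [Big.Val, Big.Ok]
  | grp Γ c T =>
    refine ⟨fun _ => 0, 0, fun v => ?_⟩
    rw [sum_const_zero]
    exact ⟨fun h => ⟨h, le_refl _⟩, fun h => h.1⟩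

theorem exists_enum {G : Type} [AddCommGroup G] [Finite G] {g : ℕ} (hg : Nat.card G ≤ g) :
    ∃ e : Fin g → G, Function.Surjective e := by
  classical
  obtain ⟨ε⟩ : Nonempty (G ≃ Fin (Nat.card G)) := ⟨Finite.equivFin G⟩
  refine ⟨fun i => if h : (i : ℕ) < Nat.card G then ε.symm ⟨i, h⟩ else 0, fun x => ?_⟩
  refine ⟨⟨ε x, (ε x).isLt.trans_le hg⟩, ?_⟩
  beta_reduce
  rw [dif_pos (ε x).isLt]
  simp

/-- Row GUESS. -/
theorem HasBig.hasGuess {n k d f s D t A q r g : ℕ} (h : HasBig n k d f s D t A q r g) :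
    HasGuess n k d f s D (t + r) (A * g ^ r) (q + r) := by
  classical
  obtain ⟨C, o, β, τ, hs, hd, hg, hiff⟩ := h
  choose w' θ' hw' using fun (j : Fin r) (b : Bool) => (β j).exists_ineq o D b
  choose e he using fun j : Fin r => exists_enum (G := (β j).G) (g := g)
    (by rw [Big.card_G]; exact hg j)
  -- the tests
  let tst : (Fin q → Bool) → (Fin r → Bool) → Fin A → (Fin r → Fin g) → Test (t + r) :=
    fun z b a m =>
    { Γ := (τ z a).Γ × ((∀ j, (β j).G) × ZMod 2)
      c := fun S => ((τ z a).c S, ((fun j => (β j).eqc S), 0))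
      b := ((τ z a).b, ((fun j => e j (m j)),
        if ∀ j, (β j).Ok (b j) (e j (m j)) then 0 else 1))
      w := Fin.append (τ z a).w fun j => w' j (b j)
      θ := Fin.append (τ z a).θ fun j => θ' j (b j) }
  have htst : ∀ z b a m v, (tst z b a m).Passes o D v ↔ (τ z a).Passes o D v ∧
      (∀ j, ∑ S ∈ trueSets o D v, (β j).eqc S = e j (m j)) ∧
      (∀ j, (β j).Ok (b j) (e j (m j))) ∧
      ∀ j, θ' j (b j) ≤ ∑ S ∈ trueSets o D v, w' j (b j) S := by
    intro z b a m v
    unfold Test.Passes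
    simp only [tst]
    rw [Prod.ext_iff, Prod.ext_iff, Prod.fst_sum, Prod.snd_sum, Prod.fst_sum, Prod.snd_sum]
    simp only [sum_const_zero]
    rw [funext_iff]
    simp only [Finset.sum_apply]
    have h1 : ((0 : ZMod 2) = if ∀ j, (β j).Ok (b j) (e j (m j)) then 0 else 1) ↔
        ∀ j, (β j).Ok (b j) (e j (m j)) := by
      split_ifs with h2
      · exact ⟨fun _ => h2, fun _ => rfl⟩
      · exact ⟨fun h3 => absurd h3 (by decide), fun h3 => absurd h3 h2⟩
    rw [h1]
    have h2 : (∀ j : Fin (t + r), Fin.append (τ z a).θ (fun j => θ' j (b j)) j ≤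
        ∑ S ∈ trueSets o D v, Fin.append (τ z a).w (fun j => w' j (b j)) j S) ↔
        (∀ j, (τ z a).θ j ≤ ∑ S ∈ trueSets o D v, (τ z a).w j S) ∧
          ∀ j, θ' j (b j) ≤ ∑ S ∈ trueSets o D v, w' j (b j) S := by
      constructor
      · intro h3
        refine ⟨fun j => ?_, fun j => ?_⟩
        · have := h3 (Fin.castAdd r j)
          simpa only [Fin.append_left] using this
        · have := h3 (Fin.natAdd t j)
          simpa only [Fin.append_right] using this
      · rintro ⟨h3, h4⟩ j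
        refine Fin.addCases (fun j => ?_) (fun j => ?_) j
        · simpa only [Fin.append_left] using h3 j
        · simpa only [Fin.append_right] using h4 j
    rw [h2]
    tauto
  let dec : Fin (A * g ^ r) ≃ Fin A × (Fin r → Fin g) :=
    finProdFinEquiv.symm.trans (Equiv.prodCongr (Equiv.refl _) finFunctionFinEquiv.symm)
  refine ⟨Fin q ⊕ Fin r, inferInstance, C, o,
    fun ζ x => tst (fun i => ζ (Sum.inl i)) (fun j => ζ (Sum.inr j)) (dec x).1 (dec x).2,
    by simp, hs, hd, fun G => ?_⟩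
  rw [hiff G]
  have hv : ∀ ζ : Fin q ⊕ Fin r → Bool,
      C.val (Sum.elim (fun e => G.Adj e.1 e.2) fun i => ζ i = true) =
        bigVal C G (fun i => ζ (Sum.inl i)) (fun j => ζ (Sum.inr j)) := by
    intro ζ
    unfold bigVal
    congr 2
    funext i
    rcases i with i | j <;> rfl
  constructor
  · rintro ⟨z, b, hb, a, ha⟩
    choose m hm using fun j => he j (∑ S ∈ trueSets o D (bigVal C G z b), (β j).eqc S)
    refine ⟨Sum.elim z b, dec.symm (a, m), ?_⟩
    beta_reduce
    rw [hv]
    have e1 : (dec (dec.symm (a, m))) = (a, m) := dec.apply_symm_apply _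
    rw [e1]
    show (tst z b a m).Passes o D (bigVal C G z b)
    rw [htst]
    refine ⟨ha, fun j => (hm j).symm, fun j => ?_, fun j => ?_⟩
    · rw [hm j]
      exact ((hw' j (b j) _).1 (hb j)).1
    · exact ((hw' j (b j) _).1 (hb j)).2
  · rintro ⟨ζ, x, hx⟩
    beta_reduce at hx
    rw [hv, htst] at hx
    obtain ⟨h1, h2, h3, h4⟩ := hx
    refine ⟨_, _, fun j => ?_, _, h1⟩
    refine (hw' j _ _).2 ⟨?_, h4 j⟩
    rw [h2 j]
    exact h3 j

end CliqueCert
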