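import Pool.Agent.Lib.UNI.Base
import Pool.Agent.Lib.CERT.Num
import Pool.Agent.Lib.CERT.Cardx

/-!
# Project UNI, row NUM: the choice of the parameters (helper16)

`Φ = q + f + log n`, `S = q + 1`, `m = C (q + 1) L`, `2 ^ L ≥ n`, `θ = 1 / (100 (f + 1) (m + 1))`,
`m₀ ≈ n ^ ((6 l + 7) c)`, `T ≈ n ^ (1 - γ + 4 c)`, `N ≈ n / (k 2 ^ (k l) T)`, `N₁ = N / m₀`.
-/

set_option linter.unusedVariables false

open Filter Topology

namespace UniCore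

open SmallDepth CliqueDepth CliqueCert

namespace Num

theorem part_b {x a α y : ℝ} (hx : 1 ≤ x) {m₀ : ℕ} {K : ℝ} (hK : K ≤ x) (hy : x ^ (-a) ≤ y)
    (hy1 : y ≤ 1) (hm : x ^ (a + α) ≤ m₀) (h5 : 4 * x ≤ Real.exp (x ^ α)) :
    K * (1 - y) ^ m₀ ≤ 1 / 4 := by
  have x0 : 0 < x := by linarith
  have hy0 : 0 ≤ y := le_trans (Real.rpow_nonneg x0.le _) hy
  have h1 : (1 - y) ^ m₀ ≤ Real.exp (-(x ^ α)) := by
    calc (1 - y) ^ m₀ ≤ Real.exp (-y) ^ m₀ :=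
          pow_le_pow_left₀ (by linarith) (Real.one_sub_le_exp_neg y) _
      _ = Real.exp (m₀ * (-y)) := by rw [← Real.exp_nat_mul]
      _ ≤ Real.exp (-(x ^ α)) := by
          apply Real.exp_le_exp.mpr
          have h2 : x ^ α ≤ m₀ * y := by
            calc x ^ α = x ^ (a + α) * x ^ (-a) := by
                  rw [← Real.rpow_add x0]; congr 1; ring
              _ ≤ m₀ * y := mul_le_mul hm hy (Real.rpow_nonneg x0.le _) (Nat.cast_nonneg _)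
          linarith
  have h3 : (0 : ℝ) ≤ (1 - y) ^ m₀ := pow_nonneg (by linarith) _
  calc K * (1 - y) ^ m₀ ≤ x * Real.exp (-(x ^ α)) :=
        mul_le_mul hK h1 h3 x0.le
    _ ≤ 1 / 4 := by
        rw [Real.exp_neg, ← div_eq_mul_inv, div_le_div_iff₀ (Real.exp_pos _) (by norm_num)]
        linarith

theorem evB_le {K m f : ℕ} {Φ : ℝ} (h2 : 2 ≤ Φ) (hf : (f : ℝ) + 1 ≤ Φ ^ 2)
    (hm : (m : ℝ) + 1 ≤ Φ ^ 3) :
    (evB K m f : ℝ) ≤ Φ ^ ((K + 2 + 3 * 2 ^ K) * (K + 1)) := by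
  have h0 : 0 ≤ Φ := by linarith
  unfold evB
  push_cast
  calc ((2 : ℝ) ^ K * (f + 1) * (m + 1) ^ (2 ^ K)) ^ (K + 1)
      ≤ (Φ ^ K * Φ ^ 2 * (Φ ^ 3) ^ (2 ^ K)) ^ (K + 1) := by gcongr
    _ = Φ ^ ((K + 2 + 3 * 2 ^ K) * (K + 1)) := by
        rw [← pow_mul Φ 3, ← pow_add, ← pow_add, ← pow_mul]

theorem theta_le {x c Φ : ℝ} {d l f m : ℕ} (hx : 1 ≤ x) (h100 : 100 ≤ Φ)
    (hf : (f : ℝ) + 1 ≤ Φ ^ 2) (hm : (m : ℝ) + 1 ≤ Φ ^ 3) (hd : Φ ^ d ≤ x ^ c) :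
    x ^ (-(6 * (l + 1) * c : ℝ)) ≤ ((1 / (100 * (f + 1) * (m + 1)) : ℝ) ^ d) ^ (l + 1) := by
  have x0 : 0 < x := by linarith
  have h0 : 0 < Φ := by linarith
  have h1 : (100 * (f + 1) * (m + 1) : ℝ) ≤ Φ ^ 6 := by
    calc (100 * (f + 1) * (m + 1) : ℝ) ≤ Φ * Φ ^ 2 * Φ ^ 3 := by gcongr
      _ = Φ ^ 6 := by ring
  have h2 : 1 / Φ ^ 6 ≤ (1 / (100 * (f + 1) * (m + 1)) : ℝ) :=
    one_div_le_one_div_of_le (by positivity) h1
  have h3 : (x ^ c) ^ 6 = x ^ (6 * c) := by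
    rw [← Real.rpow_natCast, ← Real.rpow_mul x0.le]
    congr 1
    push_cast
    ring
  calc x ^ (-(6 * (l + 1) * c : ℝ)) = (1 / (x ^ c) ^ 6) ^ (l + 1) := by
        rw [h3, one_div, ← Real.rpow_neg x0.le, ← Real.rpow_natCast (x ^ (-(6 * c))),
          ← Real.rpow_mul x0.le]
        congr 1
        push_cast
        ring
    _ ≤ ((1 / Φ ^ 6) ^ d) ^ (l + 1) := by
        apply pow_le_pow_left₀ (by positivity)
        rw [one_div_pow, ← pow_mul, mul_comm 6 d, pow_mul]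
        apply one_div_le_one_div_of_le (by positivity)
        exact pow_le_pow_left₀ (by positivity) hd 6
    _ ≤ _ := by
        apply pow_le_pow_left₀ (by positivity)
        exact pow_le_pow_left₀ (by positivity) h2 d

/-- the probability of one witness -/
theorem part_p {x γ ε c μ ν s Q ev E : ℝ} (hx : 1 ≤ x) {W : ℕ} {N₁ : ℝ} (hεγ : ε ≤ γ)
    (hε : 0 < ε) (hν : ν = γ - 3 * (2 * c) - μ)
    (hs : s ≤ x ^ (γ * (W + 1 : ℕ) - ε))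
    (hQ0 : 0 ≤ Q) (hQ : Q ≤ x ^ (ε / 8)) (he0 : 0 ≤ ev) (he : ev ≤ x ^ (E * c))
    (hN : x ^ ν ≤ N₁) (hmu : (W + 1 : ℝ) * (6 * c + μ) + E * c ≤ ε / 8)
    (h10 : 16 ≤ x ^ (3 * ε / 4)) :
    (s + 1) * Q * (ev / N₁ ^ (W + 1)) ≤ 1 / 8 := by
  have x0 : 0 < x := by linarith
  have hN0 : 0 < N₁ := lt_of_lt_of_le (by positivity) hN
  have hs1 : s + 1 ≤ 2 * x ^ (γ * (W + 1 : ℕ) - ε) := by
    have h1 : 1 ≤ x ^ (γ * (W + 1 : ℕ) - ε) := by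
      apply Real.one_le_rpow hx
      push_cast
      have : 0 ≤ γ * W := mul_nonneg (by linarith) (Nat.cast_nonneg W)
      nlinarith
    linarith
  have hN' : x ^ (ν * (W + 1 : ℕ)) ≤ N₁ ^ (W + 1) := by
    rw [Real.rpow_mul x0.le, Real.rpow_natCast]
    exact pow_le_pow_left₀ (by positivity) hN _
  calc (s + 1) * Q * (ev / N₁ ^ (W + 1))
      ≤ (2 * x ^ (γ * (W + 1 : ℕ) - ε)) * x ^ (ε / 8) *
        (x ^ (E * c) / x ^ (ν * (W + 1 : ℕ))) := by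
        gcongr
    _ = 2 * x ^ (γ * (W + 1 : ℕ) - ε + ε / 8 + (E * c - ν * (W + 1 : ℕ))) := by
        rw [Real.rpow_add x0, Real.rpow_add x0, Real.rpow_sub x0 (E * c)]; ring
    _ ≤ 2 * x ^ (-(3 * ε / 4)) := by
        apply mul_le_mul_of_nonneg_left _ (by norm_num)
        apply Real.rpow_le_rpow_of_exponent_le hx
        rw [hν]
        push_cast
        nlinarith
    _ ≤ 1 / 8 := by
        rw [Real.rpow_neg x0.le, ← div_eq_mul_inv, div_le_div_iff₀ (by positivity) (by norm_num)]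
        linarith

theorem term_one {p : ℝ} {q : ℕ} (hp0 : 0 ≤ p) (hp : p ≤ 1 / 8) :
    (2 : ℝ) ^ q * 2 ^ q * p ^ (q + 1) ≤ 1 / 8 := by
  have h1 : (2 : ℝ) ^ q * 2 ^ q * p ^ (q + 1) = p * (4 * p) ^ q := by
    rw [mul_pow, pow_succ, ← mul_pow]
    norm_num
    ring
  rw [h1]
  calc p * (4 * p) ^ q ≤ p * 1 := by
        apply mul_le_mul_of_nonneg_left _ hp0
        exact pow_le_one₀ (by linarith) (by linarith)
    _ ≤ 1 / 8 := by linarith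

/-- the term with the bad events of the switching lemma -/
theorem term_two {x s Q M T e : ℝ} {q k W m C : ℕ} (hx : 32 ≤ x) (hs0 : 0 ≤ s)
    (hs : s + 1 ≤ x ^ (W + 2)) (hQ0 : 0 ≤ Q) (hQ : Q ≤ x) (hM0 : 0 ≤ M)
    (hM : M + 1 ≤ x ^ (2 * W + 1)) (hT0 : 0 ≤ T) (hT : T + 1 ≤ x ^ 2) (he0 : 0 ≤ e)
    (he : e ≤ x ^ (4 * k + 2)) (hm : x ^ (C * (q + 1)) ≤ (2 : ℝ) ^ m)
    (hC : C = 11 * W + 15 + (4 * k + 2) * (2 * W)) :
    (2 : ℝ) ^ q * 2 ^ q * ((q + 1 : ℕ) * ((s + 1) * Q * (M + 1) *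
      (((s + 1) * (M + 1)) ^ (q + 1) * (T + 1) ^ (2 * W * (q + 1)) *
        e ^ (2 * W * (q + 1)) * (2 * (2 ^ q * 2 ^ q * ((s + 1) * (2 / 2 ^ m))))))) ≤ 1 / 8 := by
  have x0 : 0 < x := by linarith
  have x1 : 1 ≤ x := by linarith
  have h2 : (2 : ℝ) ^ q ≤ x ^ q := pow_le_pow_left₀ (by norm_num) (by linarith) q
  have h3 : ((q + 1 : ℕ) : ℝ) ≤ x ^ q := by
    have : q + 1 ≤ 2 ^ q := Nat.lt_two_pow_self
    calc ((q + 1 : ℕ) : ℝ) ≤ ((2 ^ q : ℕ) : ℝ) := by exact_mod_cast this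
      _ = 2 ^ q := by push_cast; rfl
      _ ≤ x ^ q := h2
  have h4 : (2 : ℝ) / 2 ^ m ≤ 2 / x ^ (C * (q + 1)) := by gcongr
  calc (2 : ℝ) ^ q * 2 ^ q * ((q + 1 : ℕ) * ((s + 1) * Q * (M + 1) *
      (((s + 1) * (M + 1)) ^ (q + 1) * (T + 1) ^ (2 * W * (q + 1)) *
        e ^ (2 * W * (q + 1)) * (2 * (2 ^ q * 2 ^ q * ((s + 1) * (2 / 2 ^ m)))))))
      ≤ x ^ q * x ^ q * (x ^ q * (x ^ (W + 2) * x * x ^ (2 * W + 1) *
      ((x ^ (W + 2) * x ^ (2 * W + 1)) ^ (q + 1) * (x ^ 2) ^ (2 * W * (q + 1)) *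
        (x ^ (4 * k + 2)) ^ (2 * W * (q + 1)) *
          (2 * (x ^ q * x ^ q * (x ^ (W + 2) * (2 / x ^ (C * (q + 1))))))))) := by
        gcongr
    _ = 4 * (x ^ (q + q + q + (W + 2) + 1 + (2 * W + 1) + ((W + 2) + (2 * W + 1)) * (q + 1) +
          2 * (2 * W * (q + 1)) + (4 * k + 2) * (2 * W * (q + 1)) + q + q + (W + 2)) /
          x ^ (C * (q + 1))) := by
        rw [← pow_add x (W + 2) (2 * W + 1), ← pow_mul, ← pow_mul, ← pow_mul]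
        simp only [pow_add x, pow_one]
        ring
    _ ≤ 4 * (x ^ ((C - 1) * (q + 1)) / x ^ (C * (q + 1))) := by
        apply mul_le_mul_of_nonneg_left _ (by norm_num)
        apply div_le_div_of_nonneg_right _ (by positivity)
        apply pow_le_pow_right₀ x1
        rw [hC]
        have : 11 * W + 15 + (4 * k + 2) * (2 * W) - 1 = 11 * W + 14 + (4 * k + 2) * (2 * W) := by
          omega
        rw [this]
        nlinarith [Nat.zero_le (W * q)]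
    _ = 4 * (1 / x ^ (q + 1)) := by
        obtain ⟨C', hC'⟩ : ∃ C', C = C' + 1 := ⟨C - 1, by omega⟩
        rw [hC', Nat.add_sub_cancel, add_mul, one_mul, pow_add]
        field_simp
    _ ≤ 4 * (1 / x) := by
        apply mul_le_mul_of_nonneg_left _ (by norm_num)
        apply one_div_le_one_div_of_le x0
        exact le_self_pow₀ x1 (by omega)
    _ ≤ 1 / 8 := by
        rw [mul_one_div, div_le_div_iff₀ x0 (by norm_num)]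
        linarith

/-- the term with the certificates -/
theorem term_three {x γ c : ℝ} (hx : 32 ≤ x) {k l W q t A T : ℕ} (hc : 0 < c) (hγ1 : γ ≤ 1)
    (hkT : ((k * T : ℕ) : ℝ) ≤ x) (hT2 : (T : ℝ) + 1 ≤ x ^ 2)
    (hq : (q : ℝ) ≤ x ^ c) (hlog : Real.log x ≤ x ^ c)
    (ht : (t : ℝ) ≤ x ^ (1 - γ + c)) (hA : (A : ℝ) ≤ 2 ^ (x ^ (1 - γ + c)))
    (hT : x ^ (1 - γ + 4 * c) ≤ T) (h12 : 16 * ((2 : ℝ) ^ k * 2 ^ (l * k) + 4) ^ 2 ≤ x)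
    (h13 : (9 + 16 * W + 4 * (k * W * l) + 8 * k : ℝ) ≤ x ^ (2 * c)) :
    (2 : ℝ) ^ q * 2 ^ q * ((T + 1) ^ (2 * W * (q + 1)) * 2 ^ (k * (2 * W * (q + 1) * l)) *
      (A * (16 * ((((k * T + 1) ^ k * 2 ^ (l * k) : ℕ) : ℝ) + 4) ^ 2 * 2 ^ q) ^ (t + q)) *
      (2 ^ T * (1 / 256 : ℝ) ^ T)) ≤ 1 / 8 := by
  have x0 : 0 < x := by linarith
  have x1 : 1 ≤ x := by linarith
  have hxk : 1 ≤ x ^ k := one_le_pow₀ x1
  have h1 : (((k * T + 1) ^ k * 2 ^ (l * k) : ℕ) : ℝ) + 4 ≤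
      ((2 : ℝ) ^ k * 2 ^ (l * k) + 4) * x ^ k := by
    have h2 : ((k * T + 1 : ℕ) : ℝ) ≤ 2 * x := by push_cast at hkT ⊢; linarith
    have h3 : ((k * T + 1 : ℕ) : ℝ) ^ k ≤ (2 * x) ^ k :=
      pow_le_pow_left₀ (Nat.cast_nonneg _) h2 k
    have h4 : (((k * T + 1) ^ k * 2 ^ (l * k) : ℕ) : ℝ) =
        ((k * T + 1 : ℕ) : ℝ) ^ k * 2 ^ (l * k) := by push_cast; ring
    rw [h4, add_mul]
    have h5 : ((k * T + 1 : ℕ) : ℝ) ^ k * 2 ^ (l * k) ≤ (2 : ℝ) ^ k * 2 ^ (l * k) * x ^ k := by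
      calc ((k * T + 1 : ℕ) : ℝ) ^ k * 2 ^ (l * k) ≤ (2 * x) ^ k * 2 ^ (l * k) := by gcongr
        _ = _ := by rw [mul_pow]; ring
    linarith
  have h2 : 16 * ((((k * T + 1) ^ k * 2 ^ (l * k) : ℕ) : ℝ) + 4) ^ 2 ≤ x ^ (2 * k + 1) := by
    calc 16 * ((((k * T + 1) ^ k * 2 ^ (l * k) : ℕ) : ℝ) + 4) ^ 2
        ≤ 16 * (((2 : ℝ) ^ k * 2 ^ (l * k) + 4) * x ^ k) ^ 2 := by
          gcongr
      _ = (16 * ((2 : ℝ) ^ k * 2 ^ (l * k) + 4) ^ 2) * x ^ (2 * k) := by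
          rw [mul_pow, ← pow_mul, mul_comm k 2]; ring
      _ ≤ x * x ^ (2 * k) := mul_le_mul_of_nonneg_right h12 (by positivity)
      _ = x ^ (2 * k + 1) := by rw [pow_succ]; ring
  -- everything to base 2
  obtain ⟨lg, hlg⟩ : ∃ lg : ℝ, lg = Real.logb 2 x := ⟨_, rfl⟩
  have hlx : x = 2 ^ lg := by
    rw [hlg]; exact (Real.rpow_logb (by norm_num) (by norm_num) x0).symm
  have hl0 : 0 ≤ lg := by rw [hlg]; exact Real.logb_nonneg (by norm_num) x1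
  have hl2 : lg ≤ 2 * x ^ c := by
    rw [hlg, Real.logb, div_le_iff₀ (Real.log_pos (by norm_num))]
    have := Real.log_two_gt_d9
    have h5 : 0 ≤ x ^ c := Real.rpow_nonneg x0.le _
    nlinarith
  have hxc : 1 ≤ x ^ c := Real.one_le_rpow x1 hc.le
  have hcZ : x ^ c ≤ x ^ (1 - γ + c) := Real.rpow_le_rpow_of_exponent_le x1 (by linarith)
  obtain ⟨R, hR⟩ : ∃ R : ℝ, R = x ^ (1 - γ + 2 * c) := ⟨_, rfl⟩
  have hcR : x ^ c ≤ R := by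
    rw [hR]; exact Real.rpow_le_rpow_of_exponent_le x1 (by linarith)
  have h2cR : x ^ c * x ^ c ≤ R := by
    rw [hR, ← Real.rpow_add x0]; exact Real.rpow_le_rpow_of_exponent_le x1 (by linarith)
  have hZR : x ^ (1 - γ + c) ≤ R := by
    rw [hR]; exact Real.rpow_le_rpow_of_exponent_le x1 (by linarith)
  have hcZR : x ^ c * x ^ (1 - γ + c) = R := by
    rw [hR, ← Real.rpow_add x0]; congr 1; ring
  have hRT : (9 + 16 * W + 4 * (k * W * l) + 8 * k : ℝ) * R ≤ T := by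
    calc (9 + 16 * W + 4 * (k * W * l) + 8 * k : ℝ) * R ≤ x ^ (2 * c) * R := by
          apply mul_le_mul_of_nonneg_right h13
          rw [hR]; positivity
      _ = x ^ (1 - γ + 4 * c) := by
          rw [hR, ← Real.rpow_add x0]; congr 1; ring
      _ ≤ T := hT
  have p0 : (0 : ℝ) < 2 := by norm_num
  have p2 : ∀ a : ℕ, (2 : ℝ) ^ a = (2 : ℝ) ^ (a : ℝ) := fun a => (Real.rpow_natCast _ _).symm
  have a1 : (2 : ℝ) ^ q * 2 ^ q = 2 ^ (2 * q : ℝ) := by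
    rw [p2, ← Real.rpow_add (by norm_num)]
    congr 1
    ring
  have a2 : ((T : ℝ) + 1) ^ (2 * W * (q + 1)) ≤ 2 ^ (4 * W * (q + 1) * lg : ℝ) := by
    calc ((T : ℝ) + 1) ^ (2 * W * (q + 1)) ≤ (x ^ 2) ^ (2 * W * (q + 1)) :=
          pow_le_pow_left₀ (by positivity) hT2 _
      _ = ((2 : ℝ) ^ lg) ^ (4 * W * (q + 1)) := by
          rw [← hlx, ← pow_mul]; congr 1; ring
      _ = 2 ^ (4 * W * (q + 1) * lg : ℝ) := by
          rw [← Real.rpow_natCast, ← Real.rpow_mul (by norm_num)]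
          congr 1
          push_cast
          ring
  have a3 : (2 : ℝ) ^ (k * (2 * W * (q + 1) * l)) = 2 ^ (2 * (k * W * l) * (q + 1) : ℝ) := by
    rw [p2]
    congr 1
    push_cast
    ring
  have a4 : (16 * ((((k * T + 1) ^ k * 2 ^ (l * k) : ℕ) : ℝ) + 4) ^ 2 * 2 ^ q) ^ (t + q) ≤
      2 ^ (((2 * k + 1) * lg + q) * (t + q) : ℝ) := by
    calc (16 * ((((k * T + 1) ^ k * 2 ^ (l * k) : ℕ) : ℝ) + 4) ^ 2 * 2 ^ q) ^ (t + q)
        ≤ (x ^ (2 * k + 1) * 2 ^ q) ^ (t + q) := by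
          apply pow_le_pow_left₀ (by positivity)
          exact mul_le_mul_of_nonneg_right h2 (by positivity)
      _ = (((2 : ℝ) ^ lg) ^ (2 * k + 1) * 2 ^ q) ^ (t + q) := by rw [← hlx]
      _ = 2 ^ (((2 * k + 1) * lg + q) * (t + q) : ℝ) := by
          rw [← Real.rpow_natCast ((2 : ℝ) ^ lg) (2 * k + 1), ← Real.rpow_mul p0.le, p2 q,
            ← Real.rpow_add p0, ← Real.rpow_natCast _ (t + q), ← Real.rpow_mul p0.le]
          congr 1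
          push_cast
          ring
  have a5 : (2 : ℝ) ^ T * (1 / 256 : ℝ) ^ T = 2 ^ (-(7 * T) : ℝ) := by
    calc (2 : ℝ) ^ T * (1 / 256 : ℝ) ^ T = (1 / 128) ^ T := by rw [← mul_pow]; norm_num
      _ = ((2 : ℝ) ^ (-7 : ℝ)) ^ T := by
          congr 1
          rw [Real.rpow_neg p0.le]
          norm_num
      _ = 2 ^ (-(7 * T) : ℝ) := by
          rw [← Real.rpow_natCast, ← Real.rpow_mul p0.le]
          congr 1
          ring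
  have hexp : (2 * q + (4 * W * (q + 1) * lg + 2 * (k * W * l) * (q + 1) +
      (x ^ (1 - γ + c) + ((2 * k + 1) * lg + q) * (t + q)) + -(7 * T)) : ℝ) ≤ -6 * T := by
    have q1 : (q : ℝ) + 1 ≤ 2 * x ^ c := by linarith
    have e1 : (2 * q : ℝ) ≤ 2 * R := by linarith
    have e2 : (4 * W * (q + 1) * lg : ℝ) ≤ 16 * W * R := by
      calc (4 * W * (q + 1) * lg : ℝ) ≤ 4 * W * (2 * x ^ c) * (2 * x ^ c) := by gcongr
        _ = 16 * W * (x ^ c * x ^ c) := by ring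
        _ ≤ 16 * W * R := mul_le_mul_of_nonneg_left h2cR (by positivity)
    have e3 : (2 * (k * W * l) * (q + 1) : ℝ) ≤ 4 * (k * W * l) * R := by
      calc (2 * (k * W * l) * (q + 1) : ℝ) ≤ 2 * (k * W * l) * (2 * R) := by
            apply mul_le_mul_of_nonneg_left _ (by positivity)
            linarith
        _ = 4 * (k * W * l) * R := by ring
    have e4 : (((2 * k + 1) * lg + q) * (t + q) : ℝ) ≤ (8 * k + 6) * R := by
      calc (((2 * k + 1) * lg + q) * (t + q) : ℝ)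
          ≤ ((2 * k + 1) * (2 * x ^ c) + x ^ c) * (x ^ (1 - γ + c) + x ^ (1 - γ + c)) := by
            have : (q : ℝ) ≤ x ^ (1 - γ + c) := hq.trans hcZ
            gcongr
        _ = (8 * k + 6) * (x ^ c * x ^ (1 - γ + c)) := by ring
        _ = (8 * k + 6) * R := by rw [hcZR]
    nlinarith [hRT]
  have hT1 : (1 : ℝ) ≤ T := le_trans (Real.one_le_rpow x1 (by linarith)) hT
  calc (2 : ℝ) ^ q * 2 ^ q * ((T + 1) ^ (2 * W * (q + 1)) * 2 ^ (k * (2 * W * (q + 1) * l)) *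
      (A * (16 * ((((k * T + 1) ^ k * 2 ^ (l * k) : ℕ) : ℝ) + 4) ^ 2 * 2 ^ q) ^ (t + q)) *
      (2 ^ T * (1 / 256 : ℝ) ^ T))
      ≤ 2 ^ (2 * q : ℝ) * (2 ^ (4 * W * (q + 1) * lg : ℝ) *
        2 ^ (2 * (k * W * l) * (q + 1) : ℝ) * (2 ^ (x ^ (1 - γ + c)) *
          2 ^ (((2 * k + 1) * lg + q) * (t + q) : ℝ)) * 2 ^ (-(7 * T) : ℝ)) := by
        rw [a1, a3, a5]
        gcongr
    _ = (2 : ℝ) ^ (2 * q + (4 * W * (q + 1) * lg + 2 * (k * W * l) * (q + 1) +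
      (x ^ (1 - γ + c) + ((2 * k + 1) * lg + q) * (t + q)) + -(7 * T)) : ℝ) := by
        rw [Real.rpow_add p0, Real.rpow_add p0, Real.rpow_add p0, Real.rpow_add p0,
          Real.rpow_add p0]
    _ ≤ (2 : ℝ) ^ (-3 : ℝ) := by
        apply Real.rpow_le_rpow_of_exponent_le (by norm_num)
        linarith
    _ ≤ 1 / 8 := by
        rw [Real.rpow_neg (by norm_num)]
        norm_num

theorem L_le {n : ℕ} (hn : 2 ≤ n) (h : 1 ≤ Real.log n) :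
    (Nat.clog 2 n : ℝ) ≤ 3 * Real.log n := by
  have h1 := Nat.pow_pred_clog_lt_self (b := 2) (by norm_num) (x := n) (by omega)
  have h2 : 0 < Nat.clog 2 n := Nat.clog_pos (by norm_num) hn
  obtain ⟨L, hL⟩ : ∃ L, L = Nat.clog 2 n := ⟨_, rfl⟩
  rw [← hL] at h1 h2 ⊢
  have h3 : L = L.pred + 1 := (Nat.succ_pred_eq_of_pos h2).symm
  have h4 : ((2 : ℝ) ^ L.pred) ≤ n := by exact_mod_cast h1.le
  have h5 : (L.pred : ℝ) * Real.log 2 ≤ Real.log n := by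
    rw [← Real.log_pow]
    exact Real.log_le_log (by positivity) h4
  have h6 := Real.log_two_gt_d9
  have h7 : (L : ℝ) = L.pred + 1 := by
    have : ((L.pred + 1 : ℕ) : ℝ) = L.pred + 1 := by push_cast; rfl
    rw [← this, ← h3]
  have h8 : (0 : ℝ) ≤ L.pred := Nat.cast_nonneg _
  rw [h7]
  nlinarith

theorem M_le {x : ℝ} {k T l W : ℕ} (hx : 1 ≤ x) (hkT : ((k * T : ℕ) : ℝ) ≤ x)
    (h : 2 * (2 ^ (2 * W) * 2 ^ (2 * W * (l + 1))) ≤ x) :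
    ((med k T l W).card : ℝ) + 1 ≤ x ^ (2 * W + 1) := by
  have x0 : 0 < x := by linarith
  have h1 := card_med k T l W
  have h2 : ((k * T + 1 : ℕ) : ℝ) ≤ 2 * x := by push_cast at hkT ⊢; linarith
  have h3 : (((k * T + 1 : ℕ) : ℝ)) ^ (2 * W) * 2 ^ (2 * W * (l + 1)) ≤
      (2 ^ (2 * W) * 2 ^ (2 * W * (l + 1))) * x ^ (2 * W) := by
    calc (((k * T + 1 : ℕ) : ℝ)) ^ (2 * W) * 2 ^ (2 * W * (l + 1)) ≤
        (2 * x) ^ (2 * W) * 2 ^ (2 * W * (l + 1)) := by gcongr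
      _ = (2 ^ (2 * W) * 2 ^ (2 * W * (l + 1))) * x ^ (2 * W) := by rw [mul_pow]; ring
  have h4 : (1 : ℝ) ≤ (2 ^ (2 * W) * 2 ^ (2 * W * (l + 1))) * x ^ (2 * W) := by
    have a1 : (1 : ℝ) ≤ 2 ^ (2 * W) * 2 ^ (2 * W * (l + 1)) :=
      one_le_mul_of_one_le_of_one_le (one_le_pow₀ (by norm_num)) (one_le_pow₀ (by norm_num))
    exact one_le_mul_of_one_le_of_one_le a1 (one_le_pow₀ hx)
  calc ((med k T l W).card : ℝ) + 1 ≤
        (2 * (2 ^ (2 * W) * 2 ^ (2 * W * (l + 1)))) * x ^ (2 * W) := by linarith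
    _ ≤ x * x ^ (2 * W) := mul_le_mul_of_nonneg_right h (by positivity)
    _ = x ^ (2 * W + 1) := by rw [pow_succ]; ring

theorem s_le {x γ ε s : ℝ} {W : ℕ} (hx : 2 ≤ x) (hγ1 : γ ≤ 1) (hε : 0 < ε)
    (hs : s ≤ x ^ (γ * (W + 1 : ℕ) - ε)) : s + 1 ≤ x ^ (W + 2) := by
  have hx1 : 1 ≤ x := by linarith
  have hs' : s ≤ x ^ (W + 1) := by
    refine hs.trans ?_
    rw [← Real.rpow_natCast]
    apply Real.rpow_le_rpow_of_exponent_le hx1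
    have : (0 : ℝ) ≤ ((W + 1 : ℕ) : ℝ) := Nat.cast_nonneg _
    nlinarith
  have hxW : 1 ≤ x ^ (W + 1) := one_le_pow₀ hx1
  calc s + 1 ≤ x ^ (W + 1) * 2 := by linarith
    _ ≤ x ^ (W + 1) * x := mul_le_mul_of_nonneg_left hx (by positivity)
    _ = x ^ (W + 2) := by rw [← pow_succ]

end Num

/-- Row NUM: the choice of the parameters. -/
theorem num_uni {k W : ℕ} (hW : 2 ≤ W) (hWk : 2 * W < k) (l : ℕ) {γ ε : ℝ}
    (hγ : 0 < γ) (hγ1 : γ ≤ 1) (hε : 0 < ε) (hεγ : ε ≤ γ) {B : ℕ} (hB : 2 ≤ B) (D₀ : ℕ) :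
    ∃ c : ℝ, 0 < c ∧ ∃ n₀ : ℕ, ∀ n ≥ n₀, ∀ d f q s t A : ℕ,
      ((q : ℝ) + f + Real.log n) ^ (d + 1) ≤ (n : ℝ) ^ c →
      (t : ℝ) ≤ (n : ℝ) ^ (1 - γ + c) → (A : ℝ) ≤ 2 ^ ((n : ℝ) ^ (1 - γ + c)) →
      (s : ℝ) < (n : ℝ) ^ (γ * (W + 1 : ℕ) - ε) →
      ∃ (T N D₁ N₁ m₀ m S : ℕ) (θ : ℝ), 0 < N₁ ∧ N₁ * m₀ ≤ N ∧ k * T * N * 2 ^ (k * l) ≤ n ∧
        D₀ ≤ D₁ ∧ 0 < θ ∧ θ ≤ 1 / 4 ∧ 2 * (l + 1) ≤ m ∧
        θ * 2 * m ≤ 1 / 16 ∧ θ * 2 * (f * m) ≤ 1 / 4 ∧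
        ((k * T * N₁ : ℕ) : ℝ) * (1 - (θ ^ d) ^ (l + 1)) ^ m₀ ≤ 1 / 4 ∧
        ((s : ℝ) + 1) * (((B : ℝ) ^ D₁) ^ (ε / (16 * k ^ 2))) ^ (2 * W) *
          ((evB (2 * W * (l + 1)) m f : ℝ) / (N₁ : ℝ) ^ (W + 1)) ≤ 1 ∧
        ((T : ℝ) * N) ^ k * ((B : ℝ) ^ D₁) ^ (ε / (16 * k ^ 2)) / (B : ℝ) ^ D₁ + 2 ^ q * 2 ^ q *
          (((((s : ℝ) + 1) * (((B : ℝ) ^ D₁) ^ (ε / (16 * k ^ 2))) ^ (2 * W) *
            ((evB (2 * W * (l + 1)) m f : ℝ) / (N₁ : ℝ) ^ (W + 1))) ^ S +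
            S * (((s : ℝ) + 1) * (((B : ℝ) ^ D₁) ^ (ε / (16 * k ^ 2))) ^ (2 * W) *
              ((med k T l W).card + 1) *
              ((((s : ℝ) + 1) * ((med k T l W).card + 1)) ^ S * (T + 1) ^ (2 * W * S) *
                (((B : ℝ) ^ D₁) ^ (ε / (16 * k ^ 2)) * (B : ℝ) ^ D₁) ^ (2 * W * S) *
                  (2 * (2 ^ q * 2 ^ q * (((s : ℝ) + 1) * (2 / 2 ^ m))))))) +
            (T + 1) ^ (2 * W * S) * 2 ^ (k * (2 * W * S * l)) *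
              (A * (16 * ((((k * T + 1) ^ k * 2 ^ (l * k) : ℕ) : ℝ) + 4) ^ 2 * 2 ^ q) ^ (t + q)) *
              (2 ^ T * (1 / 256 : ℝ) ^ T)) < 1 := by
  have hε1 : ε ≤ 1 := hεγ.trans hγ1
  obtain ⟨K, hK⟩ : ∃ K, K = 2 * W * (l + 1) := ⟨_, rfl⟩
  obtain ⟨E, hE⟩ : ∃ E : ℕ, E = (K + 2 + 3 * 2 ^ K) * (K + 1) := ⟨_, rfl⟩
  obtain ⟨c, hc⟩ : ∃ c : ℝ, c = ε / (8 * ((W + 1) * (6 * l + 13) + E)) := ⟨_, rfl⟩
  have hden : (0 : ℝ) < (W + 1) * (6 * l + 13) + E := by positivity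
  have hc0 : 0 < c := by rw [hc]; positivity
  have hcε : (W + 1 : ℝ) * (6 * c + (6 * (l + 1) * c + c)) + E * c = ε / 8 := by
    have h1 : (W + 1 : ℝ) * (6 * c + (6 * (l + 1) * c + c)) + E * c =
        ((W + 1) * (6 * l + 13) + E) * c := by ring
    rw [h1, hc]
    field_simp
  obtain ⟨C, hC⟩ : ∃ C : ℕ, C = 11 * W + 15 + (4 * k + 2) * (2 * W) := ⟨_, rfl⟩
  obtain ⟨μ, hμ⟩ : ∃ μ : ℝ, μ = 6 * (l + 1) * c + c := ⟨_, rfl⟩
  have hμ0 : 0 ≤ μ := by rw [hμ]; positivity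
  rw [← hμ] at hcε
  obtain ⟨ν, hν⟩ : ∃ ν : ℝ, ν = γ - 3 * (2 * c) - μ := ⟨_, rfl⟩
  have hν0 : 0 ≤ ν := by
    have h1 : 0 ≤ (W : ℝ) * (6 * c + μ) := by positivity
    have h2 : 0 ≤ (E : ℝ) * c := by positivity
    rw [hν]
    nlinarith
  refine ⟨c, hc0, ?_⟩
  -- what is needed for large `x`
  have ev : ∀ᶠ x : ℝ in atTop, 32 ≤ x ∧ (101 + 6 * C : ℝ) ≤ Real.log x ∧
      4 * x ≤ Real.exp (x ^ c) ∧ 8 * ((k * 2 ^ (k * l) : ℕ) : ℝ) ≤ x ^ (2 * c) ∧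
      (64 * B : ℝ) ≤ x ∧ ((B ^ D₀ : ℕ) : ℝ) ≤ x ∧ 16 ≤ x ^ (3 * ε / 4) ∧
      2 * (2 ^ (2 * W) * 2 ^ (2 * W * (l + 1))) ≤ x ∧
      16 * ((2 : ℝ) ^ k * 2 ^ (l * k) + 4) ^ 2 ≤ x ∧
      (9 + 16 * W + 4 * (k * W * l) + 8 * k : ℝ) ≤ x ^ (2 * c) ∧
      ((2 ^ (2 * (l + 1)) : ℕ) : ℝ) ≤ x := by
    filter_upwards [eventually_ge_atTop 32,
      Real.tendsto_log_atTop.eventually_ge_atTop (101 + 6 * C : ℝ), CliqueCert.Num.ev_exp hc0,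
      CliqueCert.Num.ev_pow (by positivity : 0 < 2 * c) (8 * ((k * 2 ^ (k * l) : ℕ) : ℝ)),
      eventually_ge_atTop (64 * B : ℝ), eventually_ge_atTop ((B ^ D₀ : ℕ) : ℝ),
      CliqueCert.Num.ev_pow (by positivity : 0 < 3 * ε / 4) 16,
      eventually_ge_atTop (2 * (2 ^ (2 * W) * 2 ^ (2 * W * (l + 1))) : ℝ),
      eventually_ge_atTop (16 * ((2 : ℝ) ^ k * 2 ^ (l * k) + 4) ^ 2),
      CliqueCert.Num.ev_pow (by positivity : 0 < 2 * c)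
        (9 + 16 * W + 4 * (k * W * l) + 8 * k : ℝ),
      eventually_ge_atTop ((2 ^ (2 * (l + 1)) : ℕ) : ℝ)] with x a1 a2 a3 a4 a5 a6 a7 a8 a9 a10 a11
    exact ⟨a1, a2, a3, a4, a5, a6, a7, a8, a9, a10, a11⟩
  obtain ⟨n₀, hn₀⟩ := eventually_atTop.mp (tendsto_natCast_atTop_atTop.eventually ev)
  refine ⟨n₀, fun n hn d f q s t A hΦ ht hA hs => ?_⟩
  obtain ⟨x1, x2, x3, x4, x5, x6, x7, x8, x9, x10, x11⟩ := hn₀ n hn
  clear ev hn₀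
  have hn32 : 32 ≤ n := by exact_mod_cast x1
  have hLlog := Num.L_le (n := n) (by omega) (by
    have : (0 : ℝ) ≤ C := Nat.cast_nonneg C
    linarith)
  obtain ⟨L, hL⟩ : ∃ L, L = Nat.clog 2 n := ⟨_, rfl⟩
  have hLn : n ≤ 2 ^ L := by rw [hL]; exact Nat.le_pow_clog (by norm_num) _
  rw [← hL] at hLlog
  obtain ⟨x, hx⟩ : ∃ x : ℝ, x = (n : ℝ) := ⟨_, rfl⟩
  rw [← hx] at x1 x2 x3 x4 x5 x6 x7 x8 x9 x10 x11 ht hA hs hΦ hLlog
  have x0 : 0 < x := by linarith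
  have x1' : 1 ≤ x := by linarith
  have hk5 : 5 ≤ k := by omega
  have hC0 : 1 ≤ k * 2 ^ (k * l) := Nat.mul_pos (by omega) (by positivity)
  have hCr : (0 : ℝ) ≤ C := Nat.cast_nonneg C
  have hC1 : 1 ≤ C := by omega
  -- `Φ`
  obtain ⟨Φ, hΦ'⟩ : ∃ Φ : ℝ, Φ = q + f + Real.log x := ⟨_, rfl⟩
  rw [← hΦ'] at hΦ
  have hq0 : (0 : ℝ) ≤ q := Nat.cast_nonneg q
  have hf0 : (0 : ℝ) ≤ f := Nat.cast_nonneg f
  have hΦ1 : 101 + 6 * C ≤ Φ := by linarith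
  have hΦone : 1 ≤ Φ := by linarith
  have hΦc : Φ ≤ x ^ c := (le_self_pow₀ hΦone (by omega)).trans hΦ
  have hΦd : Φ ^ d ≤ x ^ c := (pow_le_pow_right₀ hΦone (by omega)).trans hΦ
  have hqΦ : (q : ℝ) + 1 ≤ Φ := by linarith
  have hfΦ : (f : ℝ) + 1 ≤ Φ ^ 2 :=
    (by linarith : (f : ℝ) + 1 ≤ Φ).trans (le_self_pow₀ hΦone (by norm_num))
  have hLΦ : (L : ℝ) ≤ 3 * Φ := by linarith
  -- `m`
  obtain ⟨m, hm⟩ : ∃ m, m = C * (q + 1) * L := ⟨_, rfl⟩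
  have hmL : L ≤ m := by
    rw [hm]
    exact Nat.le_mul_of_pos_left _ (by positivity)
  have hmΦ : (m : ℝ) + 1 ≤ Φ ^ 3 := by
    have h1 : (m : ℝ) ≤ C * Φ * (3 * Φ) := by
      rw [hm]
      push_cast
      gcongr
    have h2 : 1 ≤ Φ * Φ := one_le_mul_of_one_le_of_one_le hΦone hΦone
    calc (m : ℝ) + 1 ≤ C * Φ * (3 * Φ) + Φ * Φ := add_le_add h1 h2
      _ = (3 * C + 1) * (Φ * Φ) := by ring
      _ ≤ Φ * (Φ * Φ) := mul_le_mul_of_nonneg_right (by linarith) (by positivity)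
      _ = Φ ^ 3 := by ring
  have hml : 2 * (l + 1) ≤ m := by
    refine le_trans ?_ hmL
    have h1 : 2 ^ (2 * (l + 1)) ≤ n := by
      have : ((2 ^ (2 * (l + 1)) : ℕ) : ℝ) ≤ (n : ℝ) := by rw [← hx]; exact x11
      exact_mod_cast this
    exact (Nat.pow_le_pow_iff_right (by norm_num)).1 (h1.trans hLn)
  have hm2 : x ^ (C * (q + 1)) ≤ (2 : ℝ) ^ m := by
    rw [hm, mul_comm (C * (q + 1)) L, pow_mul (2 : ℝ) L]
    apply pow_le_pow_left₀ x0.le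
    rw [hx]
    exact_mod_cast hLn
  have hev : (evB (2 * W * (l + 1)) m f : ℝ) ≤ x ^ (E * c) := by
    calc (evB (2 * W * (l + 1)) m f : ℝ) ≤ Φ ^ E := by
          rw [hE, ← hK]
          exact Num.evB_le (by linarith) hfΦ hmΦ
      _ ≤ (x ^ c) ^ E := pow_le_pow_left₀ (by linarith) hΦc _
      _ = x ^ (E * c) := by
          rw [← Real.rpow_natCast, ← Real.rpow_mul x0.le, mul_comm c]
  -- `T` and `m₀`
  obtain ⟨T, hT⟩ : ∃ T, T = ⌈x ^ (1 - γ + 2 * (2 * c))⌉₊ := ⟨_, rfl⟩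
  have hT1 : x ^ (1 - γ + 2 * (2 * c)) ≤ T := by rw [hT]; exact Nat.le_ceil _
  have hTp : 1 ≤ x ^ (1 - γ + 2 * (2 * c)) := Real.one_le_rpow x1' (by linarith)
  have hT2 : (T : ℝ) ≤ 2 * x ^ (1 - γ + 2 * (2 * c)) := by
    rw [hT]
    have := (Nat.ceil_lt_add_one (show 0 ≤ x ^ (1 - γ + 2 * (2 * c)) by positivity)).le
    linarith
  have hT0 : 0 < T := by
    have : (0 : ℝ) < T := by linarith
    exact_mod_cast this
  obtain ⟨m₀, hm₀⟩ : ∃ m₀, m₀ = ⌈x ^ μ⌉₊ := ⟨_, rfl⟩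
  have hm₀1 : x ^ μ ≤ m₀ := by rw [hm₀]; exact Nat.le_ceil _
  have hm₀p : 1 ≤ x ^ μ := Real.one_le_rpow x1' hμ0
  have hm₀2 : (m₀ : ℝ) ≤ 2 * x ^ μ := by
    rw [hm₀]
    have := (Nat.ceil_lt_add_one (show 0 ≤ x ^ μ by positivity)).le
    linarith
  have hm₀0 : 0 < m₀ := by
    have : (0 : ℝ) < m₀ := by linarith
    exact_mod_cast this
  -- `N` and `N₁`
  obtain ⟨N, hN⟩ : ∃ N, N = n / (k * 2 ^ (k * l) * T) := ⟨_, rfl⟩
  obtain ⟨N₁, hN₁⟩ : ∃ N₁, N₁ = N / m₀ := ⟨_, rfl⟩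
  have hN₁' : N₁ = n / (k * 2 ^ (k * l) * T * m₀) := by
    rw [hN₁, hN, Nat.div_div_eq_div_mul]
  have hNν : x ^ ν ≤ N₁ := by
    rw [hN₁']
    exact CliqueCert.Num.N1_le x1' hν hν0 hx.symm hC0 hT0 hT2 hm₀0 hm₀2 rfl x4
  have hνp : 1 ≤ x ^ ν := Real.one_le_rpow x1' hν0
  have hN₁0 : 0 < N₁ := by
    have : (0 : ℝ) < N₁ := by linarith
    exact_mod_cast this
  have hNN : N₁ * m₀ ≤ N := by rw [hN₁]; exact Nat.div_mul_le_self _ _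
  have hNn : k * T * N * 2 ^ (k * l) ≤ n := by
    calc k * T * N * 2 ^ (k * l) = k * 2 ^ (k * l) * T * N := by ring
      _ ≤ n := by rw [hN]; exact Nat.mul_div_le _ _
  have hN0 : 0 < N := lt_of_lt_of_le (Nat.mul_pos hN₁0 hm₀0) hNN
  have hN₁N : N₁ ≤ N := le_trans (Nat.le_mul_of_pos_right _ hm₀0) hNN
  have h2kl : 1 ≤ 2 ^ (k * l) := Nat.one_le_two_pow
  have hkTN : k * T * N ≤ n := le_trans (Nat.le_mul_of_pos_right _ (by positivity)) hNn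
  have hkTN₁ : ((k * T * N₁ : ℕ) : ℝ) ≤ x := by
    rw [hx]; exact_mod_cast (Nat.mul_le_mul_left _ hN₁N).trans hkTN
  have hkT : ((k * T : ℕ) : ℝ) ≤ x := by
    rw [hx]; exact_mod_cast (Nat.le_mul_of_pos_right _ hN0).trans hkTN
  have hTN : ((T : ℝ) * N) ≤ x := by
    rw [hx]
    have : T * N ≤ n := by
      refine le_trans ?_ hkTN
      rw [mul_assoc]
      exact Nat.le_mul_of_pos_left _ (by omega)
    exact_mod_cast this
  have hTx : (T : ℝ) + 1 ≤ x ^ 2 := by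
    have h1 : (T : ℝ) ≤ x := by
      refine le_trans ?_ hkT
      exact_mod_cast Nat.le_mul_of_pos_left _ (by omega)
    calc (T : ℝ) + 1 ≤ 2 * x := by linarith
      _ ≤ x * x := mul_le_mul_of_nonneg_right (by linarith) x0.le
      _ = x ^ 2 := (sq x).symm
  -- `D₁`
  obtain ⟨D₁, hD, hlow', hup'⟩ := CliqueCert.Num.exists_D1 hB (by omega : k ≠ 0) hx
    (by omega : 1 ≤ n) x5 x6
  have hP1 : 1 ≤ (B : ℝ) ^ D₁ := one_le_pow₀ (by exact_mod_cast (by omega : 1 ≤ B))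
  obtain ⟨P, hP⟩ : ∃ P : ℝ, P = (B : ℝ) ^ D₁ := ⟨_, rfl⟩
  rw [← hP] at hlow' hup' hP1
  have he1 := CliqueCert.Num.e1_le hk5 hε1
  have hQ := CliqueCert.Num.part_d0 x1' (by omega) (CliqueCert.Num.wk hWk) hε hP1 hup'
  have hQ0 : 0 ≤ (P ^ (ε / (16 * k ^ 2))) ^ (2 * W) := by positivity
  have hQ1 : (P ^ (ε / (16 * k ^ 2))) ^ (2 * W) ≤ x := by
    refine hQ.trans ?_
    calc x ^ (ε / 8) ≤ x ^ (1 : ℝ) := Real.rpow_le_rpow_of_exponent_le x1' (by linarith)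
      _ = x := Real.rpow_one x
  have he : P ^ (ε / (16 * k ^ 2)) * P ≤ x ^ (4 * k + 2) := by
    have h1 : P ^ (ε / (16 * k ^ 2)) ≤ P := by
      calc P ^ (ε / (16 * k ^ 2)) ≤ P ^ (1 : ℝ) :=
            Real.rpow_le_rpow_of_exponent_le hP1 (by linarith)
        _ = P := Real.rpow_one P
    calc P ^ (ε / (16 * k ^ 2)) * P ≤ P * P := mul_le_mul_of_nonneg_right h1 (by linarith)
      _ ≤ x ^ (2 * k + 1) * x ^ (2 * k + 1) := mul_le_mul hup' hup' (by linarith) (by positivity)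
      _ = x ^ (4 * k + 2) := by rw [← pow_add]; congr 1; ring
  -- `θ`
  obtain ⟨θ, hθ⟩ : ∃ θ : ℝ, θ = 1 / (100 * (f + 1) * (m + 1)) := ⟨_, rfl⟩
  have hm0 : (0 : ℝ) ≤ m := Nat.cast_nonneg m
  have hθd : 0 < (100 * (f + 1) * (m + 1) : ℝ) := by positivity
  have hθ0 : 0 < θ := by rw [hθ]; positivity
  have hfm : (0 : ℝ) ≤ f * m := by positivity
  have hθ1 : θ ≤ 1 / 4 := by
    rw [hθ]
    apply one_div_le_one_div_of_le (by norm_num)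
    linarith
  have hy := Num.theta_le (l := l) x1' (by linarith) hfΦ hmΦ hΦd
  rw [← hθ] at hy
  have hy1 : (θ ^ d) ^ (l + 1) ≤ 1 :=
    pow_le_one₀ (by positivity) (pow_le_one₀ hθ0.le (by linarith))
  have hp0 : 0 ≤ ((s : ℝ) + 1) * (P ^ (ε / (16 * k ^ 2))) ^ (2 * W) *
      ((evB (2 * W * (l + 1)) m f : ℝ) / (N₁ : ℝ) ^ (W + 1)) := by positivity
  have hp := Num.part_p (s := s) x1' hεγ hε hν hs.le hQ0 hQ (Nat.cast_nonneg _) hev hNν hcε.le x7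
  refine ⟨T, N, D₁, N₁, m₀, m, q + 1, θ, hN₁0, hNN, hNn, hD, hθ0, hθ1, hml, ?_, ?_, ?_, ?_, ?_⟩
  · rw [hθ, one_div, mul_assoc, inv_mul_le_iff₀ hθd]
    linarith
  · rw [hθ, one_div, mul_assoc, inv_mul_le_iff₀ hθd]
    linarith
  · refine Num.part_b x1' hkTN₁ hy hy1 ?_ x3
    rw [← hμ]
    exact hm₀1
  · rw [← hP]
    linarith
  · rw [← hP]
    have p1 := CliqueCert.Num.part_d1 x1' hlow' he1 (by positivity) hTN
    have p2 := Num.term_one (q := q) hp0 hp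
    have p3 := Num.term_two (m := m) (q := q) x1 (Nat.cast_nonneg s)
      (Num.s_le (by linarith) hγ1 hε hs.le) hQ0 hQ1 (Nat.cast_nonneg _)
      (Num.M_le (l := l) x1' hkT x8) (Nat.cast_nonneg T) hTx (by positivity) he hm2 hC
    have p4 := Num.term_three (l := l) (W := W) (q := q) x1 hc0 hγ1 hkT hTx (by linarith) (by linarith)
      ht hA (by rw [show (4 : ℝ) * c = 2 * (2 * c) by ring]; exact hT1) x9 x10
    rw [mul_add (2 ^ q * 2 ^ q : ℝ), mul_add (2 ^ q * 2 ^ q : ℝ)]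
    linarith

end UniCore
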