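import Pool.Agent.Lib.UNI.Final
import Pool.Agent.Lib.UNI.Num

/-!
# PROJECT UNI, row MAIN: the main theorem
-/

open Finset

namespace UniCore

open SmallDepth CliqueDepth CliqueCert

/-- Row MAIN (assembly). -/
theorem main {k D : ℕ} (hD : 2 ≤ D) (hk : 2 * D < k) {γ ε : ℝ} (hγ : 0 < γ)
    (hγ1 : γ ≤ 1) (hε : 0 < ε) : ∃ c : ℝ, 0 < c ∧ ∃ n₀ : ℕ, ∀ n ≥ n₀, ∀ d f q s t A : ℕ,
      ((q : ℝ) + f + Real.log n) ^ (d + 1) ≤ (n : ℝ) ^ c →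
      (t : ℝ) ≤ (n : ℝ) ^ (1 - γ + c) → (A : ℝ) ≤ 2 ^ ((n : ℝ) ^ (1 - γ + c)) →
      CliqueUni.HasCert n k D d f q s t A →
        (n : ℝ) ^ (γ * ((k + D - 1) / D : ℕ) - ε) ≤ s := by
  classical
  obtain ⟨W, hWd⟩ : ∃ W : ℕ, W = (k - 1) / D := ⟨_, rfl⟩
  have hW : 2 ≤ W := by
    rw [hWd, Nat.le_div_iff_mul_le (by omega)]
    omega
  have hDW : D * W < k := by
    have h1 : D * ((k - 1) / D) ≤ k - 1 := Nat.mul_div_le _ _
    rw [hWd]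
    omega
  have hWk : 2 * W < k := lt_of_le_of_lt (Nat.mul_le_mul_right W hD) hDW
  have hceil : (k + D - 1) / D = W + 1 := by
    have h1 : k + D - 1 = k - 1 + D := by omega
    rw [h1, Nat.add_div_right _ (by omega), hWd]
  obtain ⟨ε', hε'd⟩ : ∃ ε' : ℝ, ε' = min ε γ := ⟨_, rfl⟩
  have hε' : 0 < ε' := by rw [hε'd]; exact lt_min hε hγ
  have hε'ε : ε' ≤ ε := by rw [hε'd]; exact min_le_left _ _
  have hε'γ : ε' ≤ γ := by rw [hε'd]; exact min_le_right _ _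
  have hkr : (0 : ℝ) < k := by
    have : 0 < k := by omega
    exact_mod_cast this
  have hη : 0 < ε' / (16 * k ^ 2) := by positivity
  obtain ⟨B, hB, D₀, hT⟩ := template (k := k) (by omega) hη
  -- number of the states
  have hr : (1 - (1 / 2 : ℝ) ^ (k - 1)) < 1 := by
    have : (0 : ℝ) < (1 / 2 : ℝ) ^ (k - 1) := by positivity
    linarith
  have hr0 : (0 : ℝ) ≤ 1 - (1 / 2 : ℝ) ^ (k - 1) := by
    have : ((1 / 2 : ℝ)) ^ (k - 1) ≤ 1 := pow_le_one₀ (by norm_num) (by norm_num)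
    linarith
  obtain ⟨l, hl⟩ := exists_pow_lt_of_lt_one
    (show (0 : ℝ) < (1 / 256 : ℝ) ^ (2 ^ (k - 1)) by positivity) hr
  obtain ⟨c, hc, n₀, hnum⟩ := num_uni hW hWk l hγ hγ1 hε' hε'γ hB D₀
  refine ⟨c, hc, max n₀ 1, fun n hn d f q s t A hΦ ht hA hcert => ?_⟩
  have hn0 : n₀ ≤ n := (le_max_left _ _).trans hn
  have hn1 : (1 : ℝ) ≤ n := by exact_mod_cast (le_max_right _ _).trans hn
  by_contra hcon
  push Not at hcon
  rw [hceil] at hcon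
  have hs : (s : ℝ) < (n : ℝ) ^ (γ * (W + 1 : ℕ) - ε') :=
    lt_of_lt_of_le hcon (Real.rpow_le_rpow_of_exponent_le hn1 (by linarith))
  obtain ⟨T, N, D₁, N₁, m₀, m, S, θ, hN₁, hNm, hTn, hD₁, hθ0, hθ, hm, hc1, hc2, h14, hp, hfin⟩ :=
    hnum n hn0 d f q s t A hΦ ht hA hs
  obtain ⟨R, hR, hK⟩ := hT D₁ hD₁
  have hB0 : (0 : ℝ) < B := by
    have : 0 < B := by omega
    exact_mod_cast this
  have hB1 : (1 : ℝ) ≤ B := by
    have : 1 ≤ B := by omega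
    exact_mod_cast this
  have hMc : (Fintype.card (Fin D₁ → Fin B) : ℝ) = (B : ℝ) ^ D₁ := by
    rw [Fintype.card_fun, Fintype.card_fin, Fintype.card_fin]
    push_cast
    rfl
  have hM1 : (1 : ℝ) ≤ (B : ℝ) ^ D₁ := one_le_pow₀ hB1
  have hβ1 : 1 ≤ ((B : ℝ) ^ D₁) ^ (ε' / (16 * k ^ 2)) := Real.one_le_rpow hM1 hη.le
  have hKc : (Nat.card {κ : Fin k → Fin D₁ → Fin B // IsCl R κ} : ℝ) = ((Kc R).card : ℝ) := by
    rw [Kc, Nat.card_eq_fintype_card, Fintype.card_subtype]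
  have hcore := core_ineq hcert hW hWk hDW (T := T) (N := N) (l := l) (N₁ := N₁) (m₀ := m₀)
    (m := m) (S := S) (Λ := Fin D₁ → Fin B) (by
      have h1 : (1 : ℝ) ≤ (Fintype.card (Fin D₁ → Fin B) : ℝ) := by rw [hMc]; exact hM1
      exact_mod_cast h1) hTn hR hβ1 (by rw [hMc, ← hKc]; exact hK) hN₁ hNm hθ0 hθ hm hc1 hc2 h14
      hp (x := 1 / 256) (by norm_num) hl.le
  rw [hMc] at hcore
  linarith

end UniCore
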