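import Pool.Agent.Lib.UNI.Base
import Pool.Agent.Lib.CERT.Cross
import Pool.Agent.Lib.CERT.Lab
import Pool.Agent.Lib.CERT.Loc

/-! # PROJECT UNI, row NODEP: without witnesses, all gates depend on few planted units -/

open Finset

namespace UniCore

open SmallDepth CliqueDepth CliqueCert

variable {k T N l n : ℕ} {Λ E : Type}

private theorem mem_Pc'' {u : Fin k × Fin T → Fin N} {e : Crd k T N l} :
    e ∈ Pc l u ↔ e.1.2 = u e.1.1 := by
  unfold Pc
  rw [mem_image]
  constructor
  · rintro ⟨e', -, rfl⟩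
    rfl
  · intro h
    refine ⟨(e.1.1, e.2), mem_univ _, ?_⟩
    refine Prod.ext (Prod.ext rfl ?_) rfl
    exact h.symm

private theorem mem_Pa'' {u : Fin k × Fin T → Fin N} {A : Finset (Fin T)} {e : Crd k T N l} :
    e ∈ Pa l u A ↔ e.1.2 = u e.1.1 ∧ e.1.1.2 ∉ A := by
  unfold Pa
  rw [mem_filter, mem_Pc'']

/-- The coordinates of planted units which are not exposed are free. -/
private theorem base_false (P : Stp k T N l n Λ E) (y : Fin k → Fin T × Fin l → Bool)
    (v : Dat k T N Λ) (hv : v.1 ∈ Fintype.piFinset (live P.ρ)) (A : Finset (Fin T)) :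
    ∀ S ∈ Pa l v.1 A, P.base y v A S = false := by
  intro S hS
  rw [mem_Pa''] at hS
  unfold Stp.base gx
  rw [if_neg fun h => hS.2 h.1]
  have h1 := (Fintype.mem_piFinset.1 hv) S.1.1
  rw [live, mem_filter, ← hS.1] at h1
  have h2 : P.ρ S = none := h1.2 S.2
  unfold tr
  rw [h2]
  rfl

/-- Labels of planted units which are neither exposed nor touched do not matter. -/
private theorem labu_agree' (L : Slot k T N → Λ) (u : Fin k × Fin T → Fin N)
    (κ : Fin T → Fin k → Λ) {G : Crd k T N l → Bool} (A : Finset (Fin T))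
    (hG : ∀ S ∈ Pa l u A, G S = false)
    (X : Finset ((Fin k × Fin T) × Option (Fin l))) {Z : Finset (Crd k T N l)} :
    labu (plc L u κ univ) (fl G (Qc X u) Z) =
      labu (plc L u κ (bks k A ∪ bls X)) (fl G (Qc X u) Z) := by
  funext e
  unfold labu plc
  simp only [mem_univ, true_and]
  by_cases h1 : fl G (Qc X u) Z (e, none) = true ∧ e.2 = u e.1
  · have hJ : e.1 ∈ bks k A ∪ bls X := by
      by_contra hcon
      rw [mem_union, not_or] at hcon
      have hA : e.1.2 ∉ A := fun h => hcon.1 (mem_filter.2 ⟨mem_univ _, h⟩)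
      have h2 : (e, none) ∉ Qc X u := by
        intro h
        unfold Qc at h
        obtain ⟨e', he', h3⟩ := mem_image.1 h
        apply hcon.2
        unfold bls
        rw [mem_image]
        refine ⟨e', he', ?_⟩
        have := (Prod.mk.inj h3).1
        rw [← this]
      have h3 : (e, none) ∈ Pa l u A := mem_Pa''.2 ⟨h1.2, hA⟩
      have h4 := h1.1
      unfold fl at h4
      rw [if_neg h2, hG _ h3] at h4
      exact absurd h4 (by simp)
    rw [if_pos h1, if_pos ⟨h1.1, hJ, h1.2⟩]
  · rw [if_neg h1, if_neg (fun h => h1 ⟨h.1, h.2.2⟩)]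

/-- Row NODEP (from `small_dep_card` in CERT/Cross.lean, `inp_tch`, `exists_Qc`, `tch_Qc`,
`card_Qc`, and `labu_agree` in CERT/Lab.lean for exposed tuples). -/
theorem nodep (P : Stp k T N l n Λ E) {d : ℕ} (hd : ∀ i ≤ P.o, P.C.depth i ≤ d)
    (hW : 2 ≤ P.W) (ζ : E → Prop) (y : Fin k → Fin T × Fin l → Bool)
    (v : Dat k T N Λ) (hv : v.1 ∈ Fintype.piFinset (live P.ρ)) (A : Finset (Fin T))
    (h : P.wo ζ y v A = 0) :
    ∀ i ≤ P.o, tch (dep (gv P.C (P.inps ζ v univ) i) (P.base y v A) (Pa l v.1 A)) ≤ P.W := by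
  intro i hi
  have hfalse := base_false P y v hv A
  refine small_dep_card (C := P.C) (a := P.inps ζ v univ) (o := P.o) (d := d)
    (K := 2 * P.W * (l + 1)) hfalse (t := tch) tch_mono tch_union (by simp [tch]) (w := P.W)
    ?_ ?_ ?_ i hi (hd i hi)
  · rintro (e | e)
    · exact (inp_tch P.φ P.R (plc v.2.2 v.1 v.2.1 univ) e (P.base y v A) (Pa l v.1 A)).trans hW
    · have h1 : dep (fun x => P.inps ζ v univ x (Sum.inr e)) (P.base y v A) (Pa l v.1 A) = ∅ := by
        rw [eq_empty_iff_forall_notMem]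
        intro S hS
        have h2 : (fun x => P.inps ζ v univ x (Sum.inr e)) = fun _ => ζ e := rfl
        rw [h2] at hS
        unfold dep at hS
        simp at hS
      rw [h1]
      simp [tch]
  · intro Q hQ hQ2
    obtain ⟨X, rfl⟩ := exists_Qc (hQ.trans (filter_subset _ _))
    rw [tch_Qc] at hQ2
    refine (card_Qc X v.1).trans ?_
    rw [mul_comm (2 * P.W)]
    exact Nat.mul_le_mul_left _ hQ2
  · intro i hi hc _ Q hQ h1 h2 hev
    obtain ⟨X, rfl⟩ := exists_Qc (hQ.trans (filter_subset _ _))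
    rw [tch_Qc] at h1 h2
    have hX : X ∈ (med k T l P.W).filter fun X => Disjoint (tps X) A := by
      rw [mem_filter]
      refine ⟨mem_filter.2 ⟨mem_univ _, h1, h2⟩, ?_⟩
      rw [disjoint_left]
      intro r hr hrA
      obtain ⟨e, he, rfl⟩ := mem_image.1 hr
      have h3 := mem_Pa''.1 (hQ (mem_image_of_mem (fun e => ((e.1, v.1 e.1), e.2)) he))
      exact h3.2 hrA
    have hi' : i ∈ P.cgt := mem_filter.2 ⟨mem_range.2 (by omega), hc⟩
    have hwit : P.wit ζ y v i A X := by
      unfold Stp.wit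
      refine (ev_congr_a (fun Z _ => ?_) i).1 hev
      funext e
      unfold Stp.inps
      rcases e with e | e
      · show inp P.φ P.R (plc v.2.2 v.1 v.2.1 univ) _ e = inp P.φ P.R _ _ e
        unfold inp
        rw [grc_congr_lab P.φ P.R (labu_agree' v.2.2 v.1 v.2.1 A hfalse X (Z := Z))]
      · rfl
    have h3 : ind (P.wit ζ y v i A X) ≤ P.wo ζ y v A := by
      unfold Stp.wo
      refine le_trans ?_ (single_le_sum (f := fun i => ∑ X ∈ (med k T l P.W).filter
        (fun X => Disjoint (tps X) A), ind (P.wit ζ y v i A X))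
        (fun i _ => sum_nonneg fun X _ => ind_nonneg _) hi')
      exact single_le_sum (f := fun X => ind (P.wit ζ y v i A X)) (fun X _ => ind_nonneg _) hX
    rw [h, ind_true hwit] at h3
    linarith

end UniCore
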