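import Pool.Agent.Lib.UNI.Base

/-!
# PROJECT UNI, row NUMF
-/

set_option linter.unusedVariables false

open Finset

namespace UniCore

open SmallDepth CliqueDepth CliqueCert

theorem numf_large {c : ℝ} (hc : 0 < c) (K : ℝ) :
    ∃ n₀ : ℕ, 3 ≤ n₀ ∧ ∀ n ≥ n₀, K ≤ (n : ℝ) ^ c := by
  have h := (tendsto_rpow_atTop hc).comp (tendsto_natCast_atTop_atTop (R := ℝ))
  obtain ⟨n₀, hn₀⟩ := Filter.eventually_atTop.1 (h.eventually_ge_atTop K)
  exact ⟨max n₀ 3, le_max_right _ _, fun n hn => hn₀ n ((le_max_left _ _).trans hn)⟩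

theorem numf_two {x : ℝ} (hx : 1 ≤ x) : x ≤ (2 : ℝ) ^ (2 * Real.log x) := by
  have h1 : 0 ≤ Real.log x := Real.log_nonneg hx
  have h2 := Real.log_two_gt_d9
  calc x = Real.exp (Real.log x) := (Real.exp_log (by linarith)).symm
    _ ≤ Real.exp (Real.log 2 * (2 * Real.log x)) := Real.exp_le_exp.2 (by nlinarith)
    _ = (2 : ℝ) ^ (2 * Real.log x) := (Real.rpow_def_of_pos (by norm_num) _).symm

theorem numf_pow {x e : ℝ} (hx : 0 ≤ x) (h : x ≤ (2 : ℝ) ^ e) (m : ℕ) :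
    x ^ m ≤ (2 : ℝ) ^ (e * m) := by
  rw [Real.rpow_mul (by norm_num), Real.rpow_natCast]
  exact pow_le_pow_left₀ hx h m

theorem numf_mul {x y e f : ℝ} (hx : 0 ≤ x) (hy : 0 ≤ y) (h : x ≤ (2 : ℝ) ^ e)
    (h' : y ≤ (2 : ℝ) ^ f) : x * y ≤ (2 : ℝ) ^ (e + f) := by
  rw [Real.rpow_add (by norm_num)]
  exact mul_le_mul h h' hy (by positivity)

theorem numf_nat (m : ℕ) : (2 : ℝ) ^ m ≤ (2 : ℝ) ^ (m : ℝ) := by
  rw [Real.rpow_natCast]

/-- Row NUMF. -/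
theorem num_fourth {k W : ℕ} (hk : 1 ≤ k) (l : ℕ) {γ : ℝ} (hγ1 : γ ≤ 1) {c : ℝ} (hc : 0 < c) :
    ∃ n₀ : ℕ, ∀ n ≥ n₀, ∀ q t A T : ℕ, (q : ℝ) + Real.log n ≤ (n : ℝ) ^ c →
      (t : ℝ) ≤ (n : ℝ) ^ (1 - γ + c) → (A : ℝ) ≤ 2 ^ ((n : ℝ) ^ (1 - γ + c)) →
      (n : ℝ) ^ (1 - γ + 4 * c) ≤ T → k * T ≤ n →
      2 ^ q * 2 ^ q * (((T : ℝ) + 1) ^ (2 * W * (q + 1)) * 2 ^ (k * (2 * W * (q + 1) * l)) *
        (A * (16 * ((((k * T + 1) ^ k * 2 ^ (l * k) : ℕ) : ℝ) + 4) ^ 2 * 2 ^ q) ^ (t + q)) *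
          (2 ^ T * (1 / 256 : ℝ) ^ T)) ≤ 1 / 8 := by
  obtain ⟨n₀, h3, h₀⟩ := numf_large hc
    ((2 + 12 * W + 4 * k * W * l + 1 + 2 * (11 + 6 * k + 2 * l * k) : ℝ) + 3)
  refine ⟨n₀, fun n hn q t A T hq ht hA hT hkT => ?_⟩
  have hy0 := h₀ n hn
  have hn1 : (1 : ℝ) ≤ n := by exact_mod_cast (by omega : 1 ≤ n)
  have hn0 : (0 : ℝ) < n := by linarith
  have e1 : (n : ℝ) ^ (1 - γ + c) = (n : ℝ) ^ (1 - γ) * (n : ℝ) ^ c := Real.rpow_add hn0 _ _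
  have e2 : (n : ℝ) ^ (1 - γ + 4 * c) = (n : ℝ) ^ (1 - γ) * ((n : ℝ) ^ c) ^ 4 := by
    rw [Real.rpow_add hn0, show 4 * c = c * (4 : ℕ) by push_cast; ring, Real.rpow_mul hn0.le,
      Real.rpow_natCast]
  have hM : 1 ≤ (n : ℝ) ^ (1 - γ) := Real.one_le_rpow hn1 (by linarith)
  have hlam : 0 ≤ Real.log n := Real.log_nonneg hn1
  have hn2 : (n : ℝ) ≤ (2 : ℝ) ^ (2 * Real.log n) := numf_two hn1
  rw [e1] at ht hA
  rw [e2] at hT
  generalize (n : ℝ) ^ (1 - γ) = M at *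
  generalize (n : ℝ) ^ c = y at *
  generalize Real.log n = lam at *
  have hkT' : (k : ℝ) * T ≤ n := by exact_mod_cast hkT
  have hk1 : (1 : ℝ) ≤ k := by exact_mod_cast hk
  have hT0 : (0 : ℝ) ≤ T := Nat.cast_nonneg _
  have hq0 : (0 : ℝ) ≤ q := Nat.cast_nonneg _
  have ht0 : (0 : ℝ) ≤ t := Nat.cast_nonneg _
  have hl0 : (0 : ℝ) ≤ l := Nat.cast_nonneg _
  have hW0 : (0 : ℝ) ≤ W := Nat.cast_nonneg _
  have h2n : (2 : ℝ) * n ≤ (2 : ℝ) ^ (1 + 2 * lam) :=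
    numf_mul (by norm_num) hn0.le (by rw [Real.rpow_one]) hn2
  have hTn : (T : ℝ) + 1 ≤ (2 : ℝ) ^ (1 + 2 * lam) := by
    refine le_trans ?_ h2n
    nlinarith
  have hkTn : (k : ℝ) * T + 1 ≤ (2 : ℝ) ^ (1 + 2 * lam) := by
    refine le_trans ?_ h2n
    linarith
  -- the factors
  have f1 : (2 : ℝ) ^ q * 2 ^ q ≤ (2 : ℝ) ^ ((q : ℝ) + q) :=
    numf_mul (by positivity) (by positivity) (numf_nat q) (numf_nat q)
  have f2 : ((T : ℝ) + 1) ^ (2 * W * (q + 1)) * 2 ^ (k * (2 * W * (q + 1) * l)) ≤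
      (2 : ℝ) ^ ((1 + 2 * lam) * ((2 * W * (q + 1) : ℕ) : ℝ) +
        ((k * (2 * W * (q + 1) * l) : ℕ) : ℝ)) :=
    numf_mul (by positivity) (by positivity) (numf_pow (by positivity) hTn _) (numf_nat _)
  have hZ : ((((k * T + 1) ^ k * 2 ^ (l * k) : ℕ) : ℝ) + 4) ≤
      (2 : ℝ) ^ (3 + ((1 + 2 * lam) * k + ((l * k : ℕ) : ℝ))) := by
    have h1 : (((k * T + 1) ^ k * 2 ^ (l * k) : ℕ) : ℝ) ≤
        (2 : ℝ) ^ ((1 + 2 * lam) * k + ((l * k : ℕ) : ℝ)) := by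
      push_cast
      have := numf_mul (x := ((k : ℝ) * T + 1) ^ k) (y := (2 : ℝ) ^ (l * k)) (by positivity)
        (by positivity) (numf_pow (by positivity) hkTn k) (numf_nat (l * k))
      push_cast at this
      exact this
    have h2 : (1 : ℝ) ≤ (((k * T + 1) ^ k * 2 ^ (l * k) : ℕ) : ℝ) := by
      have : 1 ≤ (k * T + 1) ^ k * 2 ^ (l * k) :=
        Nat.succ_le_of_lt (Nat.mul_pos (Nat.pow_pos (Nat.succ_pos _)) (Nat.pow_pos (by norm_num)))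
      exact_mod_cast this
    have h3 : (8 : ℝ) * (((k * T + 1) ^ k * 2 ^ (l * k) : ℕ) : ℝ) ≤
        (2 : ℝ) ^ (3 + ((1 + 2 * lam) * k + ((l * k : ℕ) : ℝ))) :=
      numf_mul (by norm_num) (by linarith) (by
        rw [show (3 : ℝ) = ((3 : ℕ) : ℝ) by norm_num, Real.rpow_natCast]; norm_num) h1
    linarith
  have hX : (16 * ((((k * T + 1) ^ k * 2 ^ (l * k) : ℕ) : ℝ) + 4) ^ 2 * 2 ^ q) ≤
      (2 : ℝ) ^ (4 + (3 + ((1 + 2 * lam) * k + ((l * k : ℕ) : ℝ))) * ((2 : ℕ) : ℝ) + (q : ℝ)) := by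
    refine numf_mul (by positivity) (by positivity) (numf_mul (by norm_num) (by positivity) ?_
      (numf_pow (by positivity) hZ 2)) (numf_nat q)
    rw [show (4 : ℝ) = ((4 : ℕ) : ℝ) by norm_num, Real.rpow_natCast]; norm_num
  have f3 := numf_mul (Nat.cast_nonneg A) (by positivity) hA
    (numf_pow (by positivity) hX (t + q))
  have f4 : (2 : ℝ) ^ T * (1 / 256 : ℝ) ^ T ≤ (2 : ℝ) ^ ((-7 : ℝ) * (T : ℕ)) := by
    rw [← mul_pow]
    refine numf_pow (by norm_num) ?_ T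
    rw [show (-7 : ℝ) = -((7 : ℕ) : ℝ) by norm_num, Real.rpow_neg (by norm_num),
      Real.rpow_natCast]
    norm_num
  have f5 := numf_mul (by positivity) (by positivity) f1
    (numf_mul (by positivity) (by positivity) (numf_mul (by positivity) (by positivity) f2 f3) f4)
  refine f5.trans ?_
  rw [show (1 / 8 : ℝ) = (2 : ℝ) ^ (-3 : ℝ) by
    rw [show (-3 : ℝ) = -((3 : ℕ) : ℝ) by norm_num, Real.rpow_neg (by norm_num),
      Real.rpow_natCast]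
    norm_num]
  refine Real.rpow_le_rpow_of_exponent_le (by norm_num) ?_
  push_cast
  -- arithmetic
  have hc1 : (0 : ℝ) ≤ 2 + 12 * W + 4 * k * W * l + 1 + 2 * (11 + 6 * k + 2 * l * k) := by
    positivity
  have hy1 : 1 ≤ y := by linarith
  have hqy : (q : ℝ) ≤ y := by linarith
  have hly : lam ≤ y := by linarith
  have ha1 : 1 ≤ M * y ^ 2 := by nlinarith [pow_le_pow_left₀ (by norm_num : (0 : ℝ) ≤ 1) hy1 2]
  have hya : y ≤ M * y ^ 2 := by nlinarith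
  have hMya : M * y ≤ M * y ^ 2 := by nlinarith
  have hyya : y * y ≤ M * y ^ 2 := by nlinarith
  have g1 : (1 + 2 * lam) * (2 * W * (q + 1)) ≤ 12 * W * (M * y ^ 2) := by
    have h1 : (1 + 2 * lam) * (q + 1) ≤ (3 * y) * (2 * y) :=
      mul_le_mul (by linarith) (by linarith) (by linarith) (by linarith)
    calc (1 + 2 * lam) * (2 * W * (q + 1)) = 2 * W * ((1 + 2 * lam) * (q + 1)) := by ring
      _ ≤ 2 * W * ((3 * y) * (2 * y)) := mul_le_mul_of_nonneg_left h1 (by positivity)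
      _ = 12 * W * (y * y) := by ring
      _ ≤ 12 * W * (M * y ^ 2) := mul_le_mul_of_nonneg_left hyya (by positivity)
  have g2 : (k : ℝ) * (2 * W * (q + 1) * l) ≤ 4 * k * W * l * (M * y ^ 2) := by
    have h1 : (q : ℝ) + 1 ≤ 2 * (M * y ^ 2) := by linarith
    calc (k : ℝ) * (2 * W * (q + 1) * l) = (2 * k * W * l) * (q + 1) := by ring
      _ ≤ (2 * k * W * l) * (2 * (M * y ^ 2)) := mul_le_mul_of_nonneg_left h1 (by positivity)
      _ = 4 * k * W * l * (M * y ^ 2) := by ring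
  have g3 : (4 + (3 + ((1 + 2 * lam) * k + (l : ℝ) * k)) * 2 + q) * ((t : ℝ) + q) ≤
      2 * (11 + 6 * k + 2 * l * k) * (M * y ^ 2) := by
    have h1 : 4 + (3 + ((1 + 2 * lam) * k + (l : ℝ) * k)) * 2 + q ≤
        (11 + 6 * k + 2 * l * k) * y := by
      have h2 : (1 + 2 * lam) * k ≤ 3 * y * k :=
        mul_le_mul_of_nonneg_right (by linarith) (by positivity)
      have h3 : (l : ℝ) * k ≤ l * k * y := le_mul_of_one_le_right (by positivity) hy1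
      have h5 : (11 + 6 * k + 2 * l * k) * y = 11 * y + 2 * (3 * y * k) + 2 * (l * k * y) := by
        ring
      linarith
    have h6 : y ≤ M * y := le_mul_of_one_le_left (by linarith) hM
    have h4 : (t : ℝ) + q ≤ 2 * (M * y) := by linarith
    calc (4 + (3 + ((1 + 2 * lam) * k + (l : ℝ) * k)) * 2 + q) * ((t : ℝ) + q)
        ≤ ((11 + 6 * k + 2 * l * k) * y) * (2 * (M * y)) :=
          mul_le_mul h1 h4 (by positivity) (by positivity)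
      _ = 2 * (11 + 6 * k + 2 * l * k) * (M * y ^ 2) := by ring
  have g4 : M * y ^ 4 ≤ T := hT
  have g5 : (2 + 12 * W + 4 * k * W * l + 1 + 2 * (11 + 6 * k + 2 * l * k) + 3 : ℝ) *
      (M * y ^ 2) ≤ M * y ^ 4 := by
    have h1 : (2 + 12 * W + 4 * k * W * l + 1 + 2 * (11 + 6 * k + 2 * l * k) + 3 : ℝ) ≤
        y ^ 2 := by
      refine hy0.trans ?_
      rw [pow_two]
      exact le_mul_of_one_le_left (by linarith) hy1
    calc (2 + 12 * W + 4 * k * W * l + 1 + 2 * (11 + 6 * k + 2 * l * k) + 3 : ℝ) * (M * y ^ 2)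
        ≤ y ^ 2 * (M * y ^ 2) := mul_le_mul_of_nonneg_right h1 (by positivity)
      _ = M * y ^ 4 := by ring
  linarith

end UniCore
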