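import Pool.Agent.Lib.UNI.Base

/-!
# PROJECT UNI, row NUMP
-/

set_option linter.unusedVariables false

open Finset

namespace UniCore

open SmallDepth CliqueDepth CliqueCert

theorem nump_large {c : ℝ} (hc : 0 < c) (K : ℝ) :
    ∃ n₀ : ℕ, 3 ≤ n₀ ∧ ∀ n ≥ n₀, K ≤ (n : ℝ) ^ c := by
  have h := (tendsto_rpow_atTop hc).comp (tendsto_natCast_atTop_atTop (R := ℝ))
  obtain ⟨n₀, hn₀⟩ := Filter.eventually_atTop.1 (h.eventually_ge_atTop K)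
  exact ⟨max n₀ 3, le_max_right _ _, fun n hn => hn₀ n ((le_max_left _ _).trans hn)⟩

theorem nump_ev {C₀ : ℕ} (K : ℕ) {q f m : ℕ} {y L : ℝ} (hy : 1 ≤ y) (hf : (f : ℝ) ≤ y)
    (hq : (q : ℝ) ≤ y) (hL : L ≤ y) (hL0 : 0 ≤ L) (hm : m = C₀ * (q + 1) * ⌈L⌉₊) :
    (evB K m f : ℝ) ≤ (2 ^ K * 2 * (4 * C₀ + 1) ^ (2 ^ K)) ^ (K + 1) *
      y ^ ((1 + 2 * 2 ^ K) * (K + 1)) := by
  have h1 : (⌈L⌉₊ : ℝ) ≤ 2 * y := by
    have := (Nat.ceil_lt_add_one hL0).le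
    linarith
  have h2 : (m : ℝ) + 1 ≤ (4 * C₀ + 1) * y ^ 2 := by
    have h3 : (m : ℝ) ≤ C₀ * (2 * y) * (2 * y) := by
      rw [hm]
      push_cast
      refine mul_le_mul (mul_le_mul_of_nonneg_left (by linarith) (by positivity)) h1
        (by positivity) (by positivity)
    have h4 : 1 ≤ y ^ 2 := by nlinarith
    nlinarith
  have h3 : (f : ℝ) + 1 ≤ 2 * y := by linarith
  unfold evB
  push_cast
  calc ((2 : ℝ) ^ K * (f + 1) * (m + 1) ^ (2 ^ K)) ^ (K + 1)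
      ≤ ((2 : ℝ) ^ K * (2 * y) * ((4 * C₀ + 1) * y ^ 2) ^ (2 ^ K)) ^ (K + 1) := by
        refine pow_le_pow_left₀ (by positivity) ?_ _
        refine mul_le_mul (mul_le_mul_of_nonneg_left h3 (by positivity))
          (pow_le_pow_left₀ (by positivity) h2 _) (by positivity) (by positivity)
    _ = (2 ^ K * 2 * (4 * C₀ + 1) ^ (2 ^ K)) ^ (K + 1) * y ^ ((1 + 2 * 2 ^ K) * (K + 1)) := by
        rw [pow_mul y, ← mul_pow]
        congr 1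
        rw [mul_pow, pow_add, pow_one, pow_mul]
        ring

/-- Row NUMP. -/
theorem num_p {k W : ℕ} (hW : 2 ≤ W) (hWk : 2 * W < k) (l : ℕ) {γ ε : ℝ} (hγ : 0 < γ)
    (hγ1 : γ ≤ 1) (hε : 0 < ε) (hεγ : ε ≤ γ) (C₀ : ℕ) :
    ∃ c₀ : ℝ, 0 < c₀ ∧ ∀ c : ℝ, 0 < c → c ≤ c₀ → ∃ n₀ : ℕ, ∀ n ≥ n₀, ∀ d f q s N₁ m : ℕ,
      ∀ b : ℝ, ((q : ℝ) + f + Real.log n) ^ (d + 1) ≤ (n : ℝ) ^ c →
      (s : ℝ) < (n : ℝ) ^ (γ * (W + 1 : ℕ) - ε) → m = C₀ * (q + 1) * ⌈Real.log n⌉₊ →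
      (n : ℝ) ^ (γ - 4 * c * (l + 3)) ≤ N₁ → 1 ≤ b → b ≤ (n : ℝ) ^ (2 * k + 1) →
      ((s : ℝ) + 1) * (b ^ (ε / (16 * k ^ 2))) ^ (2 * W) *
        ((evB (2 * W * (l + 1)) m f : ℝ) / (N₁ : ℝ) ^ (W + 1)) ≤ (n : ℝ) ^ (-(ε / 2)) := by
  set K : ℕ := 2 * W * (l + 1) with hK
  set D : ℕ := (1 + 2 * 2 ^ K) * (K + 1) with hD
  set Q : ℝ := (2 ^ K * 2 * (4 * C₀ + 1) ^ (2 ^ K)) ^ (K + 1) with hQ
  have hQ0 : 0 < Q := by positivity
  set E : ℝ := D + 4 * (l + 3) * (W + 1) with hE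
  have hE0 : 0 < E := by positivity
  refine ⟨ε / (8 * E), by positivity, fun c hc hcc => ?_⟩
  obtain ⟨n₀, h3, h₀⟩ := nump_large (c := ε / 8) (by positivity) (2 * Q)
  refine ⟨n₀, fun n hn d f q s N₁ m b hq hs hm hN hb1 hbn => ?_⟩
  have hnQ := h₀ n hn
  have hn3 : (3 : ℝ) ≤ n := by exact_mod_cast (by omega : 3 ≤ n)
  have hn1 : (1 : ℝ) ≤ n := by linarith
  have hn0 : (0 : ℝ) < n := by linarith
  have hlog : 1 ≤ Real.log n := by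
    rw [Real.le_log_iff_exp_le hn0]
    have := Real.exp_one_lt_d9
    linarith
  have hq0 : (0 : ℝ) ≤ q := Nat.cast_nonneg _
  have hf0 : (0 : ℝ) ≤ f := Nat.cast_nonneg _
  have hΦ1 : 1 ≤ (q : ℝ) + f + Real.log n := by linarith
  have hΦ : (q : ℝ) + f + Real.log n ≤ (n : ℝ) ^ c :=
    (le_self_pow₀ hΦ1 (Nat.succ_ne_zero d)).trans hq
  have hy1 : 1 ≤ (n : ℝ) ^ c := Real.one_le_rpow hn1 hc.le
  have hev := nump_ev (C₀ := C₀) K (m := m) hy1 (f := f) (q := q) (L := Real.log n)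
    (by linarith) (by linarith) (by linarith) (by linarith) hm
  have hevn : (evB K m f : ℝ) ≤ Q * (n : ℝ) ^ (c * D) := by
    rw [Real.rpow_mul hn0.le, Real.rpow_natCast]
    exact hev
  -- `s + 1`
  have hk0 : (0 : ℝ) < k := by exact_mod_cast (by omega : 0 < k)
  have hW0 : (0 : ℝ) ≤ W := Nat.cast_nonneg _
  have hexp : 0 ≤ γ * (W + 1 : ℕ) - ε := by
    push_cast
    nlinarith
  have hs1 : (s : ℝ) + 1 ≤ 2 * (n : ℝ) ^ (γ * (W + 1 : ℕ) - ε) := by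
    have := Real.one_le_rpow hn1 hexp
    linarith
  -- `b`
  have hbε : (b ^ (ε / (16 * k ^ 2))) ^ (2 * W) ≤ (n : ℝ) ^ (ε / 4) := by
    have hb0 : 0 ≤ b := by linarith
    have h1 : b ^ (ε / (16 * k ^ 2)) ≤ (n : ℝ) ^ (((2 * k + 1 : ℕ) : ℝ) * (ε / (16 * k ^ 2))) := by
      rw [Real.rpow_mul hn0.le, Real.rpow_natCast]
      exact Real.rpow_le_rpow hb0 hbn (by positivity)
    calc (b ^ (ε / (16 * k ^ 2))) ^ (2 * W)
        ≤ ((n : ℝ) ^ (((2 * k + 1 : ℕ) : ℝ) * (ε / (16 * k ^ 2)))) ^ (2 * W) :=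
          pow_le_pow_left₀ (Real.rpow_nonneg hb0 _) h1 _
      _ = (n : ℝ) ^ (((2 * k + 1 : ℕ) : ℝ) * (ε / (16 * k ^ 2)) * ((2 * W : ℕ) : ℝ)) := by
          rw [Real.rpow_mul hn0.le _ ((2 * W : ℕ) : ℝ), Real.rpow_natCast]
      _ ≤ (n : ℝ) ^ (ε / 4) := by
          refine Real.rpow_le_rpow_of_exponent_le hn1 ?_
          have h2 : ((2 * W : ℕ) : ℝ) ≤ k := by exact_mod_cast hWk.le
          have h3 : (1 : ℝ) ≤ k := by exact_mod_cast (by omega : 1 ≤ k)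
          calc ((2 * k + 1 : ℕ) : ℝ) * (ε / (16 * k ^ 2)) * ((2 * W : ℕ) : ℝ)
              ≤ (4 * k) * (ε / (16 * k ^ 2)) * k := by
                refine mul_le_mul (mul_le_mul_of_nonneg_right ?_ (by positivity)) h2
                  (by positivity) (by positivity)
                push_cast
                linarith
            _ = ε / 4 := by field_simp; ring
  -- `N₁`
  have hN' : (n : ℝ) ^ ((γ - 4 * c * (l + 3)) * ((W + 1 : ℕ) : ℝ)) ≤ (N₁ : ℝ) ^ (W + 1) := by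
    rw [Real.rpow_mul hn0.le, Real.rpow_natCast]
    exact pow_le_pow_left₀ (Real.rpow_nonneg hn0.le _) hN _
  have hNpos : 0 < (n : ℝ) ^ ((γ - 4 * c * (l + 3)) * ((W + 1 : ℕ) : ℝ)) :=
    Real.rpow_pos_of_pos hn0 _
  have hfrac : (evB K m f : ℝ) / (N₁ : ℝ) ^ (W + 1) ≤
      Q * (n : ℝ) ^ (c * D) / (n : ℝ) ^ ((γ - 4 * c * (l + 3)) * ((W + 1 : ℕ) : ℝ)) :=
    div_le_div₀ (by positivity) hevn hNpos hN'
  calc ((s : ℝ) + 1) * (b ^ (ε / (16 * k ^ 2))) ^ (2 * W) *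
        ((evB K m f : ℝ) / (N₁ : ℝ) ^ (W + 1))
      ≤ (2 * (n : ℝ) ^ (γ * (W + 1 : ℕ) - ε)) * (n : ℝ) ^ (ε / 4) *
        (Q * (n : ℝ) ^ (c * D) / (n : ℝ) ^ ((γ - 4 * c * (l + 3)) * ((W + 1 : ℕ) : ℝ))) := by
        have hb0 : 0 ≤ b := by linarith
        refine mul_le_mul (mul_le_mul hs1 hbε (by positivity) (by positivity)) hfrac
          (by positivity) (by positivity)
    _ = 2 * Q * (n : ℝ) ^ (γ * (W + 1 : ℕ) - ε + ε / 4 + c * D -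
          (γ - 4 * c * (l + 3)) * ((W + 1 : ℕ) : ℝ)) := by
        rw [Real.rpow_sub hn0 (γ * (W + 1 : ℕ) - ε + ε / 4 + c * D),
          Real.rpow_add hn0 (γ * (W + 1 : ℕ) - ε + ε / 4) (c * D),
          Real.rpow_add hn0 (γ * (W + 1 : ℕ) - ε) (ε / 4)]
        ring
    _ ≤ (n : ℝ) ^ (ε / 8) * (n : ℝ) ^ (γ * (W + 1 : ℕ) - ε + ε / 4 + c * D -
          (γ - 4 * c * (l + 3)) * ((W + 1 : ℕ) : ℝ)) :=
        mul_le_mul_of_nonneg_right hnQ (Real.rpow_nonneg hn0.le _)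
    _ = (n : ℝ) ^ (ε / 8 + (γ * (W + 1 : ℕ) - ε + ε / 4 + c * D -
          (γ - 4 * c * (l + 3)) * ((W + 1 : ℕ) : ℝ))) := (Real.rpow_add hn0 _ _).symm
    _ ≤ (n : ℝ) ^ (-(ε / 2)) := by
        refine Real.rpow_le_rpow_of_exponent_le hn1 ?_
        have h1 : c * E ≤ ε / 8 := by
          calc c * E ≤ ε / (8 * E) * E := mul_le_mul_of_nonneg_right hcc hE0.le
            _ = ε / 8 := by field_simp
        have h2 : c * E = c * D + 4 * c * (l + 3) * ((W + 1 : ℕ) : ℝ) := by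
          rw [hE]; push_cast; ring
        have h3 : (γ - 4 * c * (l + 3)) * ((W + 1 : ℕ) : ℝ) =
          γ * (W + 1 : ℕ) - 4 * c * (l + 3) * ((W + 1 : ℕ) : ℝ) := by ring
        linarith

end UniCore
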