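import Pool.Agent.Lib.UNI.Base
import Pool.Agent.Lib.CERT.Cardx

/-!
# PROJECT UNI, row NUMT: the third term (helper8)
-/

set_option autoImplicit false
set_option linter.unusedVariables false

open Finset

namespace UniCore

open SmallDepth CliqueDepth CliqueCert

/-- All factors are at most `X = x ^ D`, apart from the power of `2` at the end. -/
theorem numt_prod {x X S M T Q P : ℝ} {D q W m : ℕ} (hx : 8 ≤ x) (hX : X = x ^ D)
    (hS0 : 0 ≤ S) (hS : S ≤ X) (hM0 : 0 ≤ M) (hM : M ≤ X) (hT0 : 0 ≤ T) (hT : T ≤ X)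
    (hQ0 : 0 ≤ Q) (hQ : Q ≤ X) (hP0 : 0 ≤ P) (hP : P ≤ X)
    (hm : x ^ ((q + 1) * (6 + 5 * D + 6 * W * D)) ≤ 2 ^ m) :
    2 ^ q * 2 ^ q * (((q + 1 : ℕ) : ℝ) * (S * Q ^ (2 * W) * M *
      ((S * M) ^ (q + 1) * T ^ (2 * W * (q + 1)) * P ^ (2 * W * (q + 1)) *
        (2 * (2 ^ q * 2 ^ q * (S * (2 / 2 ^ m))))))) ≤ 1 / 8 := by
  have x0 : 0 < x := by linarith
  have x1 : 1 ≤ x := by linarith
  have hX1 : 1 ≤ X := by rw [hX]; exact one_le_pow₀ x1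
  have h2q : (2 : ℝ) ^ q ≤ x ^ q := pow_le_pow_left₀ (by norm_num) (by linarith) q
  have hq : ((q + 1 : ℕ) : ℝ) ≤ x ^ q := by
    have h1 : q + 1 ≤ 2 ^ q := Nat.lt_two_pow_self
    have h2 : ((q + 1 : ℕ) : ℝ) ≤ 2 ^ q := by exact_mod_cast h1
    exact h2.trans h2q
  have h2 : (2 : ℝ) ≤ x := by linarith
  have hm0 : (0 : ℝ) < 2 ^ m := by positivity
  have hq0 : (0 : ℝ) ≤ ((q + 1 : ℕ) : ℝ) := Nat.cast_nonneg _
  calc 2 ^ q * 2 ^ q * (((q + 1 : ℕ) : ℝ) * (S * Q ^ (2 * W) * M *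
      ((S * M) ^ (q + 1) * T ^ (2 * W * (q + 1)) * P ^ (2 * W * (q + 1)) *
        (2 * (2 ^ q * 2 ^ q * (S * (2 / 2 ^ m)))))))
      ≤ x ^ q * x ^ q * (x ^ q * (X * X ^ (2 * W) * X *
      ((X * X) ^ (q + 1) * X ^ (2 * W * (q + 1)) * X ^ (2 * W * (q + 1)) *
        (x * (x ^ q * x ^ q * (X * (x / 2 ^ m))))))) := by gcongr
    _ = x ^ (5 * q + 2 + D * (3 + 2 * W + (q + 1) * (2 + 4 * W))) / 2 ^ m := by
        have e1 : x ^ (5 * q + 2 + D * (3 + 2 * W + (q + 1) * (2 + 4 * W))) =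
            (x ^ q) ^ 5 * x ^ 2 * X ^ (3 + 2 * W + (q + 1) * (2 + 4 * W)) := by
          rw [hX, ← pow_mul, ← pow_mul, pow_add, pow_add, mul_comm q 5]
        rw [e1]
        have e2 : X ^ (3 + 2 * W + (q + 1) * (2 + 4 * W)) =
            X ^ 3 * X ^ (2 * W) * ((X ^ (q + 1)) ^ 2 * X ^ (2 * W * (q + 1)) *
              X ^ (2 * W * (q + 1))) := by
          rw [← pow_mul, ← pow_add, ← pow_add, ← pow_add, ← pow_add]
          congr 1
          ring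
        rw [e2, mul_pow]
        ring
    _ ≤ 1 / 8 := by
        rw [div_le_div_iff₀ hm0 (by norm_num)]
        calc x ^ (5 * q + 2 + D * (3 + 2 * W + (q + 1) * (2 + 4 * W))) * 8
            ≤ x ^ (5 * q + 2 + D * (3 + 2 * W + (q + 1) * (2 + 4 * W))) * x := by gcongr
          _ = x ^ (5 * q + 2 + D * (3 + 2 * W + (q + 1) * (2 + 4 * W)) + 1) := (pow_succ _ _).symm
          _ ≤ x ^ ((q + 1) * (6 + 5 * D + 6 * W * D)) := by
              apply pow_le_pow_right₀ x1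
              nlinarith [Nat.zero_le (q * D), Nat.zero_le (q * W * D), Nat.zero_le (W * D)]
          _ ≤ 1 * 2 ^ m := by rw [one_mul]; exact hm

theorem numt_two {x : ℝ} {n E C₀ q m : ℕ} (hx : x = (n : ℝ)) (x1 : 1 ≤ x) (hC : 2 * E ≤ C₀)
    (hm : m = C₀ * (q + 1) * ⌈Real.log n⌉₊) : x ^ ((q + 1) * E) ≤ 2 ^ m := by
  have x0 : 0 < x := by linarith
  have hlog : 0 ≤ Real.log x := Real.log_nonneg x1
  have h2 : (1 : ℝ) / 2 ≤ Real.log 2 := by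
    have := Real.log_two_gt_d9
    linarith
  have h1 : Real.log x ≤ (⌈Real.log n⌉₊ : ℝ) := by rw [hx]; exact Nat.le_ceil _
  rw [← Real.log_le_log_iff (by positivity) (by positivity), Real.log_pow, Real.log_pow, hm]
  push_cast
  have hC' : (2 : ℝ) * E ≤ C₀ := by exact_mod_cast hC
  calc ((q : ℝ) + 1) * E * Real.log x = ((q : ℝ) + 1) * (2 * E) * Real.log x * (1 / 2) := by ring
    _ ≤ ((q : ℝ) + 1) * C₀ * (⌈Real.log n⌉₊ : ℝ) * Real.log 2 := by gcongr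
    _ = _ := by ring

theorem num_third {k W : ℕ} (hW : 2 ≤ W) (hWk : 2 * W < k) (l : ℕ) {γ ε : ℝ} (hγ : 0 < γ)
    (hγ1 : γ ≤ 1) (hε : 0 < ε) (hεγ : ε ≤ γ) :
    ∃ C₁ : ℕ, ∀ C₀ ≥ C₁, ∃ n₀ : ℕ, ∀ n ≥ n₀, ∀ q s T m : ℕ, ∀ b : ℝ,
      (s : ℝ) < (n : ℝ) ^ (γ * (W + 1 : ℕ) - ε) → k * T ≤ n → 1 ≤ b →
      b ≤ (n : ℝ) ^ (2 * k + 1) → m = C₀ * (q + 1) * ⌈Real.log n⌉₊ →
      2 ^ q * 2 ^ q * (((q + 1 : ℕ) : ℝ) * (((s : ℝ) + 1) * (b ^ (ε / (16 * k ^ 2))) ^ (2 * W) *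
        ((med k T l W).card + 1) *
          ((((s : ℝ) + 1) * ((med k T l W).card + 1)) ^ (q + 1) *
            (T + 1) ^ (2 * W * (q + 1)) * (b ^ (ε / (16 * k ^ 2)) * b) ^ (2 * W * (q + 1)) *
              (2 * (2 ^ q * 2 ^ q * (((s : ℝ) + 1) * (2 / 2 ^ m))))))) ≤ 1 / 8 := by
  obtain ⟨D, hD⟩ : ∃ D, D = 4 * W + 2 * W * (l + 1) + 1 + (W + 2) + 2 + 2 * (2 * k + 1) :=
    ⟨_, rfl⟩
  refine ⟨2 * (6 + 5 * D + 6 * W * D), fun C₀ hC₀ => ⟨8, ?_⟩⟩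
  intro n hn q s T m b hs hkT hb1 hb hm
  obtain ⟨x, hx⟩ : ∃ x : ℝ, x = (n : ℝ) := ⟨_, rfl⟩
  rw [← hx] at hs hb
  have hx8 : 8 ≤ x := by rw [hx]; exact_mod_cast hn
  have x0 : 0 < x := by linarith
  have x1 : 1 ≤ x := by linarith
  have b0 : 0 < b := by linarith
  have hk : 5 ≤ k := by omega
  have hkr : (5 : ℝ) ≤ k := by exact_mod_cast hk
  have mono : ∀ a : ℕ, a ≤ D → x ^ a ≤ x ^ D := fun a ha => pow_le_pow_right₀ x1 ha
  have hT : (T : ℝ) ≤ x := by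
    have h1 : T ≤ n := le_trans (Nat.le_mul_of_pos_left _ (by omega)) hkT
    rw [hx]; exact_mod_cast h1
  have hkT' : ((k * T : ℕ) : ℝ) ≤ x := by rw [hx]; exact_mod_cast hkT
  -- the bounds
  have hS : (s : ℝ) + 1 ≤ x ^ D := by
    have h1 : (s : ℝ) ≤ x ^ (W + 1) := by
      refine hs.le.trans ?_
      rw [← Real.rpow_natCast]
      apply Real.rpow_le_rpow_of_exponent_le x1
      have : (0 : ℝ) ≤ ((W + 1 : ℕ) : ℝ) := Nat.cast_nonneg _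
      nlinarith
    have h2 : 1 ≤ x ^ (W + 1) := one_le_pow₀ x1
    calc (s : ℝ) + 1 ≤ x ^ (W + 1) * 2 := by linarith
      _ ≤ x ^ (W + 1) * x := by gcongr; linarith
      _ = x ^ (W + 2) := by rw [← pow_succ]
      _ ≤ x ^ D := mono _ (by omega)
  have hTT : (T : ℝ) + 1 ≤ x ^ D := by
    calc (T : ℝ) + 1 ≤ x * 2 := by linarith
      _ ≤ x * x := by gcongr; linarith
      _ = x ^ 2 := by ring
      _ ≤ x ^ D := mono _ (by omega)
  have hM : ((med k T l W).card : ℝ) + 1 ≤ x ^ D := by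
    have h1 := card_med k T l W
    have h2 : ((k * T + 1 : ℕ) : ℝ) ≤ x ^ 2 := by
      have : ((k * T + 1 : ℕ) : ℝ) = ((k * T : ℕ) : ℝ) + 1 := by push_cast; ring
      rw [this]
      calc ((k * T : ℕ) : ℝ) + 1 ≤ x * 2 := by linarith
        _ ≤ x * x := by gcongr; linarith
        _ = x ^ 2 := by ring
    have h3 : ((med k T l W).card : ℝ) ≤ x ^ (4 * W + 2 * W * (l + 1)) := by
      calc ((med k T l W).card : ℝ)
          ≤ (((k * T + 1 : ℕ) : ℝ)) ^ (2 * W) * 2 ^ (2 * W * (l + 1)) := h1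
        _ ≤ (x ^ 2) ^ (2 * W) * x ^ (2 * W * (l + 1)) := by gcongr; linarith
        _ = x ^ (4 * W + 2 * W * (l + 1)) := by
            rw [← pow_mul, ← pow_add]; congr 1; ring
    have h4 : 1 ≤ x ^ (4 * W + 2 * W * (l + 1)) := one_le_pow₀ x1
    calc ((med k T l W).card : ℝ) + 1 ≤ x ^ (4 * W + 2 * W * (l + 1)) * 2 := by linarith
      _ ≤ x ^ (4 * W + 2 * W * (l + 1)) * x := by gcongr; linarith
      _ = x ^ (4 * W + 2 * W * (l + 1) + 1) := by rw [← pow_succ]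
      _ ≤ x ^ D := mono _ (by omega)
  have hQb : b ^ (ε / (16 * k ^ 2)) ≤ b := by
    calc b ^ (ε / (16 * k ^ 2)) ≤ b ^ (1 : ℝ) := by
          apply Real.rpow_le_rpow_of_exponent_le hb1
          rw [div_le_one (by positivity)]
          nlinarith
      _ = b := Real.rpow_one b
  have hQ : b ^ (ε / (16 * k ^ 2)) ≤ x ^ D := hQb.trans (hb.trans (mono _ (by omega)))
  have hQ0 : 0 ≤ b ^ (ε / (16 * k ^ 2)) := Real.rpow_nonneg b0.le _
  have hP : b ^ (ε / (16 * k ^ 2)) * b ≤ x ^ D := by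
    calc b ^ (ε / (16 * k ^ 2)) * b ≤ x ^ (2 * k + 1) * x ^ (2 * k + 1) :=
          mul_le_mul (hQb.trans hb) hb b0.le (by positivity)
      _ = x ^ (2 * (2 * k + 1)) := by rw [← pow_add]; congr 1; ring
      _ ≤ x ^ D := mono _ (by omega)
  exact numt_prod hx8 rfl (by positivity) hS (by positivity) hM (by positivity) hTT hQ0 hQ
    (by positivity) hP (numt_two hx x1 hC₀ hm)

end UniCore
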