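import Pool.Agent.Lib.UNI.Base
import Pool.Agent.Lib.CERT.Full
import Pool.Agent.Lib.CERT.Lab

/-! # PROJECT UNI, row SUMX: the sum over the positions of the planted units -/

open Finset

namespace UniCore

open SmallDepth CliqueDepth CliqueCert

section resample

variable {β γ : Type} [DecidableEq β] [Fintype β] [DecidableEq γ]

omit [DecidableEq γ] in
theorem sumx_update (S : β → Finset γ) (b : β) (f : (β → γ) → ℝ) :
    ((S b).card : ℝ) * ∑ u ∈ Fintype.piFinset S, f u =
      ∑ u ∈ Fintype.piFinset S, ∑ x ∈ S b, f (Function.update u b x) := by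
  have key : ∀ q : (β → γ) × γ, q ∈ Fintype.piFinset S ×ˢ S b →
      (Function.update q.1 b q.2, q.1 b) ∈ Fintype.piFinset S ×ˢ S b := by
    rintro ⟨u, x⟩ hq
    rw [mem_product, Fintype.mem_piFinset] at hq ⊢
    refine ⟨fun b' => ?_, hq.1 b⟩
    by_cases h : b' = b
    · subst h
      show Function.update u b' x b' ∈ S b'
      rw [Function.update_self]
      exact hq.2
    · show Function.update u b x b' ∈ S b'
      rw [Function.update_of_ne h]
      exact hq.1 b'
  have inv : ∀ q : (β → γ) × γ,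
      (Function.update (Function.update q.1 b q.2) b (q.1 b),
        (Function.update q.1 b q.2) b) = q := by
    rintro ⟨u, x⟩
    simp
  have h1 : ∑ q ∈ Fintype.piFinset S ×ˢ S b, f (Function.update q.1 b q.2) =
      ∑ q ∈ Fintype.piFinset S ×ˢ S b, f q.1 :=
    sum_bij' (fun q _ => (Function.update q.1 b q.2, q.1 b))
      (fun q _ => (Function.update q.1 b q.2, q.1 b)) (fun q hq => key q hq)
      (fun q hq => key q hq) (fun q _ => inv q) (fun q _ => inv q) (fun q _ => rfl)
  rw [sum_product, sum_product] at h1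
  rw [h1]
  simp_rw [sum_const, nsmul_eq_mul]
  rw [mul_sum]

theorem sumx_one (S : β → Finset γ) (b : β) (c : γ) (h : (β → γ) → ℝ) (h0 : ∀ u, 0 ≤ h u)
    (hb : ∀ u x, h (Function.update u b x) = h u) :
    ((S b).card : ℝ) * ∑ u ∈ Fintype.piFinset S, h u * ind (u b = c) ≤
      ∑ u ∈ Fintype.piFinset S, h u := by
  rw [sumx_update S b]
  refine sum_le_sum fun u _ => ?_
  simp_rw [hb, Function.update_self]
  rw [← mul_sum]
  refine mul_le_of_le_one_right (h0 u) ?_
  by_cases hc : c ∈ S b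
  · rw [sum_eq_single_of_mem c hc fun x _ hx => ind_false hx, ind_true rfl]
  · rw [sum_eq_zero fun x hx => ind_false (P := x = c) fun h => hc (by rw [← h]; exact hx)]
    exact zero_le_one

theorem sumx_fix (S : β → Finset γ) {N₁ : ℕ} (hN : ∀ b, N₁ ≤ (S b).card) (c : β → γ)
    (J : Finset β) : ∀ h : (β → γ) → ℝ, (∀ u, 0 ≤ h u) →
      (∀ u u', (∀ b, b ∉ J → u b = u' b) → h u = h u') →
      (N₁ : ℝ) ^ J.card * ∑ u ∈ Fintype.piFinset S, h u * ind (∀ b ∈ J, u b = c b) ≤
        ∑ u ∈ Fintype.piFinset S, h u := by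
  induction J using Finset.induction_on with
  | empty =>
    intro h _ _
    rw [card_empty, pow_zero, one_mul]
    refine (sum_congr rfl fun u _ => ?_).le
    rw [ind_true (by simp), mul_one]
  | insert b J hbJ ih =>
    intro h h0 hJ
    have h1 := ih h h0 fun u u' huu => hJ u u' fun b' hb' => huu b' fun hb'' =>
      hb' (mem_insert_of_mem hb'')
    refine le_trans ?_ h1
    rw [card_insert_of_notMem hbJ, pow_succ, mul_assoc]
    refine mul_le_mul_of_nonneg_left ?_ (by positivity)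
    have h2 := sumx_one S b (c b) (fun u => h u * ind (∀ b' ∈ J, u b' = c b'))
      (fun u => mul_nonneg (h0 u) (ind_nonneg _)) (fun u x => by
        have e1 : h (Function.update u b x) = h u := hJ _ _ fun b' hb' =>
          Function.update_of_ne (fun e => hb' (by rw [e]; exact mem_insert_self _ _)) _ _
        have e2 : (∀ b' ∈ J, Function.update u b x b' = c b') ↔ ∀ b' ∈ J, u b' = c b' :=
          forall₂_congr fun b' hb' => by
            have hne : b' ≠ b := fun e => hbJ (by rw [← e]; exact hb')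
            rw [Function.update_of_ne hne]
        show h (Function.update u b x) * ind (∀ b' ∈ J, Function.update u b x b' = c b') = _
        rw [e1, propext e2])
    have h3 : ∀ u, h u * ind (∀ b' ∈ insert b J, u b' = c b') =
        h u * ind (∀ b' ∈ J, u b' = c b') * ind (u b = c b) := by
      intro u
      rw [mul_assoc, ← ind_and]
      congr 2
      rw [forall_mem_insert]
      exact propext and_comm
    simp_rw [h3]
    refine le_trans ?_ h2
    refine mul_le_mul_of_nonneg_right ?_ (sum_nonneg fun u _ =>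
      mul_nonneg (mul_nonneg (h0 u) (ind_nonneg _)) (ind_nonneg _))
    exact_mod_cast hN b

end resample

variable {k T N l n : ℕ} {Λ E : Type}

theorem sumx_mem_bks {A : Finset (Fin T)} {b : Fin k × Fin T} : b ∈ bks k A ↔ b.2 ∈ A := by
  simp [bks]

/-- The set `X` is determined by `Qc X u`. -/
theorem sumx_proj (X : Finset ((Fin k × Fin T) × Option (Fin l))) (u : Fin k × Fin T → Fin N) :
    (Qc X u).image (fun e : Crd k T N l => (e.1.1, e.2)) = X := by
  unfold Qc
  rw [image_image]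
  have : ((fun e : Crd k T N l => (e.1.1, e.2)) ∘
      fun e : (Fin k × Fin T) × Option (Fin l) => ((e.1, u e.1), e.2)) = id := by
    funext e
    rfl
  rw [this, image_id]

/-- The good part. -/
theorem sumx_good {W N₁ : ℕ} {S : Fin k × Fin T → Finset (Fin N)} (hN₁ : 0 < N₁)
    (hN : ∀ b, N₁ ≤ (S b).card) (A : Finset (Fin T)) {w : (Fin k × Fin T → Fin N) → ℝ}
    (hw0 : ∀ u, 0 ≤ w u) (hw : ∀ u u', (∀ b ∈ bks k A, u b = u' b) → w u = w u')
    (𝒬 : (Fin k × Fin T → Fin N) → Finset (Finset (Crd k T N l)))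
    (h𝒬 : ∀ u u', (∀ b ∈ bks k A, u b = u' b) → 𝒬 u = 𝒬 u') :
    (N₁ : ℝ) ^ (W + 1) * ∑ u ∈ Fintype.piFinset S, w u *
      ∑ X ∈ (med k T l W).filter (fun X => Disjoint (tps X) A), ind (Qc X u ∈ 𝒬 u) ≤
      ∑ u ∈ Fintype.piFinset S, w u * (𝒬 u).card := by
  classical
  set M := (med k T l W).filter (fun X => Disjoint (tps X) A) with hM
  have h1 : ∀ u, w u * ∑ X ∈ M, ind (Qc X u ∈ 𝒬 u) =
      ∑ Q : Finset (Crd k T N l), ∑ X ∈ M, w u * ind (Q ∈ 𝒬 u) * ind (Qc X u = Q) := by
    intro u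
    rw [sum_comm, mul_sum]
    refine sum_congr rfl fun X _ => ?_
    rw [sum_eq_single (Qc X u)]
    · rw [ind_true rfl, mul_one]
    · intro Q _ hQ
      rw [ind_false (Ne.symm hQ), mul_zero]
    · exact fun h => absurd (mem_univ _) h
  simp_rw [h1]
  rw [sum_comm]
  have h2 : ∀ u, w u * ((𝒬 u).card : ℝ) = ∑ Q : Finset (Crd k T N l), w u * ind (Q ∈ 𝒬 u) := by
    intro u
    rw [← mul_sum]
    congr 1
    have h3 : ∀ Q : Finset (Crd k T N l), ind (Q ∈ 𝒬 u) = if Q ∈ 𝒬 u then 1 else 0 := by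
      intro Q
      split_ifs with h
      · exact ind_true h
      · exact ind_false h
    simp_rw [h3]
    rw [sum_ite_mem, univ_inter, sum_const, nsmul_eq_mul, mul_one]
  simp_rw [h2]
  rw [sum_comm (s := Fintype.piFinset S), mul_sum]
  refine sum_le_sum fun Q _ => ?_
  rw [sum_comm]
  set X₀ := Q.image (fun e : Crd k T N l => (e.1.1, e.2)) with hX₀
  have h3 : ∀ X ∈ M, X ≠ X₀ → ∑ u ∈ Fintype.piFinset S, w u * ind (Q ∈ 𝒬 u) *
      ind (Qc X u = Q) = 0 := by
    intro X _ hX
    refine sum_eq_zero fun u _ => ?_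
    rw [ind_false (P := Qc X u = Q) fun h => hX (by rw [hX₀, ← h, sumx_proj]), mul_zero]
  have hnn : 0 ≤ ∑ u ∈ Fintype.piFinset S, w u * ind (Q ∈ 𝒬 u) :=
    sum_nonneg fun u _ => mul_nonneg (hw0 u) (ind_nonneg _)
  by_cases hX₀M : X₀ ∈ M
  · rw [sum_eq_single_of_mem X₀ hX₀M fun X hX hX' => h3 X hX hX']
    obtain ⟨hmed, hdis⟩ := mem_filter.1 hX₀M
    have hWc : W < (bls X₀).card := (mem_filter.1 hmed).2.1
    by_cases hex : ∃ u₀, Qc X₀ u₀ = Q
    · obtain ⟨u₀, hu₀⟩ := hex
      have h4 := sumx_fix S hN u₀ (bls X₀) (fun u => w u * ind (Q ∈ 𝒬 u))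
        (fun u => mul_nonneg (hw0 u) (ind_nonneg _))
        (fun u u' huu => by
          have h5 : ∀ b ∈ bks k A, u b = u' b := by
            intro b hb
            refine huu b fun hb' => ?_
            rw [sumx_mem_bks] at hb
            refine disjoint_left.1 hdis ?_ hb
            unfold bls at hb'
            obtain ⟨e, he, rfl⟩ := mem_image.1 hb'
            exact mem_image_of_mem _ he
          show w u * ind (Q ∈ 𝒬 u) = w u' * ind (Q ∈ 𝒬 u')
          rw [hw u u' h5, h𝒬 u u' h5])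
      have h5 : ∑ u ∈ Fintype.piFinset S, w u * ind (Q ∈ 𝒬 u) * ind (Qc X₀ u = Q) ≤
          ∑ u ∈ Fintype.piFinset S, w u * ind (Q ∈ 𝒬 u) * ind (∀ b ∈ bls X₀, u b = u₀ b) := by
        refine sum_le_sum fun u _ => mul_le_mul_of_nonneg_left (ind_mono fun h => ?_)
          (mul_nonneg (hw0 u) (ind_nonneg _))
        intro b hb
        unfold bls at hb
        obtain ⟨e, he, rfl⟩ := mem_image.1 hb
        have h6 : (((e.1, u e.1), e.2) : Crd k T N l) ∈ Qc X₀ u₀ := by
          rw [hu₀, ← h]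
          exact mem_image_of_mem _ he
        obtain ⟨e', he', h7⟩ := mem_image.1 h6
        simp only [Prod.mk.injEq] at h7
        obtain ⟨⟨h9, h10⟩, _⟩ := h7
        rw [← h10, h9]
      have h6 : (N₁ : ℝ) ^ (W + 1) ≤ (N₁ : ℝ) ^ (bls X₀).card :=
        pow_le_pow_right₀ (by exact_mod_cast hN₁) hWc
      calc (N₁ : ℝ) ^ (W + 1) * ∑ u ∈ Fintype.piFinset S, w u * ind (Q ∈ 𝒬 u) *
            ind (Qc X₀ u = Q) ≤ (N₁ : ℝ) ^ (bls X₀).card * ∑ u ∈ Fintype.piFinset S,
              w u * ind (Q ∈ 𝒬 u) * ind (∀ b ∈ bls X₀, u b = u₀ b) :=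
            mul_le_mul h6 h5 (sum_nonneg fun u _ =>
              mul_nonneg (mul_nonneg (hw0 u) (ind_nonneg _)) (ind_nonneg _)) (by positivity)
        _ ≤ _ := h4
    · push Not at hex
      have h4 : ∑ u ∈ Fintype.piFinset S, w u * ind (Q ∈ 𝒬 u) * ind (Qc X₀ u = Q) = 0 :=
        sum_eq_zero fun u _ => by rw [ind_false (hex u), mul_zero]
      rw [h4, mul_zero]
      exact hnn
  · rw [sum_eq_zero fun X hX => h3 X hX fun e => hX₀M (e ▸ hX), mul_zero]
    exact hnn

set_option linter.unusedVariables false in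
/-- Row SUMX: for fixed labels, sum over the positions of the planted units. -/
theorem sum_u (P : Stp k T N l n Λ E) {m d f N₁ : ℕ}
    (hC : ∀ i ≤ P.o, P.C.depth i ≤ d ∧ (P.C i).wires ≤ f) (hW : 1 ≤ P.W) (hN₁ : 0 < N₁)
    (hN : ∀ b, N₁ ≤ (live P.ρ b).card) (ζ : E → Prop) (y : Fin k → Fin T × Fin l → Bool)
    (κ : Fin T → Fin k → Λ) (L : Slot k T N → Λ) (A : Finset (Fin T))
    {w : (Fin k × Fin T → Fin N) → ℝ} (hw0 : ∀ u, 0 ≤ w u)
    (hw : ∀ u u', (∀ b ∈ bks k A, u b = u' b) → w u = w u') {i : ℕ} (hi : i ≤ P.o) :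
    ∑ u ∈ Fintype.piFinset (live P.ρ), w u *
      ∑ X ∈ (med k T l P.W).filter (fun X => Disjoint (tps X) A),
        ind (Ev P.C (P.inps ζ (u, κ, L) (bks k A)) (2 * P.W * (l + 1))
          (P.base y (u, κ, L) A) (Qc X u) i) ≤
      ∑ u ∈ Fintype.piFinset (live P.ρ), w u *
        ((evB (2 * P.W * (l + 1)) m f : ℝ) / (N₁ : ℝ) ^ (P.W + 1) +
          (med k T l P.W).card * ind (¬ P.good m d ζ (u, κ, L) A)) := by
  classical
  set K := 2 * P.W * (l + 1) with hK
  set M := (med k T l P.W).filter (fun X => Disjoint (tps X) A) with hM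
  -- everything depends only on the exposed units
  have hplc : ∀ u u' : Fin k × Fin T → Fin N, (∀ b ∈ bks k A, u b = u' b) →
      plc L u κ (bks k A) = plc L u' κ (bks k A) := by
    intro u u' huu
    funext e
    unfold plc
    by_cases h : e.1.1 ∈ bks k A
    · rw [huu _ h]
    · rw [if_neg fun h' => h h'.2.1, if_neg fun h' => h h'.2.1]
  have hinps : ∀ u u' : Fin k × Fin T → Fin N, (∀ b ∈ bks k A, u b = u' b) →
      P.inps ζ (u, κ, L) (bks k A) = P.inps ζ (u', κ, L) (bks k A) := by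
    intro u u' huu
    funext x
    unfold Stp.inps
    show Sum.elim (inp P.φ P.R (plc L u κ (bks k A)) x) ζ = _
    rw [hplc u u' huu]
  have hbase : ∀ u u' : Fin k × Fin T → Fin N, (∀ b ∈ bks k A, u b = u' b) →
      P.base y (u, κ, L) A = P.base y (u', κ, L) A := by
    intro u u' huu
    funext e
    unfold Stp.base gx
    by_cases h : e.1.1.2 ∈ A
    · show (if e.1.1.2 ∈ A ∧ e.1.2 = u e.1.1 then _ else _) =
        (if e.1.1.2 ∈ A ∧ e.1.2 = u' e.1.1 then _ else _)
      rw [huu _ (sumx_mem_bks.2 h)]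
    · rw [if_neg fun h' => h h'.1, if_neg fun h' => h h'.1]
  -- the family of the sets which are reached
  let 𝒬 : (Fin k × Fin T → Fin N) → Finset (Finset (Crd k T N l)) := fun u =>
    univ.filter fun Q => (∀ S ∈ Q, P.ρ S = none) ∧
      (∀ S ∈ Q, P.base y (u, κ, L) A S = false) ∧ Q.card ≤ K ∧
      Ev P.C (P.inps ζ (u, κ, L) (bks k A)) K (P.base y (u, κ, L) A) Q i
  have h𝒬 : ∀ u u', (∀ b ∈ bks k A, u b = u' b) → 𝒬 u = 𝒬 u' := by
    intro u u' huu
    simp only [𝒬]
    rw [hinps u u' huu, hbase u u' huu]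
  have hlive : ∀ u ∈ Fintype.piFinset (live P.ρ), ∀ b c, P.ρ ((b, u b), c) = none := by
    intro u hu b c
    exact (mem_filter.1 (Fintype.mem_piFinset.1 hu b)).2 c
  have hcard : ∀ u ∈ Fintype.piFinset (live P.ρ), P.good m d ζ (u, κ, L) A →
      (𝒬 u).card ≤ evB K m f := by
    intro u hu hg
    have hG : ∀ S b, P.ρ S = some b → P.base y (u, κ, L) A S = b := by
      intro S b hS
      unfold Stp.base gx
      rw [if_neg]
      · unfold tr
        rw [hS]
        cases b <;> simp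
      · rintro ⟨_, h2⟩
        have h3 := hlive u hu S.1.1 S.2
        have h4 : ((S.1.1, u S.1.1), S.2) = S := by
          have h5 : S.1.2 = u S.1.1 := h2
          rw [← h5]
        rw [h4, hS] at h3
        exact absurd h3 (by simp)
    obtain ⟨F, hF, hF'⟩ := ev_count (K := K) hg hi (hC i hi).1 (hC i hi).2 hG
    refine (card_le_card fun Q hQ => ?_).trans hF
    obtain ⟨_, h1, h2, h3, h4⟩ := mem_filter.1 hQ
    exact hF' Q h1 h2 h3 h4
  have hmem : ∀ u ∈ Fintype.piFinset (live P.ρ), ∀ X ∈ M,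
      ind (Ev P.C (P.inps ζ (u, κ, L) (bks k A)) K (P.base y (u, κ, L) A) (Qc X u) i) ≤
        ind (Qc X u ∈ 𝒬 u) := by
    intro u hu X hX
    refine ind_mono fun hE => mem_filter.2 ⟨mem_univ _, ?_, ?_, ?_, hE⟩
    · intro S hS
      obtain ⟨e, _, rfl⟩ := mem_image.1 hS
      exact hlive u hu _ _
    · intro S hS
      obtain ⟨e, he, rfl⟩ := mem_image.1 hS
      unfold Stp.base gx
      rw [if_neg]
      · unfold tr
        rw [hlive u hu]
        simp
      · rintro ⟨h1, _⟩
        refine disjoint_left.1 (mem_filter.1 hX).2 ?_ h1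
        exact mem_image_of_mem _ he
    · refine (card_Qc X u).trans ?_
      have h1 : (bls X).card ≤ 2 * P.W := (mem_filter.1 (mem_filter.1 hX).1).2.2
      rw [hK, mul_comm (2 * P.W)]
      exact Nat.mul_le_mul_left _ h1
  -- the weights of the good positions
  let w' : (Fin k × Fin T → Fin N) → ℝ := fun u => w u * ind (P.good m d ζ (u, κ, L) A)
  have hw'0 : ∀ u, 0 ≤ w' u := fun u => mul_nonneg (hw0 u) (ind_nonneg _)
  have hw' : ∀ u u', (∀ b ∈ bks k A, u b = u' b) → w' u = w' u' := by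
    intro u u' huu
    simp only [w']
    rw [hw u u' huu]
    congr 2
    unfold Stp.good
    rw [hinps u u' huu]
  have key := sumx_good (W := P.W) hN₁ hN A hw'0 hw' 𝒬 h𝒬
  have hNp : (0 : ℝ) < (N₁ : ℝ) ^ (P.W + 1) := by positivity
  have key2 : ∑ u ∈ Fintype.piFinset (live P.ρ), w' u * ∑ X ∈ M, ind (Qc X u ∈ 𝒬 u) ≤
      ∑ u ∈ Fintype.piFinset (live P.ρ), w u *
        ((evB K m f : ℝ) / (N₁ : ℝ) ^ (P.W + 1)) := by
    have h1 : ∑ u ∈ Fintype.piFinset (live P.ρ), w' u * ((𝒬 u).card : ℝ) ≤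
        ∑ u ∈ Fintype.piFinset (live P.ρ), w u * (evB K m f : ℝ) := by
      refine sum_le_sum fun u hu => ?_
      by_cases hg : P.good m d ζ (u, κ, L) A
      · simp only [w']
        rw [ind_true hg, mul_one]
        exact mul_le_mul_of_nonneg_left (by exact_mod_cast hcard u hu hg) (hw0 u)
      · simp only [w']
        rw [ind_false hg, mul_zero, zero_mul]
        exact mul_nonneg (hw0 u) (Nat.cast_nonneg _)
    have h2 := key.trans h1
    simp_rw [← mul_div_assoc]
    rw [← sum_div, le_div_iff₀ hNp, mul_comm]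
    exact h2
  have hsplit : ∀ u ∈ Fintype.piFinset (live P.ρ), w u * ∑ X ∈ M,
      ind (Ev P.C (P.inps ζ (u, κ, L) (bks k A)) K (P.base y (u, κ, L) A) (Qc X u) i) ≤
      w' u * ∑ X ∈ M, ind (Qc X u ∈ 𝒬 u) +
        w u * ((med k T l P.W).card * ind (¬ P.good m d ζ (u, κ, L) A)) := by
    intro u hu
    by_cases hg : P.good m d ζ (u, κ, L) A
    · simp only [w']
      rw [ind_true hg, mul_one, ind_false (not_not.2 hg), mul_zero, mul_zero, add_zero]
      exact mul_le_mul_of_nonneg_left (sum_le_sum fun X hX => hmem u hu X hX) (hw0 u)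
    · simp only [w']
      rw [ind_false hg, mul_zero, zero_mul, zero_add, ind_true hg, mul_one]
      refine mul_le_mul_of_nonneg_left ?_ (hw0 u)
      refine (sum_le_sum fun X _ => ind_le_one _).trans ?_
      rw [sum_const, nsmul_eq_mul, mul_one]
      exact_mod_cast card_le_card (filter_subset _ _)
  refine (sum_le_sum hsplit).trans ?_
  rw [sum_add_distrib]
  refine (add_le_add_left key2 _).trans (le_of_eq ?_)
  rw [← sum_add_distrib]
  refine sum_congr rfl fun u _ => ?_
  ring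

end UniCore
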