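import Pool.Agent.Lib.CERT.Sumu
import Pool.Agent.Lib.UNI.Base

/-! # PROJECT UNI, row TYP: proper parts of the planted labels are typical, general form -/

set_option autoImplicit false

open Finset

namespace UniCore

open SmallDepth CliqueDepth CliqueCert

variable {k T N l n : ℕ} {Λ : Type}

namespace Typg

/-- The exchange of labels of one tuple. -/
private def exch (u : Fin k × Fin T → Fin N) (r : Fin T) (J : Finset (Fin k × Fin T))
    (q : (Slot k T N → Λ) × (Fin k → Λ)) : (Slot k T N → Λ) × (Fin k → Λ) :=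
  (plc q.1 u (fun _ => q.2) J, fun j => if (j, r) ∈ J then q.1 (((j, r), u (j, r)), true) else q.2 j)

private theorem exch_invol (u : Fin k × Fin T → Fin N) (r : Fin T) (J : Finset (Fin k × Fin T))
    (hJ : ∀ b ∈ J, b.2 = r) : Function.Involutive (exch (Λ := Λ) u r J) := by
  rintro ⟨L, κ⟩
  unfold exch
  refine Prod.ext ?_ ?_
  · funext e
    simp only [plc]
    by_cases h : e.2 = true ∧ e.1.1 ∈ J ∧ e.1.2 = u e.1.1
    · have he : e.1.1 = (e.1.1.1, r) := Prod.ext rfl (hJ _ h.2.1)
      rw [if_pos h, if_pos (he ▸ h.2.1)]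
      congr 1
      refine Prod.ext (Prod.ext he.symm ?_) h.1.symm
      show u (e.1.1.1, r) = e.1.2
      rw [← he, h.2.2]
    · rw [if_neg h, if_neg h]
  · funext j
    simp only [plc]
    by_cases h : (j, r) ∈ J
    · simp [h]
    · simp [h]

private theorem one_tuple [Fintype Λ] {R : Fin k → Fin k → Λ → Λ → Prop} (hR : Uniq R)
    {r : Fin T} {J : Finset (Fin k × Fin T)} (hJ : ∀ b ∈ J, b.2 = r) {i : Fin k}
    (hi : (i, r) ∉ J) (u : Fin k × Fin T → Fin N) {F : (Slot k T N → Λ) → ℝ}
    (hF : ∀ L, 0 ≤ F L) :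
    ∑ c ∈ Kc R, ∑ L : Slot k T N → Λ, F (plc L u (fun _ => c) J) ≤
      (Fintype.card Λ : ℝ) ^ (k - 1) * ∑ L, F L := by
  classical
  have hk : 0 < k := i.pos
  rcases isEmpty_or_nonempty Λ with hΛ | hΛ
  · have hem : Kc R = ∅ := by
      refine eq_empty_of_forall_notMem fun κ _ => ?_
      exact hΛ.false (κ i)
    rw [hem, sum_empty]
    have := sum_nonneg fun L (_ : L ∈ (univ : Finset (Slot k T N → Λ))) => hF L
    positivity
  · have hc : (0 : ℝ) < Fintype.card Λ := by exact_mod_cast Fintype.card_pos
    set g : (Fin k → Λ) → ℝ := fun c => ∑ L, F (plc L u (fun _ => c) J) with hg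
    have hg0 : ∀ κ, 0 ≤ g κ := fun κ => sum_nonneg fun L _ => hF _
    have hup : ∀ (κ : Fin k → Λ) (c : Λ), g (Function.update κ i c) = g κ := by
      intro κ c
      simp only [hg]
      refine sum_congr rfl fun L _ => ?_
      congr 1
      funext e
      unfold plc
      by_cases h : e.2 = true ∧ e.1.1 ∈ J ∧ e.1.2 = u e.1.1
      · have hne : e.1.1.1 ≠ i := by
          intro he
          have h1 : e.1.1 = (i, r) := Prod.ext he (hJ _ h.2.1)
          exact hi (h1 ▸ h.2.1)
        rw [if_pos h, if_pos h]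
        exact Function.update_of_ne hne _ _
      · rw [if_neg h, if_neg h]
    -- many copies
    have h1 : (Fintype.card Λ : ℝ) * ∑ κ ∈ Kc R, g κ ≤ ∑ κ, g κ := by
      calc (Fintype.card Λ : ℝ) * ∑ κ ∈ Kc R, g κ
          = ∑ κ ∈ Kc R, ∑ _c : Λ, g κ := by
            rw [mul_sum]
            refine sum_congr rfl fun κ _ => ?_
            rw [sum_const, card_univ, nsmul_eq_mul]
        _ = ∑ q ∈ Kc R ×ˢ (univ : Finset Λ), g (Function.update q.1 i q.2) := by
            rw [sum_product]
            refine sum_congr rfl fun κ _ => sum_congr rfl fun c _ => ?_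
            exact (hup κ c).symm
        _ = ∑ κ ∈ (Kc R ×ˢ (univ : Finset Λ)).image (fun q => Function.update q.1 i q.2), g κ := by
            rw [sum_image]
            rintro ⟨κ, c⟩ hq ⟨κ', c'⟩ hq' h
            rw [mem_coe, mem_product, mem_Kc] at hq hq'
            simp only at h
            have h2 : ∀ i', i' ≠ i → κ i' = κ' i' := by
              intro i' hi
              have := congrFun h i'
              rwa [Function.update_of_ne hi, Function.update_of_ne hi] at this
            have h3 : c = c' := by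
              have := congrFun h i
              rwa [Function.update_self, Function.update_self] at this
            rw [hR κ κ' i hq.1 hq'.1 h2, h3]
        _ ≤ ∑ κ, g κ := sum_le_sum_of_subset_of_nonneg (subset_univ _) fun κ _ _ => hg0 κ
    -- the exchange
    have h2 : ∑ κ, g κ = (Fintype.card Λ : ℝ) ^ k * ∑ L, F L := by
      calc ∑ κ, g κ = ∑ q : (Slot k T N → Λ) × (Fin k → Λ), F (exch u r J q).1 := by
            rw [Fintype.sum_prod_type, sum_comm]
            rfl
        _ = ∑ q : (Slot k T N → Λ) × (Fin k → Λ), F q.1 :=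
            Equiv.sum_comp (exch_invol u r J hJ).toPerm fun q => F q.1
        _ = (Fintype.card Λ : ℝ) ^ k * ∑ L, F L := by
            rw [Fintype.sum_prod_type, mul_sum]
            refine sum_congr rfl fun L _ => ?_
            simp only
            rw [sum_const, card_univ, Fintype.card_fun, Fintype.card_fin, nsmul_eq_mul]
            push_cast
            rfl
    rw [h2] at h1
    have h3 : (Fintype.card Λ : ℝ) ^ k = Fintype.card Λ * (Fintype.card Λ : ℝ) ^ (k - 1) := by
      rw [← pow_succ', Nat.sub_add_cancel hk]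
    rw [h3, mul_assoc] at h1
    exact le_of_mul_le_mul_left h1 hc

end Typg

/-- Row TYP, general form: proper parts of the planted labels are typical; the function may depend
on the planted labels of the other tuples. -/
theorem typical_gen_upd [Fintype Λ] {R : Fin k → Fin k → Λ → Λ → Prop} (hR : Uniq R)
    {J : Finset (Fin k × Fin T)} (hJ : J.card < k) (u : Fin k × Fin T → Fin N) {β : ℝ}
    (hβ1 : 1 ≤ β) (hβ : (Fintype.card Λ : ℝ) ^ (k - 1) ≤ β * (Kc R).card)
    {F : (Fin T → Fin k → Λ) → (Slot k T N → Λ) → ℝ} (hF : ∀ κ L, 0 ≤ F κ L)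
    (hinv : ∀ r, (∃ j, (j, r) ∈ J) → ∀ κ c L, F (Function.update κ r c) L = F κ L) :
    ∑ κ ∈ Kp T R, ∑ L : Slot k T N → Λ, F κ (plc L u κ J) ≤
      β ^ J.card * ∑ κ ∈ Kp T R, ∑ L : Slot k T N → Λ, F κ L := by
  classical
  have hβ0 : (0 : ℝ) ≤ β := zero_le_one.trans hβ1
  -- one tuple after the other
  have key : ∀ S : Finset (Fin T),
      ∑ κ ∈ Kp T R, ∑ L : Slot k T N → Λ, F κ (plc L u κ (J.filter fun b => b.2 ∈ S)) ≤
      β ^ (J.filter fun b => b.2 ∈ S).card * ∑ κ ∈ Kp T R, ∑ L, F κ L := by
    intro S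
    induction S using Finset.induction_on with
    | empty =>
      have h1 : (J.filter fun b => b.2 ∈ (∅ : Finset (Fin T))) = ∅ := by
        refine filter_eq_empty_iff.2 fun b _ h => ?_
        exact absurd h (notMem_empty _)
      rw [h1, card_empty, pow_zero, one_mul]
      have h2 : ∀ (κ : Fin T → Fin k → Λ) (L : Slot k T N → Λ), plc L u κ ∅ = L := by
        intro κ L
        funext e
        unfold plc
        rw [if_neg]
        rintro ⟨-, h, -⟩
        exact absurd h (notMem_empty _)
      simp only [h2]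
      exact le_rfl
    | insert r S hr ih =>
      set JS := J.filter fun b => b.2 ∈ S with hJS
      set Jr := J.filter fun b => b.2 = r with hJr
      have hun : (J.filter fun b => b.2 ∈ insert r S) = Jr ∪ JS := by
        rw [hJS, hJr, ← filter_or]
        refine filter_congr fun b _ => ?_
        rw [mem_insert]
      rcases Jr.eq_empty_or_nonempty with hemp | hne
      · rw [hun, hemp, empty_union]
        exact ih
      obtain ⟨b₀, hb₀⟩ := hne
      have htouch : ∃ j, (j, r) ∈ J := by
        obtain ⟨h1, h2⟩ := mem_filter.1 hb₀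
        exact ⟨b₀.1, by rw [← h2]; exact h1⟩
      have hdis : Disjoint Jr JS := by
        rw [disjoint_left]
        intro b hb hb'
        rw [hJr, mem_filter] at hb
        rw [hJS, mem_filter] at hb'
        exact hr (hb.2 ▸ hb'.2)
      have hcard : (J.filter fun b => b.2 ∈ insert r S).card = Jr.card + JS.card := by
        rw [hun, card_union_of_disjoint hdis]
      set F' : (Fin T → Fin k → Λ) → (Slot k T N → Λ) → ℝ := fun κ L => F κ (plc L u κ JS)
        with hF'
      -- the other tuples
      have hsplit : ∀ (κ : Fin T → Fin k → Λ) (c : Fin k → Λ) (L : Slot k T N → Λ),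
          F (Function.update κ r c)
            (plc L u (Function.update κ r c) (J.filter fun b => b.2 ∈ insert r S)) =
            F' κ (plc L u (fun _ => c) Jr) := by
        intro κ c L
        simp only [hF']
        rw [hinv r htouch]
        congr 1
        rw [hun]
        funext e
        unfold plc
        by_cases h1 : e.2 = true ∧ e.1.2 = u e.1.1
        · by_cases h2 : e.1.1 ∈ Jr
          · have h3 : e.1.1 ∉ JS := disjoint_left.1 hdis h2
            have h4 : e.1.1.2 = r := (mem_filter.1 h2).2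
            rw [if_pos ⟨h1.1, mem_union_left _ h2, h1.2⟩, if_neg (fun h => h3 h.2.1),
              if_pos ⟨h1.1, h2, h1.2⟩, h4, Function.update_self]
          · by_cases h3 : e.1.1 ∈ JS
            · have h4 : e.1.1.2 ≠ r := fun h => hr (h ▸ (mem_filter.1 h3).2)
              rw [if_pos ⟨h1.1, mem_union_right _ h3, h1.2⟩, if_pos ⟨h1.1, h3, h1.2⟩,
                Function.update_of_ne h4]
            · rw [if_neg, if_neg (fun h => h3 h.2.1), if_neg (fun h => h2 h.2.1)]
              rintro ⟨-, h, -⟩
              exact (mem_union.1 h).elim h2 h3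
        · rw [if_neg (fun h => h1 ⟨h.1, h.2.2⟩), if_neg (fun h => h1 ⟨h.1, h.2.2⟩),
            if_neg (fun h => h1 ⟨h.1, h.2.2⟩)]
      have hone : ∀ κ : Fin T → Fin k → Λ,
          ∑ c ∈ Kc R, ∑ L : Slot k T N → Λ, F' κ (plc L u (fun _ => c) Jr) ≤
            ((Kc R).card : ℝ) * β ^ Jr.card * ∑ L, F' κ L := by
        intro κ
        have hF0 : ∀ L, 0 ≤ F' κ L := fun L => hF _ _
        have hS0 : 0 ≤ ∑ L, F' κ L := sum_nonneg fun L _ => hF0 L
        obtain ⟨i, hi⟩ : ∃ i : Fin k, (i, r) ∉ Jr := by
          by_contra hcon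
          push Not at hcon
          have h1 : (univ : Finset (Fin k)).card ≤ J.card :=
            card_le_card_of_injOn (fun i => (i, r))
              (fun i _ => (mem_filter.1 (hcon i)).1)
              (fun i _ j _ hij => congrArg Prod.fst hij)
          rw [card_univ, Fintype.card_fin] at h1
          omega
        refine (Typg.one_tuple hR (fun b hb => (mem_filter.1 hb).2) hi u hF0).trans ?_
        refine mul_le_mul_of_nonneg_right ?_ hS0
        have h3 : β ≤ β ^ Jr.card := le_self_pow₀ hβ1 (card_pos.2 ⟨b₀, hb₀⟩).ne'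
        calc (Fintype.card Λ : ℝ) ^ (k - 1) ≤ β * (Kc R).card := hβ
          _ ≤ β ^ Jr.card * (Kc R).card := mul_le_mul_of_nonneg_right h3 (Nat.cast_nonneg _)
          _ = _ := mul_comm _ _
      have hmain : ∑ κ ∈ Kp T R, ∑ L : Slot k T N → Λ,
          F κ (plc L u κ (J.filter fun b => b.2 ∈ insert r S)) ≤
          β ^ Jr.card * ∑ κ ∈ Kp T R, ∑ L : Slot k T N → Λ, F κ (plc L u κ JS) := by
        rcases Nat.eq_zero_or_pos (Kc R).card with h0 | h0
        · have h1 : Kp T R = ∅ := by
            rw [← card_eq_zero, card_Kp, h0, zero_pow (Nat.pos_iff_ne_zero.1 r.pos)]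
          rw [h1, sum_empty, sum_empty, mul_zero]
        · have h1 : (0 : ℝ) < (Kc R).card := by exact_mod_cast h0
          refine le_of_mul_le_mul_left ?_ h1
          rw [sum_update_Kp R r]
          calc ∑ κ ∈ Kp T R, ∑ c ∈ Kc R, ∑ L : Slot k T N → Λ,
                F (Function.update κ r c)
                  (plc L u (Function.update κ r c) (J.filter fun b => b.2 ∈ insert r S))
              = ∑ κ ∈ Kp T R, ∑ c ∈ Kc R, ∑ L : Slot k T N → Λ,
                  F' κ (plc L u (fun _ => c) Jr) :=
                sum_congr rfl fun κ _ => sum_congr rfl fun c _ => sum_congr rfl fun L _ =>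
                  hsplit κ c L
            _ ≤ ∑ κ ∈ Kp T R, ((Kc R).card : ℝ) * β ^ Jr.card * ∑ L, F' κ L :=
                sum_le_sum fun κ _ => hone κ
            _ = _ := by rw [← mul_sum, mul_assoc]
      refine hmain.trans ?_
      rw [hcard, pow_add, mul_assoc]
      exact mul_le_mul_of_nonneg_left ih (pow_nonneg hβ0 _)
  have h := key univ
  have h1 : (J.filter fun b => b.2 ∈ (univ : Finset (Fin T))) = J :=
    filter_true_of_mem fun b _ => mem_univ _
  rwa [h1] at h

/-- Row TYPG: proper parts of the planted labels are typical; `F` may depend on the labels of the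
tuples which `J` does not touch. -/
theorem typical_gen [Fintype Λ] {R : Fin k → Fin k → Λ → Λ → Prop} (hR : Uniq R)
    {J : Finset (Fin k × Fin T)} (hJ : J.card < k) (u : Fin k × Fin T → Fin N) {β : ℝ}
    (hβ1 : 1 ≤ β) (hβ : (Fintype.card Λ : ℝ) ^ (k - 1) ≤ β * (Kc R).card)
    {F : (Fin T → Fin k → Λ) → (Slot k T N → Λ) → ℝ} (hF : ∀ κ L, 0 ≤ F κ L)
    (hFκ : ∀ κ κ' L, (∀ r, (∀ b ∈ J, b.2 ≠ r) → κ r = κ' r) → F κ L = F κ' L) :
    ∑ κ ∈ Kp T R, ∑ L : Slot k T N → Λ, F κ (plc L u κ J) ≤
      β ^ J.card * ∑ κ ∈ Kp T R, ∑ L, F κ L := by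
  refine typical_gen_upd hR hJ u hβ1 hβ hF ?_
  rintro r ⟨j, hj⟩ κ c L
  refine hFκ _ _ L fun r' hr' => ?_
  rw [Function.update_of_ne]
  rintro rfl
  exact hr' _ hj rfl

end UniCore
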