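import Pool.Agent.Lib.UNI.Base
import Pool.Agent.Lib.UNI.Typg
import Pool.Agent.Lib.UNI.Sumx
import Pool.Agent.Lib.CERT.Full

/-! # PROJECT UNI, row STEP: the last witness of a chain -/

open Finset

namespace UniCore

open SmallDepth CliqueDepth CliqueCert

variable {k T N l n : ℕ} {Λ E : Type}

private theorem plc_plc (L : Slot k T N → Λ) (u : Fin k × Fin T → Fin N)
    (κ : Fin T → Fin k → Λ) (J J' : Finset (Fin k × Fin T)) :
    plc (plc L u κ J) u κ J' = plc L u κ (J' ∪ J) := by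
  funext e
  unfold plc
  by_cases h : e.2 = true ∧ e.1.2 = u e.1.1
  · by_cases h1 : e.1.1 ∈ J'
    · rw [if_pos ⟨h.1, h1, h.2⟩, if_pos ⟨h.1, mem_union_left _ h1, h.2⟩]
    · rw [if_neg fun h' => h1 h'.2.1]
      by_cases h2 : e.1.1 ∈ J
      · rw [if_pos ⟨h.1, h2, h.2⟩, if_pos ⟨h.1, mem_union_right _ h2, h.2⟩]
      · rw [if_neg fun h' => h2 h'.2.1, if_neg]
        rintro ⟨-, h', -⟩
        exact (mem_union.1 h').elim h1 h2
  · rw [if_neg fun h' => h ⟨h'.1, h'.2.2⟩, if_neg fun h' => h ⟨h'.1, h'.2.2⟩,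
      if_neg fun h' => h ⟨h'.1, h'.2.2⟩]

private theorem sum_X [Fintype Λ] (P : Stp k T N l n Λ E) (hWk : 2 * P.W < k)
    (hR : Uniq P.R) {β : ℝ} (hβ1 : 1 ≤ β)
    (hβ : (Fintype.card Λ : ℝ) ^ (k - 1) ≤ β * (Kc P.R).card) (ζ : E → Prop)
    (y : Fin k → Fin T × Fin l → Bool) (A : Finset (Fin T)) {w : Dat k T N Λ → ℝ}
    (hw0 : ∀ v, 0 ≤ w v) (hw : LocA P.ρ A w) {u : Fin k × Fin T → Fin N}
    (hu : u ∈ Fintype.piFinset (live P.ρ)) (i : ℕ)
    {X : Finset ((Fin k × Fin T) × Option (Fin l))} (hX : X ∈ med k T l P.W)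
    (hXA : Disjoint (tps X) A) :
    ∑ κ ∈ Kp T P.R, ∑ L : Slot k T N → Λ, w (u, κ, L) * ind (P.wit ζ y (u, κ, L) i A X) ≤
      β ^ (2 * P.W) * ∑ κ ∈ Kp T P.R, ∑ L : Slot k T N → Λ, w (u, κ, L) *
        ind (Ev P.C (P.inps ζ (u, κ, L) (bks k A)) (2 * P.W * (l + 1))
          (P.base y (u, κ, L) A) (Qc X u) i) := by
  classical
  set F : (Fin T → Fin k → Λ) → (Slot k T N → Λ) → ℝ := fun κ L => w (u, κ, L) *
        ind (Ev P.C (P.inps ζ (u, κ, L) (bks k A)) (2 * P.W * (l + 1))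
          (P.base y (u, κ, L) A) (Qc X u) i) with hF
  have hF0 : ∀ κ L, 0 ≤ F κ L := fun κ L => mul_nonneg (hw0 _) (ind_nonneg _)
  have hmed : P.W < (bls X).card ∧ (bls X).card ≤ 2 * P.W := (mem_filter.1 hX).2
  have hnot : ∀ r ∈ A, ∀ b ∈ bls X, b.2 ≠ r := by
    rintro r hr b hb rfl
    obtain ⟨e, he, rfl⟩ := mem_image.1 hb
    exact disjoint_left.1 hXA (mem_image.2 ⟨e, he, rfl⟩) hr
  have h1 := typical_gen hR (hmed.2.trans_lt hWk) u hβ1 hβ (F := F) hF0 (by
    intro κ κ' L h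
    have hA : ∀ r ∈ A, κ r = κ' r := fun r hr => h r (hnot r hr)
    simp only [hF]
    have e1 : w (u, κ, L) = w (u, κ', L) := by
      refine hw _ _ (fun _ _ => rfl) (fun b hb => ?_) (fun _ _ => rfl)
      have : b.2 ∈ A := (mem_filter.1 hb).2
      show κ b.2 b.1 = κ' b.2 b.1
      rw [hA _ this]
    have e2 : P.inps ζ (u, κ, L) (bks k A) = P.inps ζ (u, κ', L) (bks k A) := by
      have : plc L u κ (bks k A) = plc L u κ' (bks k A) := by
        funext e
        unfold plc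
        by_cases h' : e.2 = true ∧ e.1.1 ∈ bks k A ∧ e.1.2 = u e.1.1
        · rw [if_pos h', if_pos h', hA _ (mem_filter.1 h'.2.1).2]
        · rw [if_neg h', if_neg h']
      unfold Stp.inps
      simp only [this]
    have e3 : P.base y (u, κ, L) A = P.base y (u, κ', L) A := rfl
    rw [e1, e2, e3])
  have h2 : ∀ κ (L : Slot k T N → Λ), F κ (plc L u κ (bls X)) =
      w (u, κ, L) * ind (P.wit ζ y (u, κ, L) i A X) := by
    intro κ L
    simp only [hF]
    have e1 : w (u, κ, plc L u κ (bls X)) = w (u, κ, L) := by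
      refine hw _ _ (fun _ _ => rfl) (fun _ _ => rfl) (fun e he => ?_)
      show plc L u κ (bls X) e = L e
      unfold plc
      rw [if_neg]
      rintro ⟨h3, -, h4⟩
      refine he h3 ?_
      rw [h4]
      exact Fintype.mem_piFinset.1 hu _
    have e2 : P.inps ζ (u, κ, plc L u κ (bls X)) (bks k A) =
        P.inps ζ (u, κ, L) (bks k A ∪ bls X) := by
      unfold Stp.inps
      simp only [plc_plc]
    have e3 : P.base y (u, κ, plc L u κ (bls X)) A = P.base y (u, κ, L) A := rfl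
    rw [e1, e2, e3]
    rfl
  simp only [h2] at h1
  refine h1.trans ?_
  refine mul_le_mul_of_nonneg_right (pow_le_pow_right₀ hβ1 hmed.2) ?_
  exact sum_nonneg fun κ _ => sum_nonneg fun L _ => hF0 κ L

/-- Row STEP (assembly, from TYPG and SUMX, for every gate). -/
theorem step [Fintype Λ] (P : Stp k T N l n Λ E) {m d f N₁ : ℕ}
    (hC : ∀ i ≤ P.o, P.C.depth i ≤ d ∧ (P.C i).wires ≤ f) (hW : 1 ≤ P.W) (hWk : 2 * P.W < k)
    (hR : Uniq P.R) (hN₁ : 0 < N₁) (hN : ∀ b, N₁ ≤ (live P.ρ b).card) {β : ℝ} (hβ1 : 1 ≤ β)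
    (hβ : (Fintype.card Λ : ℝ) ^ (k - 1) ≤ β * (Kc P.R).card) (ζ : E → Prop)
    (y : Fin k → Fin T × Fin l → Bool) (A : Finset (Fin T)) {w : Dat k T N Λ → ℝ}
    (hw0 : ∀ v, 0 ≤ w v) (hw : LocA P.ρ A w) :
    P.sm (fun v => w v * P.wo ζ y v A) ≤
      P.cgt.card * β ^ (2 * P.W) * ((evB (2 * P.W * (l + 1)) m f : ℝ) / (N₁ : ℝ) ^ (P.W + 1)) *
        P.sm w +
      P.cgt.card * β ^ (2 * P.W) * (med k T l P.W).card *
        P.sm (fun v => w v * ind (¬ P.good m d ζ v A)) := by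
  classical
  have hβ0 : 0 ≤ β ^ (2 * P.W) := pow_nonneg (zero_le_one.trans hβ1) _
  set c₁ : ℝ := (evB (2 * P.W * (l + 1)) m f : ℝ) / (N₁ : ℝ) ^ (P.W + 1) with hc₁
  set c₂ : ℝ := ((med k T l P.W).card : ℝ) with hc₂
  set MX := (med k T l P.W).filter (fun X => Disjoint (tps X) A) with hMX
  set E' : ℕ → Finset ((Fin k × Fin T) × Option (Fin l)) → Dat k T N Λ → ℝ := fun i X v =>
    ind (Ev P.C (P.inps ζ v (bks k A)) (2 * P.W * (l + 1)) (P.base y v A) (Qc X v.1) i) with hE'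
  -- reordering
  have h1 : P.sm (fun v => w v * P.wo ζ y v A) =
      ∑ i ∈ P.cgt, ∑ u ∈ Fintype.piFinset (live P.ρ), ∑ X ∈ MX,
        ∑ κ ∈ Kp T P.R, ∑ L : Slot k T N → Λ,
          w (u, κ, L) * ind (P.wit ζ y (u, κ, L) i A X) := by
    symm
    rw [sum_comm]
    unfold Stp.sm Stp.wo
    refine sum_congr rfl fun u _ => ?_
    simp only [mul_sum]
    symm
    calc _ = ∑ κ ∈ Kp T P.R, ∑ i ∈ P.cgt, ∑ X ∈ MX, ∑ L : Slot k T N → Λ,
          w (u, κ, L) * ind (P.wit ζ y (u, κ, L) i A X) := by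
            refine sum_congr rfl fun κ _ => ?_
            rw [sum_comm]
            refine sum_congr rfl fun i _ => ?_
            rw [sum_comm]
      _ = _ := by
            rw [sum_comm]
            refine sum_congr rfl fun i _ => ?_
            rw [sum_comm]
  have h2 : ∀ i ∈ P.cgt, ∑ u ∈ Fintype.piFinset (live P.ρ), ∑ X ∈ MX,
        ∑ κ ∈ Kp T P.R, ∑ L : Slot k T N → Λ,
          w (u, κ, L) * ind (P.wit ζ y (u, κ, L) i A X) ≤
      β ^ (2 * P.W) * (c₁ * P.sm w + c₂ * P.sm (fun v => w v * ind (¬ P.good m d ζ v A))) := by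
    intro i hi
    have hio : i ≤ P.o := by
      have := (mem_filter.1 hi).1
      rw [mem_range] at this
      omega
    calc _ ≤ ∑ u ∈ Fintype.piFinset (live P.ρ), ∑ X ∈ MX,
          β ^ (2 * P.W) * ∑ κ ∈ Kp T P.R, ∑ L : Slot k T N → Λ,
            w (u, κ, L) * E' i X (u, κ, L) := by
          refine sum_le_sum fun u hu => sum_le_sum fun X hX => ?_
          obtain ⟨hX1, hX2⟩ := mem_filter.1 hX
          exact sum_X P hWk hR hβ1 hβ ζ y A hw0 hw hu i hX1 hX2
      _ = β ^ (2 * P.W) * ∑ κ ∈ Kp T P.R, ∑ L : Slot k T N → Λ,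
            ∑ u ∈ Fintype.piFinset (live P.ρ), w (u, κ, L) * ∑ X ∈ MX, E' i X (u, κ, L) := by
          simp only [← mul_sum]
          congr 1
          simp only [mul_sum]
          calc _ = ∑ u ∈ Fintype.piFinset (live P.ρ), ∑ κ ∈ Kp T P.R,
                ∑ L : Slot k T N → Λ, ∑ X ∈ MX, w (u, κ, L) * E' i X (u, κ, L) := by
                refine sum_congr rfl fun u _ => ?_
                rw [sum_comm]
                refine sum_congr rfl fun κ _ => ?_
                rw [sum_comm]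
            _ = _ := by
                rw [sum_comm]
                refine sum_congr rfl fun κ _ => ?_
                rw [sum_comm]
      _ ≤ β ^ (2 * P.W) * ∑ κ ∈ Kp T P.R, ∑ L : Slot k T N → Λ,
            ∑ u ∈ Fintype.piFinset (live P.ρ), w (u, κ, L) *
              (c₁ + c₂ * ind (¬ P.good m d ζ (u, κ, L) A)) := by
          refine mul_le_mul_of_nonneg_left ?_ hβ0
          refine sum_le_sum fun κ _ => sum_le_sum fun L _ => ?_
          exact sum_u P hC hW hN₁ hN ζ y κ L A (w := fun u => w (u, κ, L)) (fun u => hw0 _)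
            (fun u u' h => hw _ _ h (fun _ _ => rfl) (fun _ _ => rfl)) hio
      _ = _ := by
          congr 1
          unfold Stp.sm
          rw [mul_sum, mul_sum, ← sum_add_distrib]
          calc _ = ∑ u ∈ Fintype.piFinset (live P.ρ), ∑ κ ∈ Kp T P.R,
                ∑ L : Slot k T N → Λ, w (u, κ, L) *
                  (c₁ + c₂ * ind (¬ P.good m d ζ (u, κ, L) A)) := by
                rw [sum_comm]
                have : ∀ κ ∈ Kp T P.R, ∑ L : Slot k T N → Λ,
                    ∑ u ∈ Fintype.piFinset (live P.ρ), w (u, κ, L) *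
                    (c₁ + c₂ * ind (¬ P.good m d ζ (u, κ, L) A)) =
                    ∑ u ∈ Fintype.piFinset (live P.ρ), ∑ L : Slot k T N → Λ, w (u, κ, L) *
                    (c₁ + c₂ * ind (¬ P.good m d ζ (u, κ, L) A)) := fun κ _ => sum_comm
                rw [sum_comm, sum_congr rfl this, sum_comm]
            _ = _ := by
                refine sum_congr rfl fun u _ => ?_
                simp only [mul_sum, ← sum_add_distrib]
                refine sum_congr rfl fun κ _ => sum_congr rfl fun L _ => ?_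
                ring
  rw [h1]
  refine (sum_le_sum h2).trans (le_of_eq ?_)
  rw [sum_const, nsmul_eq_mul]
  ring

end UniCore
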