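import Pool.Agent.Lib.MP_8fffab_lc_AC.Switch

/-!
# The switching lemma

A disjunction of terms with at most `c` literals, hit by a random restriction, for which
coordinates are free with probability about `1 / c`, has a shallow decision tree. This is the lemma
of Håstad, with the exponential moment of the depth, and with his induction over the terms, which
allows to condition on `F` restricted being constantly true.
-/

open Finset

namespace SmallDepth

variable {Ω : Type} [DecidableEq Ω] [Fintype Ω]

/-- The restricted function is constantly true. -/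
def Tau (F : (Ω → Bool) → Prop) (ρ : Restr Ω) : Prop := ∀ x, F (ap ρ x)

/-- The restriction does not falsify the term `(V, a)`. -/
def Unf (a : Ω → Bool) (V : Finset Ω) (ρ : Restr Ω) : Prop := ∀ S ∈ V, ρ S ≠ some (!(a S))

/-- The weight of the value `b`. -/
def wt (q p : Ω → ℝ) (S : Ω) (b : Bool) : ℝ := if b then p S else 1 - q S - p S

/-- The parameters of the switching lemma. -/
structure SPar (q p : Ω → ℝ) (Λ τ : ℝ) (c : ℕ) : Prop extends Par q p Λ where
  t0 : 0 ≤ τ
  tq : ∀ S b, q S * Λ ≤ τ * wt q p S b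
  tc : (1 + 2 * τ) ^ c ≤ 3 / 2

variable {q p : Ω → ℝ} {Λ τ : ℝ} {c : ℕ}

omit [DecidableEq Ω] [Fintype Ω] in
theorem wt_nonneg (P : Par q p Λ) (S : Ω) (b : Bool) : 0 ≤ wt q p S b := by
  unfold wt
  have := P.qp S
  have := P.p0 S
  split_ifs <;> linarith

theorem Ex_update_wt (S : Ω) (b : Bool) (F : Restr Ω → ℝ) :
    Ex q p F = q S * Ex q p (fun ρ => F (Function.update ρ S none)) +
      wt q p S b * Ex q p (fun ρ => F (Function.update ρ S (some b))) +
      wt q p S (!b) * Ex q p (fun ρ => F (Function.update ρ S (some (!b)))) := by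
  rw [Ex_update' S]
  cases b
  · simp only [wt, Bool.not_false, if_true, Bool.false_eq_true, if_false]
    ring
  · simp only [wt, Bool.not_true, if_true, Bool.false_eq_true, if_false]

omit [Fintype Ω] in
theorem tau_some (F : (Ω → Bool) → Prop) (ρ : Restr Ω) (S : Ω) (b : Bool) :
    Tau F (Function.update ρ S (some b)) ↔ Tau (fun x => F (Function.update x S b)) ρ := by
  unfold Tau
  simp only [ap_update]

omit [Fintype Ω] in
theorem tau_none (F : (Ω → Bool) → Prop) (ρ : Restr Ω) (S : Ω) :
    Tau F (Function.update ρ S none) ↔ Tau (fun x => ∀ b, F (Function.update x S b)) ρ := by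
  unfold Tau
  constructor
  · intro h x b
    rw [← ap_update']
    exact h _
  · intro h x
    have h1 := h x (x S)
    rw [← ap_update'] at h1
    rwa [Function.update_eq_self] at h1

omit [Fintype Ω] in
theorem unf_update {a : Ω → Bool} {V : Finset Ω} {S : Ω} (hS : S ∉ V) (ρ : Restr Ω)
    {o : Option Bool} (ho : o ≠ some (!(a S))) :
    Unf a (insert S V) (Function.update ρ S o) ↔ Unf a V ρ := by
  unfold Unf
  constructor
  · intro h T hT
    have h1 := h T (mem_insert_of_mem hT)
    rwa [Function.update_of_ne (ne_of_mem_of_not_mem hT hS)] at h1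
  · intro h T hT
    by_cases hTS : T = S
    · subst hTS
      rwa [Function.update_self]
    · rw [Function.update_of_ne hTS]
      exact h T (mem_of_mem_insert_of_ne hT hTS)

omit [Fintype Ω] in
theorem unf_update_not {a : Ω → Bool} {V : Finset Ω} {S : Ω} (ρ : Restr Ω) :
    ¬ Unf a (insert S V) (Function.update ρ S (some (!(a S)))) := fun h =>
  h S (mem_insert_self _ _) (Function.update_self _ _ _)

/-- The depth after freeing a coordinate. -/
theorem pow_dt_none (hL : 1 ≤ Λ) (g : (Ω → Bool) → Prop) (S : Ω) (ρ : Restr Ω) (b : Bool) :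
    Λ ^ dt (res (Function.update ρ S none) g) ≤
      Λ * (Λ ^ dt (res ρ (fun x => g (Function.update x S b))) +
        Λ ^ dt (res ρ (fun x => g (Function.update x S (!b))))) := by
  have hL0 : 0 ≤ Λ := zero_le_one.trans hL
  set g₁ := res ρ (fun x => g (Function.update x S b)) with hg₁
  set g₀ := res ρ (fun x => g (Function.update x S (!b))) with hg₀
  have h3 : DT (max (dt g₁) (dt g₀) + 1) (res (Function.update ρ S none) g) := by
    refine DT.node _ _ S fun b' => ?_
    have h4 : (fun x => res (Function.update ρ S none) g (Function.update x S b')) =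
        res ρ (fun x => g (Function.update x S b')) := by
      funext x
      unfold res
      rw [ap_update']
    rw [h4]
    rcases Bool.eq_or_eq_not b' b with rfl | rfl
    · exact (dt_spec g₁).mono (le_max_left _ _)
    · exact (dt_spec g₀).mono (le_max_right _ _)
  have h5 := dt_le h3
  calc Λ ^ dt (res (Function.update ρ S none) g) ≤ Λ ^ (max (dt g₁) (dt g₀) + 1) :=
        pow_le_pow_right₀ hL h5
    _ = Λ * Λ ^ max (dt g₁) (dt g₀) := by ring
    _ ≤ Λ * (Λ ^ dt g₁ + Λ ^ dt g₀) := by
        refine mul_le_mul_of_nonneg_left ?_ hL0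
        rcases le_total (dt g₁) (dt g₀) with h | h
        · rw [max_eq_right h]
          linarith [pow_nonneg hL0 (dt g₁)]
        · rw [max_eq_left h]
          linarith [pow_nonneg hL0 (dt g₀)]

omit [Fintype Ω] in
theorem res_update_some (g : (Ω → Bool) → Prop) (S : Ω) (ρ : Restr Ω) (b : Bool) :
    res (Function.update ρ S (some b)) g = res ρ (fun x => g (Function.update x S b)) := by
  funext x
  unfold res
  rw [ap_update]

/-- The common step of the two inductions. -/
theorem switch_step (P : Par q p Λ) (ht0 : 0 ≤ τ) (htq : ∀ S b, q S * Λ ≤ τ * wt q p S b)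
    {a : Ω → Bool} {V : Finset Ω} {S : Ω} (hS : S ∉ V) (F g : (Ω → Bool) → Prop) {X Z X' : ℝ}
    (hX0 : 0 ≤ X) (hZ0 : 0 ≤ Z) (hX : ∀ F : (Ω → Bool) → Prop,
      Ex q p (fun ρ => ind (Tau F ρ) * ind (Unf a V ρ) *
        Λ ^ dt (res ρ (fun x => g (Function.update x S (a S))))) ≤
        X * Ex q p (fun ρ => ind (Tau F ρ) * ind (Unf a V ρ)))
    (hZ : ∀ F : (Ω → Bool) → Prop, Ex q p (fun ρ => ind (Tau F ρ) * ind (Unf a V ρ) *
        Λ ^ dt (res ρ (fun x => g (Function.update x S (!(a S)))))) ≤
        Z * Ex q p (fun ρ => ind (Tau F ρ) * ind (Unf a V ρ)))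
    (hX' : X + τ * (X + Z) ≤ X') :
    Ex q p (fun ρ => ind (Tau F ρ) * ind (Unf a (insert S V) ρ) * Λ ^ dt (res ρ g)) ≤
      X' * Ex q p (fun ρ => ind (Tau F ρ) * ind (Unf a (insert S V) ρ)) := by
  have hL0 : 0 ≤ Λ := zero_le_one.trans P.L1
  have hw := wt_nonneg P S (a S)
  have hq := P.q0 S
  set Fa : (Ω → Bool) → Prop := fun x => F (Function.update x S (a S)) with hFa
  set Fn : (Ω → Bool) → Prop := fun x => ∀ b, F (Function.update x S b) with hFn
  set Ea := Ex q p (fun ρ => ind (Tau Fa ρ) * ind (Unf a V ρ)) with hEa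
  set En := Ex q p (fun ρ => ind (Tau Fn ρ) * ind (Unf a V ρ)) with hEn
  have hE0 : 0 ≤ Ea := Ex_nonneg P.q0 P.p0 P.qp fun ρ => mul_nonneg (ind_nonneg _) (ind_nonneg _)
  have hEn0 : 0 ≤ En := Ex_nonneg P.q0 P.p0 P.qp fun ρ => mul_nonneg (ind_nonneg _) (ind_nonneg _)
  have hEna : En ≤ Ea := Ex_mono P.q0 P.p0 P.qp fun ρ =>
    mul_le_mul_of_nonneg_right (ind_mono fun h x => h x (a S)) (ind_nonneg _)
  have hR : Ex q p (fun ρ => ind (Tau F ρ) * ind (Unf a (insert S V) ρ)) =
      q S * En + wt q p S (a S) * Ea := by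
    rw [Ex_update_wt S (a S)]
    have h1 : Ex q p (fun ρ => ind (Tau F (Function.update ρ S (some (!(a S))))) *
        ind (Unf a (insert S V) (Function.update ρ S (some (!(a S)))))) = 0 := by
      rw [← Ex_const (q := q) (p := p) (Ω := Ω) 0]
      refine Ex_congr fun ρ => ?_
      rw [ind_false (unf_update_not ρ), mul_zero]
    have h2 : Ex q p (fun ρ => ind (Tau F (Function.update ρ S none)) *
        ind (Unf a (insert S V) (Function.update ρ S none))) = En := by
      refine Ex_congr fun ρ => ?_
      rw [show Tau F (Function.update ρ S none) = Tau Fn ρ from propext (tau_none F ρ S),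
        show Unf a (insert S V) (Function.update ρ S none) = Unf a V ρ from
          propext (unf_update hS ρ (by simp))]
    have h3 : Ex q p (fun ρ => ind (Tau F (Function.update ρ S (some (a S)))) *
        ind (Unf a (insert S V) (Function.update ρ S (some (a S))))) = Ea := by
      refine Ex_congr fun ρ => ?_
      rw [show Tau F (Function.update ρ S (some (a S))) = Tau Fa ρ from
          propext (tau_some F ρ S _),
        show Unf a (insert S V) (Function.update ρ S (some (a S))) = Unf a V ρ from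
          propext (unf_update hS ρ (by simp))]
    rw [h1, h2, h3, mul_zero, add_zero]
  have hLh : Ex q p (fun ρ => ind (Tau F ρ) * ind (Unf a (insert S V) ρ) * Λ ^ dt (res ρ g)) ≤
      q S * (Λ * (X * En + Z * En)) + wt q p S (a S) * (X * Ea) := by
    rw [Ex_update_wt S (a S)]
    have h1 : Ex q p (fun ρ => ind (Tau F (Function.update ρ S (some (!(a S))))) *
        ind (Unf a (insert S V) (Function.update ρ S (some (!(a S))))) *
        Λ ^ dt (res (Function.update ρ S (some (!(a S)))) g)) = 0 := by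
      rw [← Ex_const (q := q) (p := p) (Ω := Ω) 0]
      refine Ex_congr fun ρ => ?_
      rw [ind_false (unf_update_not ρ), mul_zero, zero_mul]
    have h2 : Ex q p (fun ρ => ind (Tau F (Function.update ρ S none)) *
        ind (Unf a (insert S V) (Function.update ρ S none)) *
        Λ ^ dt (res (Function.update ρ S none) g)) ≤ Λ * (X * En + Z * En) := by
      refine le_trans ?_ (mul_le_mul_of_nonneg_left (add_le_add (hX Fn) (hZ Fn)) hL0)
      rw [← Ex_add, ← Ex_mul]
      refine Ex_mono P.q0 P.p0 P.qp fun ρ => ?_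
      rw [show Tau F (Function.update ρ S none) = Tau Fn ρ from propext (tau_none F ρ S),
        show Unf a (insert S V) (Function.update ρ S none) = Unf a V ρ from
          propext (unf_update hS ρ (by simp))]
      have h4 := pow_dt_none P.L1 g S ρ (a S)
      have h5 : 0 ≤ ind (Tau Fn ρ) * ind (Unf a V ρ) :=
        mul_nonneg (ind_nonneg _) (ind_nonneg _)
      refine (mul_le_mul_of_nonneg_left h4 h5).trans (le_of_eq ?_)
      ring
    have h3 : Ex q p (fun ρ => ind (Tau F (Function.update ρ S (some (a S)))) *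
        ind (Unf a (insert S V) (Function.update ρ S (some (a S)))) *
        Λ ^ dt (res (Function.update ρ S (some (a S))) g)) ≤ X * Ea := by
      refine le_trans (le_of_eq (Ex_congr fun ρ => ?_)) (hX Fa)
      rw [show Tau F (Function.update ρ S (some (a S))) = Tau Fa ρ from
          propext (tau_some F ρ S _),
        show Unf a (insert S V) (Function.update ρ S (some (a S))) = Unf a V ρ from
          propext (unf_update hS ρ (by simp)), res_update_some]
    rw [h1, mul_zero, add_zero]
    exact add_le_add (mul_le_mul_of_nonneg_left h2 hq) (mul_le_mul_of_nonneg_left h3 hw)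
  rw [hR]
  refine hLh.trans ?_
  have htS := htq S (a S)
  have h6 : q S * Λ * (X + Z) * En ≤ τ * wt q p S (a S) * (X + Z) * Ea := by
    have h7 : 0 ≤ X + Z := by linarith
    have h8 : 0 ≤ q S * Λ := mul_nonneg hq hL0
    have h9 : 0 ≤ τ * wt q p S (a S) := mul_nonneg ht0 hw
    gcongr
  have h10 : 0 ≤ wt q p S (a S) * Ea := mul_nonneg hw hE0
  have h11 : 0 ≤ q S * En := mul_nonneg hq hEn0
  have hX'0 : 0 ≤ X' := by
    have : 0 ≤ τ * (X + Z) := mul_nonneg ht0 (by linarith)
    linarith
  have h12 := mul_le_mul_of_nonneg_right hX' h10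
  nlinarith [mul_nonneg hX'0 h11]

/-- The switching lemma, conditional form. -/
theorem switch_ev (P : SPar q p Λ τ c) (L : List (Term Ω)) (hL : ∀ C ∈ L, C.1.card ≤ c)
    (F : (Ω → Bool) → Prop) : Ex q p (fun ρ => ind (Tau F ρ) * Λ ^ dt (res ρ (ev L))) ≤
      2 * Ex q p (fun ρ => ind (Tau F ρ)) := by
  induction hN : L.length using Nat.strong_induction_on generalizing L F with
  | _ N ihN =>
  have hL0 : 0 ≤ Λ := zero_le_one.trans P.L1
  rcases L with _ | ⟨⟨T, a⟩, L'⟩
  · have h1 : ∀ ρ : Restr Ω, dt (res ρ (ev ([] : List (Term Ω)))) = 0 := by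
      intro ρ
      refine Nat.le_zero.1 (dt_le (DT.const 0 _ fun x y => ?_))
      simp [res, ev]
    simp only [h1, pow_zero, mul_one]
    have : 0 ≤ Ex q p (fun ρ => ind (Tau F ρ)) :=
      Ex_nonneg P.q0 P.p0 P.qp fun ρ => ind_nonneg _
    linarith
  simp only [List.length_cons] at hN
  have hL' : ∀ C ∈ L', C.1.card ≤ c := fun C hC => hL C (List.mem_cons_of_mem _ hC)
  have hTc : T.card ≤ c := hL (T, a) List.mem_cons_self
  have hτ1 : 1 ≤ 1 + 2 * τ := by linarith [P.t0]
  -- the functions without the term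
  have zlem : ∀ (V : Finset Ω) (M : List (Term Ω)), (∀ C ∈ M, C.1.card ≤ c) → M.length < N →
      ∀ F : (Ω → Bool) → Prop, Ex q p (fun ρ => ind (Tau F ρ) * ind (Unf a V ρ) *
        Λ ^ dt (res ρ (ev M))) ≤
        2 * (1 + 2 * τ) ^ V.card * Ex q p (fun ρ => ind (Tau F ρ) * ind (Unf a V ρ)) := by
    intro V
    induction V using Finset.induction_on with
    | empty =>
      intro M hM hlen F
      have h1 : ∀ ρ : Restr Ω, ind (Unf a ∅ ρ) = 1 := fun ρ => ind_true (by simp [Unf])
      simp only [h1, mul_one, card_empty, pow_zero]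
      exact ihN _ hlen M hM F rfl
    | insert S V hS ih =>
      intro M hM hlen F
      rw [card_insert_of_notMem hS]
      have h1 : ∀ b : Bool, ∀ F : (Ω → Bool) → Prop,
          Ex q p (fun ρ => ind (Tau F ρ) * ind (Unf a V ρ) *
          Λ ^ dt (res ρ (fun x => ev M (Function.update x S b)))) ≤
          2 * (1 + 2 * τ) ^ V.card * Ex q p (fun ρ => ind (Tau F ρ) * ind (Unf a V ρ)) := by
        intro b F
        have h2 : (fun x => ev M (Function.update x S b)) = ev (restr S b M) := by
          funext x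
          exact propext (ev_restr S b M x).symm
        rw [h2]
        exact ih _ (card_restr hM) ((length_restr _ _ _).trans_lt hlen) F
      refine switch_step P.toPar P.t0 P.tq hS F (ev M) (by positivity) (by positivity)
        (h1 (a S)) (h1 (!(a S))) (le_of_eq ?_)
      rw [pow_succ]
      ring
  -- the functions with the term
  have xlem : ∀ (V : Finset Ω) (M : List (Term Ω)), (∀ C ∈ M, C.1.card ≤ c) → M.length < N →
      ∀ F : (Ω → Bool) → Prop, Ex q p (fun ρ => ind (Tau F ρ) * ind (Unf a V ρ) *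
        Λ ^ dt (res ρ (ev ((V, a) :: M)))) ≤
        (2 * (1 + 2 * τ) ^ V.card - (1 + τ) ^ V.card) *
          Ex q p (fun ρ => ind (Tau F ρ) * ind (Unf a V ρ)) := by
    intro V
    induction V using Finset.induction_on with
    | empty =>
      intro M hM hlen F
      have h1 : ∀ ρ : Restr Ω, dt (res ρ (ev ((∅, a) :: M))) = 0 := by
        intro ρ
        refine Nat.le_zero.1 (dt_le (DT.const 0 _ fun x y => ?_))
        have h1 : ∀ z : Ω → Bool, ev ((∅, a) :: M) z := fun z =>
          ⟨(∅, a), List.mem_cons_self, by simp⟩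
        simp [res, h1]
      simp only [h1, pow_zero, mul_one, card_empty]
      linarith
    | insert S V hS ih =>
      intro M hM hlen F
      rw [card_insert_of_notMem hS]
      have hX : ∀ F : (Ω → Bool) → Prop,
          Ex q p (fun ρ => ind (Tau F ρ) * ind (Unf a V ρ) *
          Λ ^ dt (res ρ (fun x => ev ((insert S V, a) :: M) (Function.update x S (a S))))) ≤
          (2 * (1 + 2 * τ) ^ V.card - (1 + τ) ^ V.card) *
            Ex q p (fun ρ => ind (Tau F ρ) * ind (Unf a V ρ)) := by
        intro F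
        have h2 : (fun x => ev ((insert S V, a) :: M) (Function.update x S (a S))) =
            ev ((V, a) :: restr S (a S) M) := by
          funext x
          refine propext ?_
          rw [← ev_restr]
          have : restr S (a S) ((insert S V, a) :: M) = (V, a) :: restr S (a S) M := by
            unfold restr
            rw [List.filter_cons_of_pos (by simp), List.map_cons]
            simp only [erase_insert hS]
          rw [this]
        rw [h2]
        exact ih _ (card_restr hM) ((length_restr _ _ _).trans_lt hlen) F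
      have hZ : ∀ F : (Ω → Bool) → Prop,
          Ex q p (fun ρ => ind (Tau F ρ) * ind (Unf a V ρ) *
          Λ ^ dt (res ρ (fun x => ev ((insert S V, a) :: M) (Function.update x S (!(a S)))))) ≤
          2 * (1 + 2 * τ) ^ V.card * Ex q p (fun ρ => ind (Tau F ρ) * ind (Unf a V ρ)) := by
        intro F
        have h2 : (fun x => ev ((insert S V, a) :: M) (Function.update x S (!(a S)))) =
            ev (restr S (!(a S)) M) := by
          funext x
          refine propext ?_
          rw [← ev_restr]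
          have : restr S (!(a S)) ((insert S V, a) :: M) = restr S (!(a S)) M := by
            unfold restr
            rw [List.filter_cons_of_neg (by simp)]
          rw [this]
        rw [h2]
        exact zlem V _ (card_restr hM) ((length_restr _ _ _).trans_lt hlen) F
      have h3 : (1 + τ) ^ V.card ≤ (1 + 2 * τ) ^ V.card :=
        pow_le_pow_left₀ (by linarith [P.t0]) (by linarith [P.t0]) _
      have h4 : (0 : ℝ) ≤ (1 + 2 * τ) ^ V.card := by positivity
      refine switch_step P.toPar P.t0 P.tq hS F _ (by linarith) (by positivity)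
        hX hZ (le_of_eq ?_)
      rw [pow_succ, pow_succ]
      ring
  -- the two cases
  have hsplit : ∀ ρ : Restr Ω, ind (Tau F ρ) * Λ ^ dt (res ρ (ev ((T, a) :: L'))) ≤
      ind (Tau (fun x => F x ∧ ¬ ∀ S ∈ T, x S = a S) ρ) * Λ ^ dt (res ρ (ev L')) +
      ind (Tau F ρ) * ind (Unf a T ρ) * Λ ^ dt (res ρ (ev ((T, a) :: L'))) := by
    intro ρ
    have h0 : 0 ≤ Λ ^ dt (res ρ (ev L')) := pow_nonneg hL0 _
    have h0' : 0 ≤ Λ ^ dt (res ρ (ev ((T, a) :: L'))) := pow_nonneg hL0 _
    by_cases hF : Tau F ρ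
    swap
    · rw [ind_false hF, zero_mul, zero_mul, zero_mul, add_zero]
      exact mul_nonneg (ind_nonneg _) h0
    by_cases hU : Unf a T ρ
    · rw [ind_true hF, ind_true hU, one_mul, one_mul]
      have := mul_nonneg (ind_nonneg (Tau (fun x => F x ∧ ¬ ∀ S ∈ T, x S = a S) ρ)) h0
      linarith
    · have h1 : ∀ x, ¬ ∀ S ∈ T, ap ρ x S = a S := by
        intro x h
        apply hU
        intro S hS h2
        have h3 := h S hS
        unfold ap at h3
        rw [h2, Option.getD_some] at h3
        cases h4 : a S <;> rw [h4] at h3 <;> simp at h3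
      have h2 : res ρ (ev ((T, a) :: L')) = res ρ (ev L') := by
        funext x
        refine propext ?_
        unfold res ev
        constructor
        · rintro ⟨C, hC, hx⟩
          rcases List.mem_cons.1 hC with rfl | hC
          · exact absurd hx (h1 x)
          · exact ⟨C, hC, hx⟩
        · rintro ⟨C, hC, hx⟩
          exact ⟨C, List.mem_cons_of_mem _ hC, hx⟩
      have h3 : Tau (fun x => F x ∧ ¬ ∀ S ∈ T, x S = a S) ρ := fun x => ⟨hF x, h1 x⟩
      rw [ind_true hF, ind_true h3, ind_false hU, h2, one_mul, one_mul, zero_mul, add_zero]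
  have hsplit' : ∀ ρ : Restr Ω, ind (Tau (fun x => F x ∧ ¬ ∀ S ∈ T, x S = a S) ρ) +
      ind (Tau F ρ) * ind (Unf a T ρ) ≤ ind (Tau F ρ) := by
    intro ρ
    by_cases hF : Tau F ρ
    swap
    · have h3 : ¬ Tau (fun x => F x ∧ ¬ ∀ S ∈ T, x S = a S) ρ := fun h => hF fun x => (h x).1
      rw [ind_false hF, ind_false h3]
      simp
    by_cases hU : Unf a T ρ
    · have h3 : ¬ Tau (fun x => F x ∧ ¬ ∀ S ∈ T, x S = a S) ρ := by
        intro h
        refine (h a).2 fun S hS => ?_
        have h4 := hU S hS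
        unfold ap
        rcases h5 : ρ S with _ | b
        · rfl
        · rw [h5] at h4
          rw [Option.getD_some]
          cases b <;> cases h6 : a S <;> simp_all
      rw [ind_true hF, ind_true hU, ind_false h3]
      norm_num
    · rw [ind_true hF, ind_false hU, mul_zero, add_zero]
      exact ind_le_one _
  have h1 := ihN _ (by omega) L' hL' (fun x => F x ∧ ¬ ∀ S ∈ T, x S = a S) rfl
  have h2 := xlem T L' hL' (by omega) F
  have h3 : 2 * (1 + 2 * τ) ^ T.card - (1 + τ) ^ T.card ≤ 2 := by
    have h4 : (1 + 2 * τ) ^ T.card ≤ 3 / 2 := (pow_le_pow_right₀ hτ1 hTc).trans P.tc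
    have h5 : 1 ≤ (1 + τ) ^ T.card := one_le_pow₀ (by linarith [P.t0])
    linarith
  have h4 : 0 ≤ Ex q p (fun ρ => ind (Tau F ρ) * ind (Unf a T ρ)) :=
    Ex_nonneg P.q0 P.p0 P.qp fun ρ => mul_nonneg (ind_nonneg _) (ind_nonneg _)
  calc _ ≤ Ex q p (fun ρ => ind (Tau (fun x => F x ∧ ¬ ∀ S ∈ T, x S = a S) ρ) *
        Λ ^ dt (res ρ (ev L')) +
        ind (Tau F ρ) * ind (Unf a T ρ) * Λ ^ dt (res ρ (ev ((T, a) :: L')))) :=
        Ex_mono P.q0 P.p0 P.qp hsplit
    _ ≤ 2 * Ex q p (fun ρ => ind (Tau (fun x => F x ∧ ¬ ∀ S ∈ T, x S = a S) ρ)) +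
        2 * Ex q p (fun ρ => ind (Tau F ρ) * ind (Unf a T ρ)) := by
        rw [Ex_add]
        exact add_le_add h1 (h2.trans (mul_le_mul_of_nonneg_right h3 h4))
    _ = 2 * Ex q p (fun ρ => ind (Tau (fun x => F x ∧ ¬ ∀ S ∈ T, x S = a S) ρ) +
        ind (Tau F ρ) * ind (Unf a T ρ)) := by
        rw [Ex_add]
        ring
    _ ≤ 2 * Ex q p (fun ρ => ind (Tau F ρ)) :=
        mul_le_mul_of_nonneg_left (Ex_mono P.q0 P.p0 P.qp hsplit') (by norm_num)

/-- The switching lemma. -/
theorem Psi_ev' (P : SPar q p Λ τ c) (L : List (Term Ω)) (hL : ∀ C ∈ L, C.1.card ≤ c) :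
    Psi q p Λ (ev L) ≤ 2 := by
  have h := switch_ev P L hL fun _ => True
  have h1 : ∀ ρ : Restr Ω, ind (Tau (fun _ : Ω → Bool => True) ρ) = 1 := fun ρ =>
    ind_true fun _ => trivial
  simp only [h1, one_mul, Ex_one, mul_one] at h
  exact h

/-- The switching lemma for functions with certificates of size `c` for the value true. -/
theorem Psi_cert' (P : SPar q p Λ τ c) {g : (Ω → Bool) → Prop}
    (hg : ∀ x, g x → ∃ T : Finset Ω, T.card ≤ c ∧ ∀ y, (∀ S ∈ T, y S = x S) → g y) :
    Psi q p Λ g ≤ 2 := by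
  classical
  let L : List (Term Ω) := (univ.filter fun C : Term Ω => C.1.card ≤ c ∧
    ∀ y, (∀ S ∈ C.1, y S = C.2 S) → g y).toList
  have hL : ∀ C, C ∈ L ↔ C.1.card ≤ c ∧ ∀ y, (∀ S ∈ C.1, y S = C.2 S) → g y := by
    intro C
    simp [L]
  have h1 : ∀ x, g x ↔ ev L x := by
    intro x
    constructor
    · intro hx
      obtain ⟨T, hT, hT'⟩ := hg x hx
      exact ⟨(T, x), (hL _).2 ⟨hT, hT'⟩, fun _ _ => rfl⟩
    · rintro ⟨C, hC, hx⟩
      exact ((hL C).1 hC).2 x hx
  rw [Psi_congr h1]
  exact Psi_ev' P L fun C hC => ((hL C).1 hC).1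

/-- The same for functions such that `g` or its negation is a disjunction of functions with
shallow decision trees. -/
theorem Psi_or' (P : SPar q p Λ τ c) {α : Type*} {A : Set α} {v : α → (Ω → Bool) → Prop}
    (hv : ∀ l ∈ A, DT c (v l)) {g : (Ω → Bool) → Prop}
    (hg : (∀ x, g x ↔ ∃ l ∈ A, v l x) ∨ (∀ x, g x ↔ ∀ l ∈ A, v l x)) : Psi q p Λ g ≤ 2 := by
  rcases hg with hg | hg
  · refine Psi_cert' P fun x hx => ?_
    obtain ⟨l, hl, hlx⟩ := (hg x).1 hx
    obtain ⟨T, hT, hT'⟩ := (hv l hl).cert x
    exact ⟨T, hT, fun y hy => (hg y).2 ⟨l, hl, (hT' y hy).2 hlx⟩⟩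
  · rw [← Psi_not]
    refine Psi_cert' P fun x hx => ?_
    rw [hg] at hx
    push Not at hx
    obtain ⟨l, hl, hlx⟩ := hx
    obtain ⟨T, hT, hT'⟩ := (hv l hl).cert x
    refine ⟨T, hT, fun y hy hy' => ?_⟩
    exact hlx ((hT' y hy).1 ((hg y).1 hy' l hl))

end SmallDepth
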