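import Pool.Agent.Lib.UNI.Chain
import Pool.Agent.Lib.UNI.Finx
import Pool.Agent.Lib.UNI.Greedy
import Pool.Agent.Lib.UNI.Nodep
import Pool.Agent.Lib.UNI.Glue

/-!
# PROJECT UNI, row ZETA: the bound for one choice of the guesses
-/

open Finset

namespace UniCore

open SmallDepth CliqueDepth CliqueCert

variable {k T N l n : ℕ} {Λ E : Type}

/-- Row ZETA (assembly, from CHAIN, GREEDY, NODEP, GLUE, FINX): for one `ζ`. `acc a` are the
acceptance conditions, as functions of the values of the gates. -/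
theorem per_zeta [Fintype Λ] (P : Stp k T N l n Λ E) {m d f N₁ A : ℕ}
    (hC : ∀ i ≤ P.o, P.C.depth i ≤ d ∧ (P.C i).wires ≤ f) (hW : 2 ≤ P.W) (hWk : 2 * P.W < k)
    (hR : Uniq P.R) (hN₁ : 0 < N₁) (hN : ∀ b, N₁ ≤ (live P.ρ b).card) {β : ℝ} (hβ1 : 1 ≤ β)
    (hM : 1 ≤ Fintype.card Λ)
    (hβ : (Fintype.card Λ : ℝ) ^ (k - 1) ≤ β * (Kc P.R).card) (ζ : E → Prop)
    {s : ℝ} (hs1 : 1 ≤ s) (hs : (P.cgt.card : ℝ) ≤ s) {ε : ℝ} (hε : 0 ≤ ε)
    (hg : ∑ L : Slot k T N → Λ, ind (¬ Good P.C (fun x => Sum.elim (inp P.φ P.R L x) ζ) P.o m d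
      P.ρ) ≤ ε * Fintype.card (Slot k T N → Λ))
    (hp : s * β ^ (2 * P.W) *
      ((evB (2 * P.W * (l + 1)) m f : ℝ) / (N₁ : ℝ) ^ (P.W + 1)) ≤ 1) (S : ℕ)
    (acc : Fin A → (ℕ → Prop) → Prop) {B : ℝ} (hB : 0 ≤ B)
    (hneg : ∀ v : Dat k T N Λ, v.1 ∈ Fintype.piFinset (live P.ρ) → v.2.1 ∈ Kp T P.R →
      ∀ y : Fin k → Fin T × Fin l → Bool,
        (∃ a, acc a fun i => P.C.val (P.inps ζ v univ (asg (tr P.ρ) v.1 y)) i) →
          ∀ r, ¬ gip fun j i => y j (r, i))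
    (hcyl : ∀ a, ∀ vals : (Fin k → Fin T × Fin l → Bool) → ℕ → Prop,
      (∀ i ≤ P.o, ∃ Bs : Finset (Fin k × Fin T), Bs.card ≤ P.W ∧ DepOn Bs fun y => vals y i) →
      Cyl (fun y => indC (acc a (vals y))) B) :
    ∑ y : Fin k → Fin T × Fin l → Bool,
      P.sm (fun v => ind (∃ a, acc a fun i =>
        P.C.val (P.inps ζ v univ (asg (tr P.ρ) v.1 y)) i)) ≤
      (((s * β ^ (2 * P.W) * ((evB (2 * P.W * (l + 1)) m f : ℝ) / (N₁ : ℝ) ^ (P.W + 1))) ^ S +
        S * (s * β ^ (2 * P.W) * ((med k T l P.W).card + 1) *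
          ((s * ((med k T l P.W).card + 1)) ^ S * (T + 1) ^ (2 * P.W * S) *
            (β * Fintype.card Λ) ^ (2 * P.W * S) * ε))) *
          (∑ y : Fin k → Fin T × Fin l → Bool, ind (∀ r, ¬ gip fun j i => y j (r, i))) +
        (T + 1) ^ (2 * P.W * S) * 2 ^ (k * (2 * P.W * S * l)) * (A * B)) *
        P.sm (fun _ => 1) := by
  set vv : Dat k T N Λ → (Fin k → Fin T × Fin l → Bool) → ℕ → Prop := fun v y i =>
    P.C.val (P.inps ζ v univ (asg (tr P.ρ) v.1 y)) i with hvv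
  set K₁ : ℝ := (s * β ^ (2 * P.W) *
    ((evB (2 * P.W * (l + 1)) m f : ℝ) / (N₁ : ℝ) ^ (P.W + 1))) ^ S +
        S * (s * β ^ (2 * P.W) * ((med k T l P.W).card + 1) *
          ((s * ((med k T l P.W).card + 1)) ^ S * (T + 1) ^ (2 * P.W * S) *
            (β * Fintype.card Λ) ^ (2 * P.W * S) * ε)) with hK₁
  set K₂ : ℝ := (T + 1) ^ (2 * P.W * S) * 2 ^ (k * (2 * P.W * S * l)) * (A * B) with hK₂
  have hk : 2 ≤ k := by omega
  -- pointwise
  have hpt : ∀ v : Dat k T N Λ, v.1 ∈ Fintype.piFinset (live P.ρ) → v.2.1 ∈ Kp T P.R →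
      ∀ y : Fin k → Fin T × Fin l → Bool, ind (∃ a, acc a (vv v y)) ≤
        ind (∀ r, ¬ gip fun j i => y j (r, i)) * ∑ A', P.cw ζ y v S A' +
          ind ((∃ a, acc a (vv v y)) ∧ ∃ RR : Finset (Fin T), RR.card ≤ 2 * P.W * S ∧
            ∀ i ≤ P.o, ∃ Bs : Finset (Fin k × Fin T), Bs.card ≤ P.W ∧
              DepOn Bs fun y' => vv v (glue y RR y') i) := by
    intro v hv1 hv2 y
    have hc0 : ∀ A', 0 ≤ P.cw ζ y v S A' := fun A' => cw_nonneg P ζ y v S A'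
    have hs0 : 0 ≤ ∑ A', P.cw ζ y v S A' := sum_nonneg fun A' _ => hc0 A'
    by_cases hF : ∃ a, acc a (vv v y)
    · have hn : ∀ r, ¬ gip fun j i => y j (r, i) := hneg v hv1 hv2 y hF
      rw [ind_true hF, ind_true hn, one_mul]
      by_cases hz : ∀ A', P.cw ζ y v S A' = 0
      · obtain ⟨A', hA', hw⟩ := greedy P ζ y v S hz
        have h1 := nodep P (fun i hi => (hC i hi).1) hW ζ y v hv1 A' hw
        have h2 : (∃ a, acc a (vv v y)) ∧ ∃ RR : Finset (Fin T), RR.card ≤ 2 * P.W * S ∧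
            ∀ i ≤ P.o, ∃ Bs : Finset (Fin k × Fin T), Bs.card ≤ P.W ∧
              DepOn Bs fun y' => vv v (glue y RR y') i := by
          refine ⟨hF, A', hA', fun i hi => ?_⟩
          obtain ⟨Bs, hBs, hd⟩ := dep_glue (gv P.C (P.inps ζ v univ) i) (tr P.ρ) v.1 A' y
          exact ⟨Bs, hBs.trans (h1 i hi), hd⟩
        rw [ind_true h2]
        linarith
      · push Not at hz
        obtain ⟨A', hA'⟩ := hz
        have h1 : 1 ≤ P.cw ζ y v S A' := by
          rcases cw_zero_or P ζ y v S A' with h | h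
          · exact absurd h hA'
          · exact h
        have h2 : P.cw ζ y v S A' ≤ ∑ A', P.cw ζ y v S A' :=
          single_le_sum (fun A' _ => hc0 A') (mem_univ A')
        have h3 := ind_nonneg ((∃ a, acc a (vv v y)) ∧ ∃ RR : Finset (Fin T),
          RR.card ≤ 2 * P.W * S ∧ ∀ i ≤ P.o, ∃ Bs : Finset (Fin k × Fin T), Bs.card ≤ P.W ∧
              DepOn Bs fun y' => vv v (glue y RR y') i)
        linarith
    · rw [ind_false hF]
      have h3 := ind_nonneg ((∃ a, acc a (vv v y)) ∧ ∃ RR : Finset (Fin T),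
          RR.card ≤ 2 * P.W * S ∧ ∀ i ≤ P.o, ∃ Bs : Finset (Fin k × Fin T), Bs.card ≤ P.W ∧
              DepOn Bs fun y' => vv v (glue y RR y') i)
      have h4 := mul_nonneg (ind_nonneg (∀ r, ¬ gip fun j i => y j (r, i))) hs0
      linarith
  -- the second part, for fixed data
  have hfin : ∀ v : Dat k T N Λ, v.1 ∈ Fintype.piFinset (live P.ρ) → v.2.1 ∈ Kp T P.R →
      ∑ y : Fin k → Fin T × Fin l → Bool,
        ind ((∃ a, acc a (vv v y)) ∧ ∃ RR : Finset (Fin T), RR.card ≤ 2 * P.W * S ∧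
            ∀ i ≤ P.o, ∃ Bs : Finset (Fin k × Fin T), Bs.card ≤ P.W ∧
              DepOn Bs fun y' => vv v (glue y RR y') i) ≤ K₂ := by
    intro v hv1 hv2
    exact final_acc hk acc hcyl (vv v) (fun y hy => hneg v hv1 hv2 y hy)
  have hsm : ∀ F G : Dat k T N Λ → ℝ, (∀ v : Dat k T N Λ, v.1 ∈ Fintype.piFinset (live P.ρ) →
      v.2.1 ∈ Kp T P.R → F v ≤ G v) → P.sm F ≤ P.sm G := by
    intro F G h
    unfold Stp.sm
    refine sum_le_sum fun u hu => sum_le_sum fun κ hκ => sum_le_sum fun L _ => ?_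
    exact h (u, κ, L) hu hκ
  have hadd : ∀ F G : Dat k T N Λ → ℝ, P.sm (fun v => F v + G v) = P.sm F + P.sm G := by
    intro F G
    unfold Stp.sm
    simp only [sum_add_distrib]
  have hmul : ∀ (a : ℝ) (F : Dat k T N Λ → ℝ), P.sm (fun v => a * F v) = a * P.sm F := by
    intro a F
    unfold Stp.sm
    simp only [mul_sum]
  have hcomm : ∀ {ι : Type} (t : Finset ι) (F : ι → Dat k T N Λ → ℝ),
      P.sm (fun v => ∑ i ∈ t, F i v) = ∑ i ∈ t, P.sm (F i) := by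
    intro ι t F
    unfold Stp.sm
    symm
    rw [sum_comm]
    refine sum_congr rfl fun u _ => ?_
    rw [sum_comm]
    refine sum_congr rfl fun κ _ => ?_
    rw [sum_comm]
  calc ∑ y : Fin k → Fin T × Fin l → Bool, P.sm (fun v => ind (∃ a, acc a (vv v y)))
      ≤ ∑ y : Fin k → Fin T × Fin l → Bool, P.sm (fun v =>
        ind (∀ r, ¬ gip fun j i => y j (r, i)) * ∑ A', P.cw ζ y v S A' +
          ind ((∃ a, acc a (vv v y)) ∧ ∃ RR : Finset (Fin T), RR.card ≤ 2 * P.W * S ∧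
            ∀ i ≤ P.o, ∃ Bs : Finset (Fin k × Fin T), Bs.card ≤ P.W ∧
              DepOn Bs fun y' => vv v (glue y RR y') i)) :=
        sum_le_sum fun y _ => hsm _ _ fun v h1 h2 => hpt v h1 h2 y
    _ = (∑ y : Fin k → Fin T × Fin l → Bool, ind (∀ r, ¬ gip fun j i => y j (r, i)) *
          ∑ A', P.sm (fun v => P.cw ζ y v S A')) +
        P.sm (fun v => ∑ y : Fin k → Fin T × Fin l → Bool,
          ind ((∃ a, acc a (vv v y)) ∧ ∃ RR : Finset (Fin T), RR.card ≤ 2 * P.W * S ∧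
            ∀ i ≤ P.o, ∃ Bs : Finset (Fin k × Fin T), Bs.card ≤ P.W ∧
              DepOn Bs fun y' => vv v (glue y RR y') i)) := by
        rw [hcomm, ← sum_add_distrib]
        refine sum_congr rfl fun y _ => ?_
        rw [hadd, hmul, hcomm]
    _ ≤ (∑ y : Fin k → Fin T × Fin l → Bool, ind (∀ r, ¬ gip fun j i => y j (r, i)) *
          (K₁ * P.sm (fun _ => 1))) + P.sm (fun v => K₂ * 1) := by
        refine add_le_add (sum_le_sum fun y _ => ?_) (hsm _ _ fun v h1 h2 => ?_)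
        · refine mul_le_mul_of_nonneg_left ?_ (ind_nonneg _)
          exact chain P hC (by omega) hWk hR hN₁ hN hβ1 hM hβ ζ y hs1 hs hε hg hp S
        · rw [mul_one]
          exact hfin v h1 h2
    _ = (K₁ * (∑ y : Fin k → Fin T × Fin l → Bool, ind (∀ r, ¬ gip fun j i => y j (r, i))) +
          K₂) * P.sm (fun _ => 1) := by
        rw [hmul, ← sum_mul]
        ring

end UniCore
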